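import Pool.Agent.helper306_cramer.Link

/-!
# Almost sure convergence along a sparse sequence
-/

namespace Pool.Agent.helper306_cramer

open Finset Filter Topology MeasureTheory ProbabilityTheory

lemma Wsum_trunc {B : Finset ℕ} (hB : ∀ m ∈ B, 1 ≤ m) {n x : ℕ} (hnx : n ≤ x) :
    Wsum (B ∩ Finset.Icc 1 x) n = Wsum B n := by
  have e : Finset.Icc 1 x = Finset.Ico 1 (1 + x) := by
    ext m; simp only [Finset.mem_Icc, Finset.mem_Ico]; omega
  rw [e, Wsum_inter]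
  refine Finset.filter_true_of_mem (fun ab hab => ?_)
  rw [mem_Wsum] at hab
  obtain ⟨h1, h2, h3, h4⟩ := hab
  have h5 : ab.2 ∈ sg B ab.1 ab.2 := mem_sg.mpr ⟨h2, h3, le_rfl⟩
  have h6 := Finset.single_le_sum (f := fun m => m) (fun m _ => Nat.zero_le m) h5
  have h7 := hB _ h1
  have h8 := hB _ h2
  rw [h4] at h6
  rw [Finset.mem_Ico, Finset.mem_Ico]
  omega

lemma cnt_trunc {B : Finset ℕ} (hB : ∀ m ∈ B, 1 ≤ m) {n x : ℕ} (hnx : n ≤ x) :
    cnt (B ∩ Finset.Icc 1 x) n = cnt B n := by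
  rw [← card_Wsum, Wsum_trunc hB hnx, card_Wsum]

lemma XS_trunc {B : Finset ℕ} (hB : ∀ m ∈ B, 1 ≤ m) (e J L x : ℕ) (z : ℝ) :
    XS e J L x z (B ∩ Finset.Icc 1 x) = XS e J L x z B := by
  unfold XS FS
  refine Finset.sum_congr rfl (fun n hn => ?_)
  congr 1
  refine Finset.sum_congr rfl (fun s _ => ?_)
  have : B ∩ Finset.Icc 1 x ∩ Ib e s = (B ∩ Ib e s) ∩ Finset.Icc 1 x := by
    rw [Finset.inter_assoc, Finset.inter_comm (Finset.Icc 1 x), ← Finset.inter_assoc]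
  rw [this]
  exact cnt_trunc (fun m hm => hB m (Finset.mem_inter.mp hm).1) (Finset.mem_Icc.mp hn).2

/-- a set containing all the blocks -/
def WL (L : ℕ) : Finset ℕ := Finset.Icc 1 (2 ^ (L + 1))

lemma block_sub_WL {q L : ℕ} : ∀ s ∈ SS (eL q L) (JL q L) L, Ib (eL q L) s ⊆ WL L := by
  intro s hs m hm
  rw [mem_SS] at hs
  have h1 := eL_le_JL q L
  have h2 := yb_add_le (e := eL q L) (s := s) (by omega) hs.2
  have h3 : 2 ^ (s.1 + 1) ≤ 2 ^ (L + 1) := Nat.pow_le_pow_right (by norm_num) (by omega)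
  have h4 := yb_pos (eL q L) s
  unfold Ib at hm
  rw [Finset.mem_Ico] at hm
  unfold WL
  rw [Finset.mem_Icc]
  omega

variable {Ω : Type*} [MeasurableSpace Ω] {μ : Measure Ω} [IsProbabilityMeasure μ]

/-- concentration for one `x` -/
lemma conc {d : ℕ → ℝ} (hd : Dens d) {E : ℕ → Set Ω} (hm : ∀ m, MeasurableSet (E m))
    (hi : iIndepSet E μ) (hp : ∀ m, 1 ≤ m → μ (E m) = ENNReal.ofReal (pd d m)) {q : ℕ}
    (hq : 1 ≤ q) {x : ℕ} (hx : 1 ≤ x) {z : ℝ} (hz0 : 0 ≤ z) (hz1 : z ≤ 1) :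
    μ {ω | ¬ |XS (eL q (Nat.log 2 x)) (JL q (Nat.log 2 x)) (Nat.log 2 x) x z
          (Rf (WL (Nat.log 2 x)) (Rs E ω))
        - Ex (pd d) (WL (Nat.log 2 x))
          (XS (eL q (Nat.log 2 x)) (JL q (Nat.log 2 x)) (Nat.log 2 x) x z)| ≤ x / q}
      ≤ ENNReal.ofReal (2 * (q : ℝ) ^ 2 * ((Nat.log 2 x : ℝ) + 1) / 2 ^ (Nat.log 2 x / q)) := by
  classical
  set L := Nat.log 2 x with hL
  set c := Ex (pd d) (WL L) (XS (eL q L) (JL q L) L x z) with hc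
  have hx0 : (0 : ℝ) < x := by exact_mod_cast hx
  have hq0 : (0 : ℝ) < q := by exact_mod_cast hq
  have hW1 : ∀ m ∈ WL L, 1 ≤ m := fun m hm' => by
    unfold WL at hm'; exact (Finset.mem_Icc.mp hm').1
  rw [measure_Rf hm hi (fun m => hd.nonneg _) (fun m => hd.le_one _)
    (fun m hm' => hp m (hW1 m hm')) (fun A => ¬ |XS (eL q L) (JL q L) L x z A - c| ≤ x / q)]
  refine ENNReal.ofReal_le_ofReal ?_
  have h1 := Ex_indicator_le (p := pd d) (fun m => hd.nonneg _) (fun m => hd.le_one _)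
    (J := WL L) (Φ := fun A => (XS (eL q L) (JL q L) L x z A - c) ^ 2)
    (fun A _ => sq_nonneg _) (t := ((x : ℝ) / q) ^ 2) (by positivity)
    (fun A => ¬ |XS (eL q L) (JL q L) L x z A - c| ≤ x / q) (fun A _ hA => by
      push Not at hA
      have h2 : (0 : ℝ) ≤ (x : ℝ) / q := by positivity
      rw [← sq_abs (XS (eL q L) (JL q L) L x z A - c)]
      exact pow_le_pow_left₀ h2 hA.le 2)
  refine h1.trans ?_
  have h2 := XS_var hd.nonneg hd.le_one (eL_le_JL q L) x hz0 hz1 (block_sub_WL (q := q) (L := L))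
  rw [← hc] at h2
  rw [div_le_iff₀ (by positivity)]
  refine h2.trans (le_of_eq ?_)
  unfold eL
  field_simp

/-- almost sure concentration along the sequence `(i + 1) ^ (3 q)` -/
theorem ae_conc {d : ℕ → ℝ} (hd : Dens d) {E : ℕ → Set Ω} (hm : ∀ m, MeasurableSet (E m))
    (hi : iIndepSet E μ) (hp : ∀ m, 1 ≤ m → μ (E m) = ENNReal.ofReal (pd d m)) {q : ℕ}
    (hq : 1 ≤ q) {z : ℝ} (hz0 : 0 ≤ z) (hz1 : z ≤ 1) :
    ∀ᵐ ω ∂μ, ∀ᶠ i : ℕ in atTop, ∀ x : ℕ, x = (i + 1) ^ (3 * q) →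
      |XS (eL q (Nat.log 2 x)) (JL q (Nat.log 2 x)) (Nat.log 2 x) x z
          (Rf (WL (Nat.log 2 x)) (Rs E ω))
        - Ex (pd d) (WL (Nat.log 2 x))
          (XS (eL q (Nat.log 2 x)) (JL q (Nat.log 2 x)) (Nat.log 2 x) x z)| ≤ x / q := by
  set s : ℕ → Set Ω := fun i => {ω | ¬ |XS (eL q (Nat.log 2 ((i + 1) ^ (3 * q))))
      (JL q (Nat.log 2 ((i + 1) ^ (3 * q)))) (Nat.log 2 ((i + 1) ^ (3 * q))) ((i + 1) ^ (3 * q)) z
          (Rf (WL (Nat.log 2 ((i + 1) ^ (3 * q)))) (Rs E ω))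
        - Ex (pd d) (WL (Nat.log 2 ((i + 1) ^ (3 * q))))
          (XS (eL q (Nat.log 2 ((i + 1) ^ (3 * q)))) (JL q (Nat.log 2 ((i + 1) ^ (3 * q))))
            (Nat.log 2 ((i + 1) ^ (3 * q))) ((i + 1) ^ (3 * q)) z)|
            ≤ (((i + 1) ^ (3 * q) : ℕ) : ℝ) / q} with hs
  have hb : ∀ i, μ (s i) ≤ ENNReal.ofReal (12 * (q : ℝ) ^ 3 * (1 / ((i : ℝ) + 1) ^ 2)) := by
    intro i
    have h1 := conc hd hm hi hp hq (x := (i + 1) ^ (3 * q)) (Nat.one_le_pow _ _ (by omega)) hz0 hz1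
    refine h1.trans (ENNReal.ofReal_le_ofReal ?_)
    set x := (i + 1) ^ (3 * q) with hx
    set L := Nat.log 2 x with hL
    set e := L / q with he
    have hx0 : x ≠ 0 := by rw [hx]; positivity
    have hxL : 2 ^ L ≤ x := Nat.pow_log_le_self 2 hx0
    have hxU : x < 2 ^ (L + 1) := Nat.lt_pow_succ_log_self (by norm_num) x
    have hL1 : L + 1 ≤ q * (e + 1) := by
      have := Nat.lt_mul_div_succ L (by omega : 0 < q)
      rw [← he] at this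
      exact this
    have h2 : (i + 1) ^ 3 ≤ 2 ^ (e + 1) := by
      have h3 : ((i + 1) ^ 3) ^ q < (2 ^ (e + 1)) ^ q := by
        calc ((i + 1) ^ 3) ^ q = x := by rw [hx, pow_mul]
          _ < 2 ^ (L + 1) := hxU
          _ ≤ 2 ^ (q * (e + 1)) := Nat.pow_le_pow_right (by norm_num) hL1
          _ = (2 ^ (e + 1)) ^ q := by rw [← pow_mul, mul_comm]
      exact (lt_of_pow_lt_pow_left₀ q (by positivity) h3).le
    have h3 : L ≤ 3 * q * i := by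
      have h4 : i + 1 ≤ 2 ^ i := Nat.lt_two_pow_self
      have h5 : 2 ^ L ≤ 2 ^ (3 * q * i) := by
        calc 2 ^ L ≤ (i + 1) ^ (3 * q) := hxL
          _ ≤ (2 ^ i) ^ (3 * q) := Nat.pow_le_pow_left h4 _
          _ = 2 ^ (3 * q * i) := by rw [← pow_mul, mul_comm]
      exact (Nat.pow_le_pow_iff_right (by norm_num)).mp h5
    have h4 : (L : ℝ) + 1 ≤ 3 * q * (i + 1) := by
      have : L + 1 ≤ 3 * q * (i + 1) := by nlinarith
      exact_mod_cast this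
    have h5 : ((i : ℝ) + 1) ^ 3 / 2 ≤ 2 ^ e := by
      have : (((i + 1) ^ 3 : ℕ) : ℝ) ≤ ((2 ^ (e + 1) : ℕ) : ℝ) := by exact_mod_cast h2
      push_cast at this
      rw [pow_succ (2 : ℝ)] at this
      linarith
    have hi0 : (0 : ℝ) < (i : ℝ) + 1 := by positivity
    have hq0 : (0 : ℝ) < q := by exact_mod_cast hq
    calc 2 * (q : ℝ) ^ 2 * ((L : ℝ) + 1) / 2 ^ e
        ≤ 2 * (q : ℝ) ^ 2 * (3 * q * (i + 1)) / (((i : ℝ) + 1) ^ 3 / 2) := by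
          refine div_le_div₀ (by positivity) ?_ (by positivity) h5
          exact mul_le_mul_of_nonneg_left h4 (by positivity)
      _ = 12 * (q : ℝ) ^ 3 * (1 / ((i : ℝ) + 1) ^ 2) := by
          field_simp; norm_num
  have hsum : ∑' i, μ (s i) ≠ ⊤ := by
    have hS : Summable (fun i : ℕ => 12 * (q : ℝ) ^ 3 * (1 / ((i : ℝ) + 1) ^ 2)) := by
      refine Summable.mul_left _ ?_
      have h := (summable_nat_add_iff (f := fun n : ℕ => 1 / (n : ℝ) ^ 2) 1).mpr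
        (Real.summable_one_div_nat_pow.mpr (by norm_num))
      refine h.congr (fun i => ?_)
      push_cast; rfl
    have h1 : ∑' i, μ (s i) ≤ ∑' i : ℕ, ENNReal.ofReal (12 * (q : ℝ) ^ 3 * (1 / ((i : ℝ) + 1) ^ 2)) :=
      ENNReal.tsum_le_tsum hb
    rw [← ENNReal.ofReal_tsum_of_nonneg (fun i => by positivity) hS] at h1
    exact ne_top_of_le_ne_top ENNReal.ofReal_ne_top h1
  filter_upwards [ae_eventually_notMem hsum] with ω hω
  filter_upwards [hω] with i hi1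
  intro x hx
  subst hx
  by_contra hcon
  exact hi1 hcon

/-- the generating sum of all the windows -/
noncomputable def Sg (R : Set ℕ) (x : ℕ) (z : ℝ) : ℝ := ∑ n ∈ Finset.Icc 1 x, z ^ (cnt (RA R n) n)

lemma cnt_RA {R : Set ℕ} {n x : ℕ} (hnx : n ≤ x) : cnt (RA R x) n = cnt (RA R n) n := by
  have e : RA R n = RA R x ∩ Finset.Icc 1 n := by
    ext m
    rw [Finset.mem_inter, mem_RA, mem_RA, Finset.mem_Icc]
    constructor
    · rintro ⟨⟨h1, h2⟩, h3⟩; exact ⟨⟨⟨h1, by omega⟩, h3⟩, h1, h2⟩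
    · rintro ⟨⟨⟨h1, h2⟩, h3⟩, h4, h5⟩; exact ⟨⟨h1, h5⟩, h3⟩
  rw [e]
  exact (cnt_trunc (fun m hm => (mem_RA.mp hm).1.1) le_rfl).symm

lemma Sg_eq (R : Set ℕ) (x : ℕ) (z : ℝ) :
    Sg R x z = ∑ n ∈ Finset.Icc 1 x, z ^ (cnt (RA R x) n) :=
  Finset.sum_congr rfl (fun n hn => by rw [cnt_RA (Finset.mem_Icc.mp hn).2])

lemma RA_eq_trunc {R : Set ℕ} {x : ℕ} (hx : 1 ≤ x) :
    RA R x = Rf (WL (Nat.log 2 x)) R ∩ Finset.Icc 1 x := by
  have hxU : x < 2 ^ (Nat.log 2 x + 1) := Nat.lt_pow_succ_log_self (by norm_num) x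
  ext m
  unfold WL
  rw [Finset.mem_inter, mem_RA, mem_Rf, Finset.mem_Icc, Finset.mem_Icc]
  constructor
  · rintro ⟨⟨h1, h2⟩, h3⟩; exact ⟨⟨⟨h1, by omega⟩, h3⟩, h1, h2⟩
  · rintro ⟨⟨⟨h1, h2⟩, h3⟩, h4, h5⟩; exact ⟨⟨h4, h5⟩, h3⟩

/-- almost surely the generating sum is close to its expected size along the sparse sequence -/
theorem ae_sparse {d : ℕ → ℝ} (hd : Dens d) {E : ℕ → Set Ω} (hm : ∀ m, MeasurableSet (E m))
    (hi : iIndepSet E μ) (hp : ∀ m, 1 ≤ m → μ (E m) = ENNReal.ofReal (pd d m)) {q : ℕ}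
    (hq : 8 ≤ q) {z : ℝ} (hz0 : 0 ≤ z) (hz1 : z ≤ 1) :
    ∀ᵐ ω ∂μ, ∀ᶠ i : ℕ in atTop,
      |Sg (Rs E ω) ((i + 1) ^ (3 * q)) z - (((i + 1) ^ (3 * q) : ℕ) : ℝ) * (2 : ℝ) ^ (z - 1)|
        ≤ (((i + 1) ^ (3 * q) : ℕ) : ℝ) * (108 / q) := by
  obtain ⟨N1, hN1⟩ := asym_mean hd hq
  filter_upwards [ae_conc hd hm hi hp (by omega : 1 ≤ q) hz0 hz1, ae_RB hd hm hi hp] with ω h1 h2
  obtain ⟨j0, hj0⟩ := h2.exists_forall_of_atTop
  obtain ⟨N2, hN2⟩ := deter_bound hq hj0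
  filter_upwards [h1, eventually_ge_atTop (2 ^ N1), eventually_ge_atTop (2 ^ N2)] with i b1 b2 b3
  set x := (i + 1) ^ (3 * q) with hx
  have hxi : i ≤ x := by
    have : i + 1 ≤ (i + 1) ^ (3 * q) := Nat.le_self_pow (by omega) _
    omega
  have hx1 : 1 ≤ x := Nat.one_le_pow _ _ (by omega)
  have c1 := b1 x rfl
  have c2 := hN1 x (by omega) z hz0 hz1 (WL (Nat.log 2 x)) block_sub_WL
  have c3 := hN2 x (by omega) z hz0 hz1
  rw [← Sg_eq, RA_eq_trunc hx1, XS_trunc (fun m hm => by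
    have h := (mem_Rf.mp hm).1
    unfold WL at h
    exact (Finset.mem_Icc.mp h).1)] at c3
  set X := XS (eL q (Nat.log 2 x)) (JL q (Nat.log 2 x)) (Nat.log 2 x) x z
          (Rf (WL (Nat.log 2 x)) (Rs E ω))
  set c := Ex (pd d) (WL (Nat.log 2 x))
          (XS (eL q (Nat.log 2 x)) (JL q (Nat.log 2 x)) (Nat.log 2 x) x z)
  have e1 : Sg (Rs E ω) x z - x * (2 : ℝ) ^ (z - 1)
      = (Sg (Rs E ω) x z - X) + ((X - c) + (c - x * (2 : ℝ) ^ (z - 1))) := by ring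
  rw [e1]
  refine (abs_add_le _ _).trans ?_
  have e2 := abs_add_le (X - c) (c - x * (2 : ℝ) ^ (z - 1))
  have e3 : (x : ℝ) * (108 / q) = x * (98 / q) + (x / q + x * (9 / q)) := by ring
  rw [e3]
  linarith

end Pool.Agent.helper306_cramer
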