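import Pool.Agent.helper306_cramer.Finite

/-!
# Asymptotics of the mean
-/

namespace Pool.Agent.helper306_cramer

open Finset Filter Topology

/-- the depth of the subdivision -/
def eL (q L : ℕ) : ℕ := L / q

/-- the first dyadic block -/
def JL (q L : ℕ) : ℕ := (L + 3) / 2 + 2 * (L / q)

lemma eL_le_JL (q L : ℕ) : eL q L ≤ JL q L := by unfold eL JL; omega

lemma harm_upper {a : ℕ} (ha : 1 ≤ a) (n : ℕ) (hn : a ≤ n) :
    ∑ l ∈ Finset.Ioc a n, 1 / (l : ℝ) ≤ Real.log (n / a) := by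
  have ha0 : (0 : ℝ) < a := by exact_mod_cast ha
  induction n, hn using Nat.le_induction with
  | base => simp [div_self ha0.ne']
  | succ n hn ih =>
    rw [Finset.sum_Ioc_succ_top (by omega)]
    have hn0 : (0 : ℝ) < n := by exact_mod_cast (by omega : 0 < n)
    have e : ((n + 1 : ℕ) : ℝ) / a = (n / a) * (1 + 1 / n) := by
      push_cast; field_simp
    rw [e, Real.log_mul (by positivity) (by positivity)]
    have h2 : 1 / ((n + 1 : ℕ) : ℝ) ≤ Real.log (1 + 1 / n) := by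
      have h3 := Real.one_sub_inv_le_log_of_pos (x := 1 + 1 / (n : ℝ)) (by positivity)
      refine le_trans (le_of_eq ?_) h3
      push_cast
      field_simp
      ring
    linarith

lemma harm_lower {a : ℕ} (ha : 1 ≤ a) (n : ℕ) (hn : a ≤ n + 1) :
    Real.log ((n + 1) / a) ≤ ∑ l ∈ Finset.Icc a n, 1 / (l : ℝ) := by
  have ha0 : (0 : ℝ) < a := by exact_mod_cast ha
  have key : ∀ k : ℕ, Real.log ((a + k) / a) ≤ ∑ i ∈ Finset.range k, 1 / ((a : ℝ) + i) := by
    intro k
    induction k with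
    | zero => simp [div_self ha0.ne']
    | succ k ih =>
      rw [Finset.sum_range_succ]
      have e : (((a : ℝ) + ((k + 1 : ℕ) : ℝ)) / a) = ((a + k) / a) * (1 + 1 / (a + k)) := by
        push_cast; field_simp
        ring
      rw [e, Real.log_mul (by positivity) (by positivity)]
      have h2 : Real.log (1 + 1 / ((a : ℝ) + k)) ≤ 1 / ((a : ℝ) + k) := by
        have := Real.log_le_sub_one_of_pos (x := 1 + 1 / ((a : ℝ) + k)) (by positivity)
        linarith
      linarith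
  have h1 := key (n + 1 - a)
  have e1 : (a : ℝ) + ((n + 1 - a : ℕ) : ℝ) = n + 1 := by
    have : a + (n + 1 - a) = n + 1 := by omega
    exact_mod_cast this
  rw [e1] at h1
  refine h1.trans (le_of_eq ?_)
  have : Finset.Icc a n = (Finset.range (n + 1 - a)).image (fun i => a + i) := by
    ext l
    simp only [Finset.mem_Icc, Finset.mem_image, Finset.mem_range]
    constructor
    · intro h; exact ⟨l - a, by omega, by omega⟩
    · rintro ⟨i, hi, rfl⟩; omega
  rw [this, Finset.sum_image (fun i _ i' _ h => by simpa using h)]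
  exact Finset.sum_congr rfl (fun i _ => by push_cast; rfl)

/-- the harmonic sum between `JL` and `L` -/
lemma harm_JL {q L : ℕ} (hq : 8 ≤ q) (hL : q ≤ L) :
    Real.log 2 - 8 / q ≤ ∑ j ∈ Finset.Icc (JL q L) L, 1 / (j : ℝ) ∧
    ∑ j ∈ Finset.Icc (JL q L) L, 1 / (j : ℝ) ≤ Real.log 2 := by
  have hq0 : (0 : ℝ) < q := by exact_mod_cast (by omega : 0 < q)
  have hL0 : (0 : ℝ) < L := by exact_mod_cast (by omega : 0 < L)
  set e := L / q with he
  have heq : e * q ≤ L := Nat.div_mul_le_self L q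
  have hJ1 : 1 ≤ JL q L := by unfold JL; omega
  have h8e : 8 * e ≤ L := by nlinarith
  have hJL : JL q L ≤ L + 1 := by
    unfold JL; omega
  have hJ0 : (0 : ℝ) < JL q L := by exact_mod_cast hJ1
  constructor
  · have h1 := harm_lower hJ1 L hJL
    refine le_trans ?_ h1
    have h2 : (2 : ℝ) * JL q L ≤ (L + 1) * (1 + 8 / q) := by
      have h3 : 2 * JL q L ≤ L + 3 + 4 * e := by unfold JL; omega
      have h4 : (2 : ℝ) * JL q L ≤ L + 3 + 4 * e := by exact_mod_cast h3
      have h5 : (e : ℝ) ≤ L / q := by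
        rw [le_div_iff₀ hq0]; exact_mod_cast heq
      have h6 : (1 : ℝ) ≤ L / q := by
        rw [le_div_iff₀ hq0, one_mul]; exact_mod_cast hL
      have h7 : ((L : ℝ) + 1) * (1 + 8 / q) = L + 1 + 8 * (L / q) + 8 / q := by ring
      rw [h7]
      have h8 : (0 : ℝ) < 8 / q := by positivity
      linarith
    have h3 : (2 : ℝ) / (1 + 8 / q) ≤ (L + 1) / JL q L := by
      rw [div_le_div_iff₀ (by positivity) hJ0]; exact h2
    have h4 : Real.log (2 / (1 + 8 / q)) ≤ Real.log (((L : ℝ) + 1) / JL q L) :=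
      Real.log_le_log (by positivity) h3
    refine le_trans ?_ h4
    rw [Real.log_div (by norm_num) (by positivity)]
    have h5 : Real.log (1 + 8 / (q : ℝ)) ≤ 8 / q := by
      have := Real.log_le_sub_one_of_pos (x := 1 + 8 / (q : ℝ)) (by positivity)
      linarith
    linarith
  · have hJ2 : 2 ≤ JL q L := by unfold JL; omega
    have e1 : Finset.Icc (JL q L) L = Finset.Ioc (JL q L - 1) L := by
      ext l; simp only [Finset.mem_Icc, Finset.mem_Ioc]; omega
    rw [e1]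
    refine (harm_upper (a := JL q L - 1) (by omega) L (by omega)).trans ?_
    refine Real.log_le_log ?_ ?_
    · have : (0 : ℝ) < ((JL q L - 1 : ℕ) : ℝ) := by exact_mod_cast (by omega : 0 < JL q L - 1)
      positivity
    · have : (0 : ℝ) < ((JL q L - 1 : ℕ) : ℝ) := by exact_mod_cast (by omega : 0 < JL q L - 1)
      rw [div_le_iff₀ this]
      have : L ≤ 2 * (JL q L - 1) := by unfold JL; omega
      exact_mod_cast this

lemma tendsto_div_atTop {q : ℕ} (hq : 1 ≤ q) : Tendsto (fun L : ℕ => L / q) atTop atTop := by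
  rw [tendsto_atTop]
  intro b
  filter_upwards [eventually_ge_atTop (b * q)] with L hL
  rw [Nat.le_div_iff_mul_le (by omega)]
  exact hL

/-- the hypotheses on the densities: `d j` is close to `1 / log (2 ^ j)` -/
structure Dens (d : ℕ → ℝ) : Prop where
  nonneg : ∀ j, 0 ≤ d j
  le_one : ∀ j, d j ≤ 1
  lim : Tendsto (fun j : ℕ => d j * Real.log (2 ^ j)) atTop (𝓝 1)

lemma Dens.upper {d : ℕ → ℝ} (hd : Dens d) : ∃ N, ∀ j, N ≤ j → d j ≤ 2 / j := by
  have h := hd.lim
  have hl2 : 0.69 < Real.log 2 := by have := Real.log_two_gt_d9; linarith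
  have h1 : ∀ᶠ j : ℕ in atTop, d j * Real.log (2 ^ j) < 1.3 :=
    h.eventually (gt_mem_nhds (by norm_num))
  obtain ⟨N, hN⟩ := (h1.and (eventually_ge_atTop 1)).exists_forall_of_atTop
  refine ⟨N, fun j hj => ?_⟩
  obtain ⟨h2, h3⟩ := hN j hj
  have hj0 : (0 : ℝ) < j := by exact_mod_cast h3
  rw [Real.log_pow] at h2
  rw [le_div_iff₀ hj0]
  have h4 : d j * j * 0.69 ≤ d j * (j * Real.log 2) := by
    have : 0 ≤ d j * j := mul_nonneg (hd.nonneg j) hj0.le
    nlinarith
  nlinarith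

lemma Dens.sum_bounds {d : ℕ → ℝ} (hd : Dens d) {q : ℕ} (hq : 8 ≤ q) {ε : ℝ} (hε : 0 < ε)
    (_hε1 : ε ≤ 1) :
    ∀ᶠ L : ℕ in atTop, |Real.log 2 * (∑ j ∈ Finset.Icc (JL q L) L, d j) - Real.log 2| ≤ ε + 8 / q := by
  have h1 : ∀ᶠ j : ℕ in atTop, |d j * Real.log (2 ^ j) - 1| < ε := by
    have := Metric.tendsto_nhds.mp hd.lim ε hε
    simpa [Real.dist_eq] using this
  obtain ⟨N, hN⟩ := (h1.and (eventually_ge_atTop 1)).exists_forall_of_atTop
  filter_upwards [eventually_ge_atTop (2 * N), eventually_ge_atTop q] with L hL1 hL2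
  obtain ⟨a1, a2⟩ := harm_JL hq hL2
  have hJN : ∀ j ∈ Finset.Icc (JL q L) L, N ≤ j := by
    intro j hj
    rw [Finset.mem_Icc] at hj
    have : L ≤ 2 * JL q L := by unfold JL; omega
    omega
  set H := ∑ j ∈ Finset.Icc (JL q L) L, 1 / (j : ℝ) with hH
  have hH0 : 0 ≤ H := Finset.sum_nonneg (fun j _ => by positivity)
  have h2 : |Real.log 2 * (∑ j ∈ Finset.Icc (JL q L) L, d j) - H| ≤ ε * H := by
    rw [hH, Finset.mul_sum, ← Finset.sum_sub_distrib, Finset.mul_sum]
    refine (Finset.abs_sum_le_sum_abs _ _).trans (Finset.sum_le_sum (fun j hj => ?_))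
    obtain ⟨h3, h4⟩ := hN j (hJN j hj)
    have hj0 : (0 : ℝ) < j := by exact_mod_cast h4
    rw [Real.log_pow] at h3
    have e1 : Real.log 2 * d j - 1 / j = (d j * (j * Real.log 2) - 1) * (1 / j) := by
      field_simp
    rw [e1, abs_mul, abs_of_nonneg (by positivity : (0 : ℝ) ≤ 1 / j)]
    exact mul_le_mul_of_nonneg_right h3.le (by positivity)
  have hl2 : Real.log 2 ≤ 1 := by have := Real.log_two_lt_d9; linarith
  rw [abs_le] at h2 ⊢
  have h5 : ε * H ≤ ε := by nlinarith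
  constructor <;> linarith [h2.1, h2.2]

lemma sq_le_four_two_pow (e : ℕ) : ((e : ℝ) + 1) ^ 2 ≤ 4 * 2 ^ e := by
  have h : ∀ e : ℕ, (e + 1) ^ 2 ≤ 4 * 2 ^ e := by
    intro e
    induction e with
    | zero => norm_num
    | succ e ih =>
      rcases Nat.lt_or_ge e 2 with h | h
      · interval_cases e <;> norm_num
      · have : (e + 1 + 1) ^ 2 ≤ 2 * (e + 1) ^ 2 := by nlinarith
        calc (e + 1 + 1) ^ 2 ≤ 2 * (e + 1) ^ 2 := this
          _ ≤ 2 * (4 * 2 ^ e) := Nat.mul_le_mul_left _ ih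
          _ = 4 * 2 ^ (e + 1) := by ring
  exact_mod_cast h e

/-- the last error term -/
lemma last_term {q L x : ℕ} (hq : 1 ≤ q) (hx1 : 2 ^ L ≤ x) (hx : x < 2 ^ (L + 1)) :
    (2 + Real.log x) * ((L + 1) * 2 ^ (eL q L) * ((x : ℝ) / 2 ^ (JL q L)) ^ 2)
      ≤ x * (36 * (q : ℝ) ^ 2 / 2 ^ (2 * (L / q))) := by
  set e := L / q with he
  have hx0 : (0 : ℝ) < x := by
    have : 0 < 2 ^ L := by positivity
    exact_mod_cast (by omega : 0 < x)
  have hL1 : L + 1 ≤ q * (e + 1) := by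
    have := Nat.lt_mul_div_succ L (by omega : 0 < q)
    rw [← he] at this
    exact this
  have hL1' : ((L : ℝ) + 1) ≤ q * (e + 1) := by exact_mod_cast hL1
  have hq1 : (1 : ℝ) ≤ q := by exact_mod_cast hq
  have he0 : (0 : ℝ) ≤ e := Nat.cast_nonneg e
  have hlog : Real.log x ≤ L + 1 := by
    have h1 : Real.log x ≤ Real.log (2 ^ (L + 1)) := Real.log_le_log hx0 (by exact_mod_cast hx.le)
    rw [Real.log_pow] at h1
    have h2 : Real.log 2 ≤ 1 := by have := Real.log_two_lt_d9; linarith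
    push_cast at h1
    nlinarith [Nat.cast_nonneg (α := ℝ) L]
  have h1 : 2 + Real.log x ≤ 3 * (q * (e + 1)) := by nlinarith
  have hx2 : (x : ℝ) ≤ 2 ^ (L + 1) := by exact_mod_cast hx.le
  have hJ : (2 : ℝ) ^ (L + 1) * 2 ^ (4 * e) ≤ (2 ^ (JL q L)) ^ 2 := by
    rw [← pow_add, ← pow_mul]
    refine pow_le_pow_right₀ (by norm_num) ?_
    unfold JL; omega
  have h2 : ((x : ℝ) / 2 ^ (JL q L)) ^ 2 ≤ x / 2 ^ (4 * e) := by
    rw [div_pow, div_le_div_iff₀ (by positivity) (by positivity)]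
    calc (x : ℝ) ^ 2 * 2 ^ (4 * e) = x * (x * 2 ^ (4 * e)) := by ring
      _ ≤ x * (2 ^ (L + 1) * 2 ^ (4 * e)) := by
          refine mul_le_mul_of_nonneg_left ?_ hx0.le
          exact mul_le_mul_of_nonneg_right hx2 (by positivity)
      _ ≤ x * (2 ^ (JL q L)) ^ 2 := mul_le_mul_of_nonneg_left hJ hx0.le
  have h0 : 0 ≤ 2 + Real.log x := by
    have : 0 ≤ Real.log x := Real.log_natCast_nonneg x
    linarith
  have h3 := sq_le_four_two_pow e
  unfold eL
  rw [← he]
  calc (2 + Real.log x) * ((L + 1) * 2 ^ e * ((x : ℝ) / 2 ^ (JL q L)) ^ 2)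
      ≤ (3 * (q * (e + 1))) * ((q * (e + 1)) * 2 ^ e * (x / 2 ^ (4 * e))) := by
        refine mul_le_mul h1 ?_ (by positivity) (by positivity)
        refine mul_le_mul ?_ h2 (by positivity) (by positivity)
        exact mul_le_mul_of_nonneg_right hL1' (by positivity)
    _ = x * (3 * (q : ℝ) ^ 2 * (e + 1) ^ 2 * (2 ^ e / 2 ^ (4 * e))) := by ring
    _ ≤ x * (36 * (q : ℝ) ^ 2 / 2 ^ (2 * e)) := by
        refine mul_le_mul_of_nonneg_left ?_ hx0.le
        have e1 : (2 : ℝ) ^ e / 2 ^ (4 * e) = 1 / 2 ^ (3 * e) := by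
          rw [div_eq_div_iff (by positivity) (by positivity), ← pow_add, one_mul]
          congr 1; ring
        rw [e1]
        have e2 : (36 : ℝ) * (q : ℝ) ^ 2 / 2 ^ (2 * e) = 36 * (q : ℝ) ^ 2 * 2 ^ e / 2 ^ (3 * e) := by
          rw [div_eq_div_iff (by positivity) (by positivity)]
          rw [show 3 * e = 2 * e + e by ring, pow_add]; ring
        rw [e2, mul_one_div]
        refine div_le_div_of_nonneg_right ?_ (by positivity)
        have : 3 * (q : ℝ) ^ 2 * (e + 1) ^ 2 ≤ 3 * (q : ℝ) ^ 2 * (4 * 2 ^ e) :=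
          mul_le_mul_of_nonneg_left h3 (by positivity)
        have h4 : (0 : ℝ) ≤ (q : ℝ) ^ 2 * 2 ^ e := by positivity
        nlinarith

/-- the mean of the generating sum, asymptotically -/
theorem asym_mean {d : ℕ → ℝ} (hd : Dens d) {q : ℕ} (hq : 8 ≤ q) :
    ∃ N : ℕ, ∀ x : ℕ, 2 ^ N ≤ x → ∀ z : ℝ, 0 ≤ z → z ≤ 1 → ∀ W : Finset ℕ,
      (∀ s ∈ SS (eL q (Nat.log 2 x)) (JL q (Nat.log 2 x)) (Nat.log 2 x),
        Ib (eL q (Nat.log 2 x)) s ⊆ W) →
      |Ex (pd d) W (XS (eL q (Nat.log 2 x)) (JL q (Nat.log 2 x)) (Nat.log 2 x) x z)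
        - x * (2 : ℝ) ^ (z - 1)| ≤ x * (9 / q) := by
  have hq0 : (0 : ℝ) < q := by exact_mod_cast (by omega : 0 < q)
  have hq8 : (8 : ℝ) ≤ q := by exact_mod_cast hq
  -- small parameters
  set δ : ℝ := 1 / (200 * q) with hδ
  have hδ0 : 0 < δ := by positivity
  have hδ1 : δ ≤ 1 := by
    rw [hδ, div_le_one (by positivity)]; linarith
  obtain ⟨N0, hN0⟩ := hd.upper
  have hA := hd.sum_bounds hq hδ0 hδ1
  have hT1 : Tendsto (fun L : ℕ => (2 : ℝ) / (JL q L : ℝ)) atTop (𝓝 0) := by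
    refine Tendsto.div_atTop tendsto_const_nhds ?_
    refine tendsto_natCast_atTop_atTop.comp ?_
    refine tendsto_atTop_mono (fun L => ?_) (tendsto_div_atTop (q := 2) (by norm_num))
    unfold JL; omega
  have hB : ∀ᶠ L : ℕ in atTop, (2 : ℝ) / (JL q L : ℝ) < δ := hT1.eventually (gt_mem_nhds hδ0)
  have hT2 : Tendsto (fun L : ℕ => (36 * (q : ℝ) ^ 2) / (2 : ℝ) ^ (2 * (L / q))) atTop (𝓝 0) := by
    refine Tendsto.div_atTop tendsto_const_nhds ?_
    refine (tendsto_pow_atTop_atTop_of_one_lt (by norm_num : (1 : ℝ) < 2)).comp ?_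
    refine tendsto_atTop_mono (fun L => ?_) (tendsto_div_atTop (q := q) (by omega))
    omega
  have hC : ∀ᶠ L : ℕ in atTop, (36 * (q : ℝ) ^ 2) / (2 : ℝ) ^ (2 * (L / q)) < δ :=
    hT2.eventually (gt_mem_nhds hδ0)
  have hT3 : Tendsto (fun L : ℕ => (1 : ℝ) / (2 : ℝ) ^ (L / q)) atTop (𝓝 0) := by
    refine Tendsto.div_atTop tendsto_const_nhds ?_
    exact (tendsto_pow_atTop_atTop_of_one_lt (by norm_num : (1 : ℝ) < 2)).comp
      (tendsto_div_atTop (q := q) (by omega))
  have hD : ∀ᶠ L : ℕ in atTop, (1 : ℝ) / (2 : ℝ) ^ (L / q) < δ := hT3.eventually (gt_mem_nhds hδ0)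
  obtain ⟨N1, hN1⟩ := (((hA.and hB).and (hC.and hD)).and
    (eventually_ge_atTop (2 * N0 + 2))).exists_forall_of_atTop
  refine ⟨N1, fun x hx z hz0 hz1 W hW => ?_⟩
  set L := Nat.log 2 x with hLdef
  have hx0 : x ≠ 0 := by
    have : 0 < 2 ^ N1 := by positivity
    omega
  have hNL : N1 ≤ L := Nat.le_log_of_pow_le (by norm_num) hx
  obtain ⟨⟨⟨a1, a2⟩, a3, a4⟩, a5⟩ := hN1 L hNL
  have hxL : 2 ^ L ≤ x := Nat.pow_log_le_self 2 hx0
  have hxU : x < 2 ^ (L + 1) := Nat.lt_pow_succ_log_self (by norm_num) x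
  set rho : ℝ := 2 / (JL q L : ℝ) with hrho
  have hJpos : (0 : ℝ) < JL q L := by
    have : 0 < JL q L := by unfold JL; omega
    exact_mod_cast this
  have hr : ∀ j, JL q L ≤ j → d j ≤ rho := by
    intro j hj
    have h1 : N0 ≤ j := by
      have : N0 ≤ JL q L := by unfold JL; omega
      omega
    refine (hN0 j h1).trans ?_
    rw [hrho]
    refine div_le_div_of_nonneg_left (by norm_num) hJpos ?_
    exact_mod_cast hj
  have hr0 : 0 ≤ rho := by positivity
  have h32 : 32 * rho ≤ 1 := by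
    have : rho ≤ δ := a2.le
    have : δ ≤ 1 / 1600 := by
      rw [hδ]
      refine one_div_le_one_div_of_le (by norm_num) ?_
      linarith
    linarith
  have hmain := XS_mean hd.nonneg hd.le_one hr h32 (eL_le_JL q L) hxL hz0 hz1 hW
  refine hmain.trans ?_
  have hlast := last_term (q := q) (by omega) hxL hxU
  set D := ∑ j ∈ Finset.Icc (JL q L) L, d j with hDdef
  have hx0' : (0 : ℝ) < x := by exact_mod_cast Nat.pos_of_ne_zero hx0
  have hl2 : 0.69 < Real.log 2 := by have := Real.log_two_gt_d9; linarith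
  have hl2' : Real.log 2 < 0.7 := by have := Real.log_two_lt_d9; linarith
  have h8q : (8 : ℝ) / q ≤ 1 := by rw [div_le_one hq0]; exact hq8
  have hDu : Real.log 2 * D ≤ 2.7 := by
    rw [abs_le] at a1; linarith [a1.2]
  have hD0 : 0 ≤ D := Finset.sum_nonneg (fun j _ => hd.nonneg j)
  have hDu' : D ≤ 4 := by nlinarith
  have b1 : 8 * rho * (Real.log 2 * D + 5 * rho) ≤ 32 * δ := by
    have c1 : rho ≤ δ := a2.le
    have c2 : Real.log 2 * D + 5 * rho ≤ 4 := by linarith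
    have c3 : 0 ≤ Real.log 2 * D + 5 * rho := by positivity
    nlinarith
  have b2 : 7 * rho ≤ 7 * δ := by linarith [a2.le]
  have b3 : D / 2 ^ (eL q L) ≤ 4 * δ := by
    unfold eL
    have : D / 2 ^ (L / q) = D * (1 / 2 ^ (L / q)) := by ring
    rw [this]
    have c1 : (0 : ℝ) ≤ 1 / 2 ^ (L / q) := by positivity
    nlinarith [a4.le]
  have b4 : |Real.log 2 * D + 5 * rho - Real.log 2| ≤ 6 * δ + 8 / q := by
    have : Real.log 2 * D + 5 * rho - Real.log 2 = (Real.log 2 * D - Real.log 2) + 5 * rho := by ring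
    rw [this]
    refine (abs_add_le _ _).trans ?_
    rw [abs_of_nonneg (by positivity : (0 : ℝ) ≤ 5 * rho)]
    linarith [a2.le]
  have b5 : 50 * δ + 8 / q ≤ 9 / q := by
    rw [hδ]
    have : (50 : ℝ) * (1 / (200 * q)) = (1 / 4) * (1 / q) := by field_simp; norm_num
    rw [this]
    have h9 : (9 : ℝ) / q = 8 / q + 1 / q := by ring
    rw [h9]
    have : (0 : ℝ) < 1 / q := by positivity
    linarith
  calc (x : ℝ) * (8 * rho * (Real.log 2 * D + 5 * rho) + 7 * rho + D / 2 ^ (eL q L)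
          + |Real.log 2 * D + 5 * rho - Real.log 2|)
        + (2 + Real.log x) * ((L + 1) * 2 ^ (eL q L) * ((x : ℝ) / 2 ^ (JL q L)) ^ 2)
      ≤ x * (32 * δ + 7 * δ + 4 * δ + (6 * δ + 8 / q)) + x * δ := by
        refine add_le_add (mul_le_mul_of_nonneg_left (by linarith) hx0'.le) ?_
        exact hlast.trans (mul_le_mul_of_nonneg_left a3.le hx0'.le)
    _ = x * (50 * δ + 8 / q) := by ring
    _ ≤ x * (9 / q) := mul_le_mul_of_nonneg_left b5 hx0'.le

end Pool.Agent.helper306_cramer
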