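import Pool.Agent.helper306_cramer.Inter

/-!
# Estimates for one block
-/

namespace Pool.Agent.helper306_cramer

open Finset

/-- windows of `A` with sum `n` -/
def Wsum (A : Finset ℕ) (n : ℕ) : Finset (ℕ × ℕ) :=
  (Wn A).filter (fun ab => ∑ m ∈ sg A ab.1 ab.2, m = n)

lemma card_Wsum (A : Finset ℕ) (n : ℕ) : (Wsum A n).card = cnt A n := rfl

lemma mem_Wsum {A : Finset ℕ} {n : ℕ} {ab : ℕ × ℕ} : ab ∈ Wsum A n ↔
    ab.1 ∈ A ∧ ab.2 ∈ A ∧ ab.1 ≤ ab.2 ∧ ∑ m ∈ sg A ab.1 ab.2, m = n := by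
  simp only [Wsum, Wn, Finset.mem_filter, Finset.mem_product]
  tauto

/-- indicator that `B` is a window from `a` to `b` with sum `n` -/
noncomputable def th (n a b : ℕ) (B : Finset ℕ) : ℝ :=
  if a ≤ b ∧ a ∈ B ∧ b ∈ B ∧ ∑ m ∈ B, m = n then 1 else 0

lemma th_nonneg (n a b : ℕ) (B : Finset ℕ) : 0 ≤ th n a b B := by
  unfold th; split_ifs <;> norm_num

lemma th_sg_iff {A : Finset ℕ} {n a b : ℕ} :
    (a ≤ b ∧ a ∈ sg A a b ∧ b ∈ sg A a b ∧ ∑ m ∈ sg A a b, m = n) ↔ (a, b) ∈ Wsum A n := by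
  rw [mem_Wsum, mem_sg, mem_sg]
  simp only
  constructor
  · rintro ⟨h, h1, h2, h3⟩; exact ⟨h1.1, h2.1, h, h3⟩
  · rintro ⟨h1, h2, h, h3⟩; exact ⟨h, ⟨h1, le_rfl, h⟩, ⟨h2, h, le_rfl⟩, h3⟩

lemma cnt_eq_sum {I A : Finset ℕ} (hA : A ⊆ I) (n : ℕ) :
    (cnt A n : ℝ) = ∑ ab ∈ I ×ˢ I, th n ab.1 ab.2 (sg A ab.1 ab.2) := by
  unfold th
  simp_rw [th_sg_iff]
  rw [← card_Wsum, Finset.sum_ite, Finset.sum_const_zero, add_zero, Finset.sum_const, nsmul_eq_mul,
    mul_one]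
  congr 2
  ext ab
  simp only [Prod.mk.eta, Finset.mem_filter, Finset.mem_product]
  constructor
  · intro h
    have := mem_Wsum.mp h
    exact ⟨⟨hA this.1, hA this.2.1⟩, h⟩
  · exact fun h => h.2

/-- the sum of a window is monotone -/
lemma sum_sg_lt {A : Finset ℕ} (hpos : ∀ m ∈ A, 1 ≤ m) {a b a' b' : ℕ} (ha : a ≤ a') (hb : b' ≤ b)
    {z : ℕ} (hz : z ∈ A) (hz1 : a ≤ z) (hz2 : z ≤ b) (hz3 : z < a' ∨ b' < z) :
    ∑ m ∈ sg A a' b', m < ∑ m ∈ sg A a b, m := by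
  refine Finset.sum_lt_sum_of_subset (i := z) ?_ ?_ ?_ (by have := hpos z hz; omega) (fun j _ _ => by omega)
  · intro x hx
    rw [mem_sg] at hx ⊢
    exact ⟨hx.1, by omega, by omega⟩
  · rw [mem_sg]; exact ⟨hz, hz1, hz2⟩
  · rw [mem_sg]; rintro ⟨_, h1, h2⟩; omega

/-- ordered pairs of windows with equal sum, `a < a'` -/
def Qs (A : Finset ℕ) (n : ℕ) : Finset ((ℕ × ℕ) × (ℕ × ℕ)) :=
  (Wsum A n ×ˢ Wsum A n).filter (fun q => q.1.1 < q.2.1)

lemma cnt_sq_le {A : Finset ℕ} (hpos : ∀ m ∈ A, 1 ≤ m) (n : ℕ) :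
    cnt A n * cnt A n ≤ cnt A n + 2 * (Qs A n).card := by
  have h1 : (Wsum A n ×ˢ Wsum A n) ⊆ (Wsum A n).image (fun w => (w, w)) ∪
      (Qs A n ∪ (Qs A n).image Prod.swap) := by
    rintro ⟨w, w'⟩ hw
    rw [Finset.mem_product] at hw
    simp only at hw
    obtain ⟨hw1, hw2⟩ := hw
    simp only [Finset.mem_union, Finset.mem_image]
    rcases Nat.lt_trichotomy w.1 w'.1 with h | h | h
    · right; left
      unfold Qs
      rw [Finset.mem_filter, Finset.mem_product]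
      exact ⟨⟨hw1, hw2⟩, h⟩
    · left
      refine ⟨w, hw1, ?_⟩
      have m1 := mem_Wsum.mp hw1
      have m2 := mem_Wsum.mp hw2
      have : w.2 = w'.2 := by
        rcases Nat.lt_trichotomy w.2 w'.2 with h' | h' | h'
        · exfalso
          have := sum_sg_lt hpos (a := w'.1) (b := w'.2) (a' := w.1) (b' := w.2) h.ge h'.le
            m2.2.1 m2.2.2.1 le_rfl (Or.inr h')
          omega
        · exact h'
        · exfalso
          have := sum_sg_lt hpos (a := w.1) (b := w.2) (a' := w'.1) (b' := w'.2) h.le h'.le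
            m1.2.1 m1.2.2.1 le_rfl (Or.inr h')
          omega
      rw [Prod.ext_iff]
      exact ⟨rfl, Prod.ext h this⟩
    · right; right
      refine ⟨(w', w), ?_, rfl⟩
      unfold Qs
      rw [Finset.mem_filter, Finset.mem_product]
      exact ⟨⟨hw2, hw1⟩, h⟩
  have h2 := Finset.card_le_card h1
  rw [Finset.card_product] at h2
  have h3 := Finset.card_union_le ((Wsum A n).image (fun w => (w, w)))
    (Qs A n ∪ (Qs A n).image Prod.swap)
  have h4 := Finset.card_union_le (Qs A n) ((Qs A n).image Prod.swap)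
  have h5 : ((Wsum A n).image (fun w => (w, w))).card ≤ (Wsum A n).card := Finset.card_image_le
  have h6 : ((Qs A n).image Prod.swap).card ≤ (Qs A n).card := Finset.card_image_le
  rw [card_Wsum] at *
  omega

/-- intersecting pairs with sum `n` -/
def innn (A : Finset ℕ) (n : ℕ) : ℕ :=
  ((Qs A n).filter (fun q => q.2.1 ≤ q.1.2)).card

/-- disjoint pairs with sum `n` -/
def djn (A : Finset ℕ) (n : ℕ) : ℕ :=
  ((Qs A n).filter (fun q => q.1.2 < q.2.1)).card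

lemma card_Qs (A : Finset ℕ) (n : ℕ) : (Qs A n).card = innn A n + djn A n := by
  unfold innn djn
  rw [← Finset.card_union_of_disjoint]
  · congr 1
    ext q
    simp only [Finset.mem_union, Finset.mem_filter]
    constructor
    · intro h
      rcases Nat.lt_or_ge q.1.2 q.2.1 with h' | h'
      · exact Or.inr ⟨h, h'⟩
      · exact Or.inl ⟨h, h'⟩
    · rintro (h | h) <;> exact h.1
  · rw [Finset.disjoint_left]
    intro q
    simp only [Finset.mem_filter]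
    intro h1 h2
    omega

lemma sum_innn_le {A : Finset ℕ} (hpos : ∀ m ∈ A, 1 ≤ m) (x : ℕ) :
    ∑ n ∈ Finset.Icc 1 x, innn A n ≤ inn A x := by
  classical
  unfold innn inn
  rw [← Finset.card_biUnion]
  · refine Finset.card_le_card_of_injOn (fun q => ((q.1.1, q.2.1), (q.1.2, q.2.2))) ?_ ?_
    · intro q hq
      rw [Finset.mem_coe, Finset.mem_biUnion] at hq
      obtain ⟨n, hn, hq⟩ := hq
      rw [Finset.mem_Icc] at hn
      rw [Finset.mem_filter] at hq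
      obtain ⟨hq, hle⟩ := hq
      unfold Qs at hq
      rw [Finset.mem_filter, Finset.mem_product] at hq
      obtain ⟨⟨h1, h2⟩, hlt⟩ := hq
      have m1 := mem_Wsum.mp h1
      have m2 := mem_Wsum.mp h2
      have hbb : q.1.2 < q.2.2 := by
        by_contra hcon
        push Not at hcon
        have := sum_sg_lt hpos (a := q.1.1) (b := q.1.2) (a' := q.2.1) (b' := q.2.2) hlt.le hcon
          m1.1 le_rfl m1.2.2.1 (Or.inl hlt)
        omega
      simp only [Finset.coe_filter, Finset.mem_product, Set.mem_ofPred_eq]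
      refine ⟨⟨⟨m1.1, m2.1⟩, m1.2.1, m2.2.1⟩, hlt, hle, hbb, ?_, ?_⟩
      · rw [m1.2.2.2, m2.2.2.2]
      · rw [m1.2.2.2]; exact hn.2
    · intro q _ q' _ h
      simp only [Prod.mk.injEq] at h
      obtain ⟨⟨h1, h2⟩, h3, h4⟩ := h
      exact Prod.ext (Prod.ext h1 h3) (Prod.ext h2 h4)
  · intro n _ n' _ hne
    rw [Function.onFun, Finset.disjoint_left]
    intro q hq hq'
    rw [Finset.mem_filter] at hq hq'
    unfold Qs at hq hq'
    rw [Finset.mem_filter, Finset.mem_product] at hq hq'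
    have m1 := mem_Wsum.mp hq.1.1.1
    have m2 := mem_Wsum.mp hq'.1.1.1
    exact hne (m1.2.2.2.symm.trans m2.2.2.2)

lemma Icc_sub {y L a b : ℕ} (ha : a ∈ Finset.Ico y (y + L)) (hb : b ∈ Finset.Ico y (y + L)) :
    Finset.Icc a b ⊆ Finset.Ico y (y + L) := by
  intro x hx
  rw [Finset.mem_Ico] at *
  rw [Finset.mem_Icc] at hx
  omega

/-- disjoint windows are independent -/
lemma Ex_djn_le {p : ℕ → ℝ} (hp0 : ∀ m, 0 ≤ p m) (hp1 : ∀ m, p m ≤ 1) (y L n : ℕ) :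
    Ex p (Finset.Ico y (y + L)) (fun A => (djn A n : ℝ))
      ≤ (Ex p (Finset.Ico y (y + L)) (fun A => (cnt A n : ℝ))) ^ 2 := by
  classical
  set I := Finset.Ico y (y + L) with hI
  set T : ℕ × ℕ → ℝ := fun ab => Ex p I (fun A => th n ab.1 ab.2 (sg A ab.1 ab.2)) with hT
  have hcnt : Ex p I (fun A => (cnt A n : ℝ)) = ∑ ab ∈ I ×ˢ I, T ab := by
    rw [Ex_congr (fun A hA => cnt_eq_sum hA n), Ex_sum]
  have hT0 : ∀ ab, 0 ≤ T ab := fun ab => Ex_nonneg hp0 hp1 (fun A _ => th_nonneg _ _ _ _)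
  have h1 : ∀ A ⊆ I, (djn A n : ℝ) ≤ ∑ q ∈ (I ×ˢ I) ×ˢ (I ×ˢ I),
      if q.1.2 < q.2.1 then th n q.1.1 q.1.2 (sg A q.1.1 q.1.2) *
        th n q.2.1 q.2.2 (sg A q.2.1 q.2.2) else 0 := by
    intro A hA
    have e : (djn A n : ℝ) = ∑ q ∈ (Qs A n).filter (fun q => q.1.2 < q.2.1), (1 : ℝ) := by
      unfold djn; rw [Finset.sum_const, nsmul_eq_mul, mul_one]
    rw [e]
    have hsub : (Qs A n).filter (fun q => q.1.2 < q.2.1) ⊆ (I ×ˢ I) ×ˢ (I ×ˢ I) := by
      intro q hq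
      rw [Finset.mem_filter] at hq
      unfold Qs at hq
      rw [Finset.mem_filter, Finset.mem_product] at hq
      have m1 := mem_Wsum.mp hq.1.1.1
      have m2 := mem_Wsum.mp hq.1.1.2
      simp only [Finset.mem_product]
      exact ⟨⟨hA m1.1, hA m1.2.1⟩, hA m2.1, hA m2.2.1⟩
    refine le_trans (Finset.sum_le_sum (fun q hq => ?_))
      (Finset.sum_le_sum_of_subset_of_nonneg hsub (fun q _ _ => ?_))
    · rw [Finset.mem_filter] at hq
      rw [if_pos hq.2]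
      have hq1 := hq.1
      unfold Qs at hq1
      rw [Finset.mem_filter, Finset.mem_product] at hq1
      have t1 : th n q.1.1 q.1.2 (sg A q.1.1 q.1.2) = 1 := by
        unfold th; rw [if_pos (th_sg_iff.mpr hq1.1.1)]
      have t2 : th n q.2.1 q.2.2 (sg A q.2.1 q.2.2) = 1 := by
        unfold th; rw [if_pos (th_sg_iff.mpr hq1.1.2)]
      rw [t1, t2, mul_one]
    · split_ifs
      · exact mul_nonneg (th_nonneg _ _ _ _) (th_nonneg _ _ _ _)
      · exact le_rfl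
  refine (Ex_mono hp0 hp1 h1).trans ?_
  rw [Ex_sum, hcnt, sq, Finset.sum_mul_sum, ← Finset.sum_product']
  refine Finset.sum_le_sum (fun q hq => ?_)
  simp only [Finset.mem_product] at hq
  by_cases hlt : q.1.2 < q.2.1
  · simp only [if_pos hlt]
    have hs1 : Finset.Icc q.1.1 q.1.2 ⊆ I := Icc_sub hq.1.1 hq.1.2
    have hs2 : Finset.Icc q.2.1 q.2.2 ⊆ I := Icc_sub hq.2.1 hq.2.2
    have hd : Disjoint (Finset.Icc q.1.1 q.1.2) (Finset.Icc q.2.1 q.2.2) := by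
      rw [Finset.disjoint_left]; intro x; rw [Finset.mem_Icc, Finset.mem_Icc]; omega
    have := Ex_mul_inter p hd hs1 hs2 (th n q.1.1 q.1.2) (th n q.2.1 q.2.2)
    unfold sg
    rw [this]
    have u1 : Ex p (Finset.Icc q.1.1 q.1.2) (th n q.1.1 q.1.2) = T q.1 := by
      rw [hT]; simp only; unfold sg; rw [Ex_inter p hs1]
    have u2 : Ex p (Finset.Icc q.2.1 q.2.2) (th n q.2.1 q.2.2) = T q.2 := by
      rw [hT]; simp only; unfold sg; rw [Ex_inter p hs2]
    rw [u1, u2]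
  · simp only [if_neg hlt]
    rw [Ex_const]
    exact mul_nonneg (hT0 _) (hT0 _)

/-- Bonferroni for powers -/
lemma pow_bonf {z : ℝ} (hz0 : 0 ≤ z) (hz1 : z ≤ 1) (g : ℕ) :
    1 - (1 - z) * g ≤ z ^ g ∧ z ^ g ≤ 1 - (1 - z) * g + (g : ℝ) * (g - 1) / 2 := by
  constructor
  · have h := one_add_mul_le_pow (a := z - 1) (by linarith) g
    have e : (1 + (z - 1)) = z := by ring
    rw [e] at h
    linarith
  · have key : z ^ g ≤ 1 - (1 - z) * g + (1 - z) ^ 2 * ((g : ℝ) * (g - 1) / 2) := by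
      induction g with
      | zero => simp
      | succ g ih =>
        have hu0 : 0 ≤ 1 - z := by linarith
        have hg : (0 : ℝ) ≤ (g : ℝ) * (g - 1) / 2 := by
          rcases Nat.eq_zero_or_pos g with h | h
          · rw [h]; simp
          · have : (1 : ℝ) ≤ g := by exact_mod_cast h
            have : 0 ≤ (g : ℝ) * (g - 1) := mul_nonneg (by linarith) (by linarith)
            linarith
        have hg0 : (0 : ℝ) ≤ g := Nat.cast_nonneg g
        rw [pow_succ]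
        push_cast
        have h1 : z ^ g * z ≤ (1 - (1 - z) * g + (1 - z) ^ 2 * ((g : ℝ) * (g - 1) / 2)) * z :=
          mul_le_mul_of_nonneg_right ih hz0
        refine h1.trans ?_
        have h3 : 0 ≤ (1 - z) ^ 2 * ((g : ℝ) * (g - 1) / 2) * (1 - z) :=
          mul_nonneg (mul_nonneg (sq_nonneg _) hg) hu0
        nlinarith
    refine key.trans ?_
    have hg : (0 : ℝ) ≤ (g : ℝ) * (g - 1) / 2 := by
      rcases Nat.eq_zero_or_pos g with h | h
      · rw [h]; simp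
      · have : (1 : ℝ) ≤ g := by exact_mod_cast h
        have : 0 ≤ (g : ℝ) * (g - 1) := mul_nonneg (by linarith) (by linarith)
        linarith
    have h2 : (1 - z) ^ 2 ≤ 1 := by nlinarith
    nlinarith

lemma exp_bonf {v : ℝ} (hv : 0 ≤ v) : 1 - v ≤ Real.exp (-v) ∧ Real.exp (-v) ≤ 1 - v + v ^ 2 / 2 := by
  constructor
  · have := Real.add_one_le_exp (-v); linarith
  · have h1 := Real.quadratic_le_exp_of_nonneg hv
    rw [Real.exp_neg]
    have hpos : 0 < Real.exp v := Real.exp_pos v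
    rw [inv_le_iff_one_le_mul₀ hpos]
    have h2 : 0 ≤ 1 - v + v ^ 2 / 2 := by nlinarith [sq_nonneg (1 - v)]
    calc (1 : ℝ) ≤ (1 - v + v ^ 2 / 2) * (1 + v + v ^ 2 / 2) := by nlinarith [sq_nonneg (v ^ 2)]
      _ ≤ (1 - v + v ^ 2 / 2) * Real.exp v := mul_le_mul_of_nonneg_left h1 h2

/-- generating function of one block -/
theorem pgf_block {p : ℕ → ℝ} (hp0 : ∀ m, 0 ≤ p m) (hp1 : ∀ m, p m ≤ 1) {y L : ℕ} (hy : 1 ≤ y)
    (n : ℕ) {z : ℝ} (hz0 : 0 ≤ z) (hz1 : z ≤ 1) :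
    |Ex p (Finset.Ico y (y + L)) (fun A => z ^ (cnt A n))
      - Real.exp (-((1 - z) * Ex p (Finset.Ico y (y + L)) (fun A => (cnt A n : ℝ))))|
    ≤ 2 * (Ex p (Finset.Ico y (y + L)) (fun A => (cnt A n : ℝ))) ^ 2
      + Ex p (Finset.Ico y (y + L)) (fun A => (innn A n : ℝ)) := by
  set I := Finset.Ico y (y + L) with hI
  set lam := Ex p I (fun A => (cnt A n : ℝ)) with hlam
  have hl0 : 0 ≤ lam := Ex_nonneg hp0 hp1 (fun A _ => Nat.cast_nonneg _)
  have hu0 : 0 ≤ 1 - z := by linarith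
  have hin0 : 0 ≤ Ex p I (fun A => (innn A n : ℝ)) :=
    Ex_nonneg hp0 hp1 (fun A _ => Nat.cast_nonneg _)
  have hlow : 1 - (1 - z) * lam ≤ Ex p I (fun A => z ^ (cnt A n)) := by
    have h1 : Ex p I (fun A => 1 - (1 - z) * (cnt A n : ℝ)) ≤ Ex p I (fun A => z ^ (cnt A n)) :=
      Ex_mono hp0 hp1 (fun A _ => (pow_bonf hz0 hz1 (cnt A n)).1)
    rwa [Ex_sub, Ex_const, Ex_mul_left, ← hlam] at h1
  have hup : Ex p I (fun A => z ^ (cnt A n)) ≤ 1 - (1 - z) * lam + (lam ^ 2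
      + Ex p I (fun A => (innn A n : ℝ))) := by
    have h1 : Ex p I (fun A => z ^ (cnt A n)) ≤
        Ex p I (fun A => (1 - (1 - z) * (cnt A n : ℝ)) + ((innn A n : ℝ) + (djn A n : ℝ))) := by
      refine Ex_mono hp0 hp1 (fun A hA => ?_)
      refine (pow_bonf hz0 hz1 (cnt A n)).2.trans ?_
      have h2 : (cnt A n : ℝ) * (cnt A n - 1) / 2 ≤ (innn A n : ℝ) + (djn A n : ℝ) := by
        have h3 := cnt_sq_le (A := A) (fun m hm => by
          have := hA hm; rw [hI, Finset.mem_Ico] at this; omega) n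
        rw [card_Qs] at h3
        have h4 : (cnt A n : ℝ) * cnt A n ≤ cnt A n + 2 * (innn A n + djn A n) := by
          exact_mod_cast h3
        nlinarith
      linarith
    rw [Ex_add, Ex_sub, Ex_const, Ex_mul_left, ← hlam, Ex_add] at h1
    have h5 := Ex_djn_le hp0 hp1 y L n
    rw [← hI, ← hlam] at h5
    linarith
  have he := exp_bonf (v := (1 - z) * lam) (mul_nonneg hu0 hl0)
  have he2 : ((1 - z) * lam) ^ 2 / 2 ≤ lam ^ 2 := by
    have : (1 - z) ^ 2 ≤ 1 := by nlinarith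
    have : ((1 - z) * lam) ^ 2 ≤ lam ^ 2 := by
      rw [mul_pow]; nlinarith [sq_nonneg lam]
    nlinarith [sq_nonneg lam]
  rw [abs_le]
  constructor
  · nlinarith [sq_nonneg lam]
  · nlinarith [sq_nonneg lam]

/-- covariance of one block -/
theorem cov_block {p : ℕ → ℝ} (hp0 : ∀ m, 0 ≤ p m) (hp1 : ∀ m, p m ≤ 1) (I : Finset ℕ)
    (n m : ℕ) {z : ℝ} (hz0 : 0 ≤ z) (hz1 : z ≤ 1) :
    |Ex p I (fun A => z ^ (cnt A n) * z ^ (cnt A m))
      - Ex p I (fun A => z ^ (cnt A n)) * Ex p I (fun A => z ^ (cnt A m))|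
    ≤ Ex p I (fun A => (cnt A n : ℝ) * (cnt A m : ℝ))
      + Ex p I (fun A => (cnt A n : ℝ)) * Ex p I (fun A => (cnt A m : ℝ)) := by
  have hb : ∀ g : ℕ, 0 ≤ 1 - z ^ g ∧ 1 - z ^ g ≤ g := by
    intro g
    constructor
    · have := pow_le_one₀ (n := g) hz0 hz1; linarith
    · have := (pow_bonf hz0 hz1 g).1
      have : (1 - z) * g ≤ g := by nlinarith [Nat.cast_nonneg (α := ℝ) g]
      linarith
  have e1 : Ex p I (fun A => z ^ (cnt A n) * z ^ (cnt A m))
      - Ex p I (fun A => z ^ (cnt A n)) * Ex p I (fun A => z ^ (cnt A m))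
      = Ex p I (fun A => (1 - z ^ (cnt A n)) * (1 - z ^ (cnt A m)))
        - Ex p I (fun A => 1 - z ^ (cnt A n)) * Ex p I (fun A => 1 - z ^ (cnt A m)) := by
    have h1 : Ex p I (fun A => (1 - z ^ (cnt A n)) * (1 - z ^ (cnt A m)))
        = 1 - Ex p I (fun A => z ^ (cnt A n)) - Ex p I (fun A => z ^ (cnt A m))
          + Ex p I (fun A => z ^ (cnt A n) * z ^ (cnt A m)) := by
      rw [← Ex_const p I 1, ← Ex_sub, ← Ex_sub, ← Ex_add]
      refine Ex_congr (fun A _ => ?_)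
      rw [Ex_const]
      ring
    rw [h1, Ex_sub, Ex_sub, Ex_const]
    ring
  rw [e1]
  have a1 : 0 ≤ Ex p I (fun A => (1 - z ^ (cnt A n)) * (1 - z ^ (cnt A m))) :=
    Ex_nonneg hp0 hp1 (fun A _ => mul_nonneg (hb _).1 (hb _).1)
  have a2 : Ex p I (fun A => (1 - z ^ (cnt A n)) * (1 - z ^ (cnt A m)))
      ≤ Ex p I (fun A => (cnt A n : ℝ) * (cnt A m : ℝ)) :=
    Ex_mono hp0 hp1 (fun A _ => mul_le_mul (hb _).2 (hb _).2 (hb _).1 (Nat.cast_nonneg _))
  have a3 : 0 ≤ Ex p I (fun A => 1 - z ^ (cnt A n)) := Ex_nonneg hp0 hp1 (fun A _ => (hb _).1)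
  have a4 : 0 ≤ Ex p I (fun A => 1 - z ^ (cnt A m)) := Ex_nonneg hp0 hp1 (fun A _ => (hb _).1)
  have a5 : Ex p I (fun A => 1 - z ^ (cnt A n)) ≤ Ex p I (fun A => (cnt A n : ℝ)) :=
    Ex_mono hp0 hp1 (fun A _ => (hb _).2)
  have a6 : Ex p I (fun A => 1 - z ^ (cnt A m)) ≤ Ex p I (fun A => (cnt A m : ℝ)) :=
    Ex_mono hp0 hp1 (fun A _ => (hb _).2)
  have a7 := mul_le_mul a5 a6 a4 (a3.trans a5)
  have a8 : 0 ≤ Ex p I (fun A => 1 - z ^ (cnt A n)) * Ex p I (fun A => 1 - z ^ (cnt A m)) :=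
    mul_nonneg a3 a4
  have a9 : 0 ≤ Ex p I (fun A => (cnt A n : ℝ)) * Ex p I (fun A => (cnt A m : ℝ)) := a8.trans a7
  have a10 := a1.trans a2
  rw [abs_le]
  constructor <;> linarith

end Pool.Agent.helper306_cramer
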