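import Pool.Agent.helper306_cramer.Family

/-!
# The dyadic blocks and the mean number of windows
-/

namespace Pool.Agent.helper306_cramer

open Finset

/-- left end of the block `s = (j, i)` -/
def yb (e : ℕ) (s : ℕ × ℕ) : ℕ := 2 ^ (s.1 - e) * (2 ^ e + s.2)

/-- length of the block `s = (j, i)` -/
def Lb (e : ℕ) (s : ℕ × ℕ) : ℕ := 2 ^ (s.1 - e)

/-- the blocks between `2 ^ J` and `2 ^ (L + 1)` -/
def SS (e J L : ℕ) : Finset (ℕ × ℕ) := Finset.Icc J L ×ˢ Finset.range (2 ^ e)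

/-- the block -/
def Ib (e : ℕ) (s : ℕ × ℕ) : Finset ℕ := Finset.Ico (yb e s) (yb e s + Lb e s)

lemma mem_SS {e J L : ℕ} {s : ℕ × ℕ} : s ∈ SS e J L ↔ (J ≤ s.1 ∧ s.1 ≤ L) ∧ s.2 < 2 ^ e := by
  simp [SS]

lemma pow_split {e j : ℕ} (h : e ≤ j) : 2 ^ (j - e) * 2 ^ e = 2 ^ j := by
  rw [← pow_add]; congr 1; omega

lemma yb_ge {e : ℕ} {s : ℕ × ℕ} (h : e ≤ s.1) : 2 ^ s.1 ≤ yb e s := by
  unfold yb
  rw [mul_add, pow_split h]; omega

lemma yb_add_le {e : ℕ} {s : ℕ × ℕ} (h : e ≤ s.1) (hi : s.2 < 2 ^ e) :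
    yb e s + Lb e s ≤ 2 ^ (s.1 + 1) := by
  unfold yb Lb
  have h1 : 2 ^ (s.1 - e) * (2 ^ e + s.2) + 2 ^ (s.1 - e) = 2 ^ (s.1 - e) * (2 ^ e + s.2 + 1) := by
    ring
  rw [h1]
  have h2 : 2 ^ (s.1 - e) * (2 ^ e + s.2 + 1) ≤ 2 ^ (s.1 - e) * (2 * 2 ^ e) :=
    Nat.mul_le_mul_left _ (by omega)
  refine h2.trans (le_of_eq ?_)
  rw [pow_succ, ← pow_split h]; ring

lemma yb_pos (e : ℕ) (s : ℕ × ℕ) : 1 ≤ yb e s := by
  unfold yb
  have h1 : 0 < 2 ^ (s.1 - e) := by positivity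
  have h2 : 0 < 2 ^ e := by positivity
  exact Nat.mul_pos h1 (by omega)

lemma Lb_mul_le (e : ℕ) (s : ℕ × ℕ) : Lb e s * 2 ^ e ≤ yb e s := by
  unfold Lb yb
  exact Nat.mul_le_mul_left _ (by omega)

lemma Lb_le (e : ℕ) (s : ℕ × ℕ) : Lb e s ≤ yb e s := by
  refine le_trans ?_ (Lb_mul_le e s)
  have h2 : 1 ≤ 2 ^ e := Nat.one_le_two_pow
  exact Nat.le_mul_of_pos_right _ h2

lemma log_of_mem {e : ℕ} {s : ℕ × ℕ} (h : e ≤ s.1) (hi : s.2 < 2 ^ e) {m : ℕ} (hm : m ∈ Ib e s) :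
    Nat.log 2 m = s.1 := by
  unfold Ib at hm
  rw [Finset.mem_Ico] at hm
  refine Nat.log_eq_of_pow_le_of_lt_pow ((yb_ge h).trans hm.1) ?_
  exact lt_of_lt_of_le hm.2 (yb_add_le h hi)

lemma snd_of_mem {e : ℕ} {s : ℕ × ℕ} {m : ℕ} (hm : m ∈ Ib e s) :
    m / 2 ^ (s.1 - e) = 2 ^ e + s.2 := by
  unfold Ib yb Lb at hm
  rw [Finset.mem_Ico] at hm
  have hpos : 0 < 2 ^ (s.1 - e) := by positivity
  refine le_antisymm ?_ ?_
  · have : m / 2 ^ (s.1 - e) < 2 ^ e + s.2 + 1 := by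
      rw [Nat.div_lt_iff_lt_mul hpos]
      calc m < 2 ^ (s.1 - e) * (2 ^ e + s.2) + 2 ^ (s.1 - e) := hm.2
        _ = (2 ^ e + s.2 + 1) * 2 ^ (s.1 - e) := by ring
    omega
  · rw [Nat.le_div_iff_mul_le hpos]
    calc (2 ^ e + s.2) * 2 ^ (s.1 - e) = 2 ^ (s.1 - e) * (2 ^ e + s.2) := by ring
      _ ≤ m := hm.1

lemma block_unique {e J L : ℕ} (he : e ≤ J) {s s' : ℕ × ℕ} (hs : s ∈ SS e J L)
    (hs' : s' ∈ SS e J L) {m : ℕ} (hm : m ∈ Ib e s) (hm' : m ∈ Ib e s') : s = s' := by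
  rw [mem_SS] at hs hs'
  have h1 := log_of_mem (by omega) hs.2 hm
  have h2 := log_of_mem (by omega) hs'.2 hm'
  have h3 : s.1 = s'.1 := h1.symm.trans h2
  have h4 := snd_of_mem hm
  have h5 := snd_of_mem hm'
  rw [h3] at h4
  have h6 : s.2 = s'.2 := by omega
  exact Prod.ext h3 h6

lemma blocks_disjoint {e J L : ℕ} (he : e ≤ J) :
    (SS e J L : Set (ℕ × ℕ)).PairwiseDisjoint (fun s => Finset.Ico (yb e s) (yb e s + Lb e s)) := by
  intro s hs s' hs' hne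
  rw [Function.onFun, Finset.disjoint_left]
  intro m hm hm'
  exact hne (block_unique he hs hs' hm hm')

lemma exists_block {e J L : ℕ} (he : e ≤ J) {m : ℕ} (h1 : 2 ^ J ≤ m) (h2 : m < 2 ^ (L + 1)) :
    ∃ s ∈ SS e J L, m ∈ Ib e s := by
  have hm0 : m ≠ 0 := by
    have : 0 < 2 ^ J := by positivity
    omega
  set j := Nat.log 2 m with hj
  have hj1 : J ≤ j := Nat.le_log_of_pow_le (by norm_num) h1
  have hj2 : j ≤ L := by
    have := Nat.log_lt_of_lt_pow hm0 h2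
    omega
  have hl : 2 ^ j ≤ m := Nat.pow_log_le_self 2 hm0
  have hu : m < 2 ^ (j + 1) := Nat.lt_pow_succ_log_self (by norm_num) m
  have hej : e ≤ j := he.trans hj1
  have hpos : 0 < 2 ^ (j - e) := by positivity
  have q1 : 2 ^ e ≤ m / 2 ^ (j - e) := by
    rw [Nat.le_div_iff_mul_le hpos, mul_comm, pow_split hej]; exact hl
  have q2 : m / 2 ^ (j - e) < 2 * 2 ^ e := by
    rw [Nat.div_lt_iff_lt_mul hpos]
    have : 2 * 2 ^ e * 2 ^ (j - e) = 2 ^ (j + 1) := by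
      rw [pow_succ, ← pow_split hej]; ring
    rw [this]; exact hu
  refine ⟨(j, m / 2 ^ (j - e) - 2 ^ e), ?_, ?_⟩
  · rw [mem_SS]; simp only; omega
  · unfold Ib yb Lb
    rw [Finset.mem_Ico]
    simp only
    have e1 : 2 ^ e + (m / 2 ^ (j - e) - 2 ^ e) = m / 2 ^ (j - e) := by omega
    rw [e1]
    have := Nat.div_add_mod m (2 ^ (j - e))
    have h3 := Nat.mod_lt m hpos
    constructor
    · omega
    · omega

/-- the elements of a window with `m + 1` elements -/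
lemma cntl_eq_zero {y L m n : ℕ} {A : Finset ℕ} (hA : A ⊆ Finset.Ico y (y + L))
    (h : n / (m + 1) ∉ Finset.Ico y (y + L)) : cntl A m n = 0 := by
  unfold cntl
  rw [Finset.card_eq_zero, Finset.filter_eq_empty_iff]
  rintro ⟨a, b⟩ hab ⟨hc, hs⟩
  simp only at hc hs
  apply h
  have hne : (sg A a b).Nonempty := Finset.card_pos.mp (by omega)
  have h1 : (m + 1) * y ≤ n := by
    rw [← hs, ← hc]
    have := Finset.card_nsmul_le_sum (sg A a b) (fun m => m) y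
      (fun m hm => (Finset.mem_Ico.mp (hA (mem_sg.mp hm).1)).1)
    rwa [smul_eq_mul] at this
  have h2 : n < (m + 1) * (y + L) := by
    rw [← hs, ← hc]
    have : ∑ m ∈ sg A a b, m < ∑ m ∈ sg A a b, (y + L) :=
      Finset.sum_lt_sum_of_nonempty hne
        (fun m hm => (Finset.mem_Ico.mp (hA (mem_sg.mp hm).1)).2)
    rwa [Finset.sum_const, smul_eq_mul] at this
  rw [Finset.mem_Ico]
  constructor
  · rw [Nat.le_div_iff_mul_le (by omega), mul_comm]; exact h1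
  · rw [Nat.div_lt_iff_lt_mul (by omega), mul_comm]; exact h2

lemma cnt_eq_sum_cntl {y L n : ℕ} (hy : 1 ≤ y) {A : Finset ℕ} (hA : A ⊆ Finset.Ico y (y + L)) :
    cnt A n = ∑ m ∈ Finset.range n, cntl A m n := by
  classical
  unfold cntl
  rw [← Finset.card_biUnion]
  · unfold cnt
    congr 1
    ext ab
    simp only [Finset.mem_biUnion, Finset.mem_filter, Finset.mem_range]
    constructor
    · rintro ⟨h1, h2⟩
      have h1' := h1
      simp only [Wn, Finset.mem_filter, Finset.mem_product] at h1'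
      have hmem : ab.1 ∈ sg A ab.1 ab.2 := mem_sg.mpr ⟨h1'.1.1, le_rfl, h1'.2⟩
      have hpos : 0 < (sg A ab.1 ab.2).card := Finset.card_pos.mpr ⟨_, hmem⟩
      have hle : (sg A ab.1 ab.2).card ≤ n := by
        have := Finset.card_nsmul_le_sum (sg A ab.1 ab.2) (fun m => m) 1
          (fun m hm => by have := (Finset.mem_Ico.mp (hA (mem_sg.mp hm).1)).1; omega)
        rw [smul_eq_mul, mul_one, h2] at this
        exact this
      exact ⟨(sg A ab.1 ab.2).card - 1, by omega, h1, by omega, h2⟩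
    · rintro ⟨m, _, h1, _, h2⟩; exact ⟨h1, h2⟩
  · intro m _ m' _ hne
    rw [Function.onFun, Finset.disjoint_left]
    intro ab h1 h2
    rw [Finset.mem_filter] at h1 h2
    omega

/-- mean number of windows of one block -/
lemma Ex_cnt_le {p : ℕ → ℝ} (hp0 : ∀ m, 0 ≤ p m) (hp1 : ∀ m, p m ≤ 1) {c : ℝ} {y L : ℕ}
    (hy : 1 ≤ y) (hc : ∀ m ∈ Finset.Ico y (y + L), p m = c) (h0 : 0 ≤ c) (h2 : 32 * c ≤ 1) (n : ℕ) :
    Ex p (Finset.Ico y (y + L)) (fun A => (cnt A n : ℝ))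
      ≤ ∑ l ∈ Finset.Icc 1 n, if n / l ∈ Finset.Ico y (y + L) then
          c * (1 / (l : ℝ) + (1 / 2 : ℝ) ^ l) else 0 := by
  classical
  have e1 : Ex p (Finset.Ico y (y + L)) (fun A => (cnt A n : ℝ))
      = ∑ m ∈ Finset.range n, Ex p (Finset.Ico y (y + L)) (fun A => (cntl A m n : ℝ)) := by
    rw [← Ex_sum]
    exact Ex_congr (fun A hA => by rw [cnt_eq_sum_cntl hy hA]; push_cast; rfl)
  have e2 : ∑ l ∈ Finset.Icc 1 n, (if n / l ∈ Finset.Ico y (y + L) then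
          c * (1 / (l : ℝ) + (1 / 2 : ℝ) ^ l) else 0)
      = ∑ m ∈ Finset.range n, (if n / (m + 1) ∈ Finset.Ico y (y + L) then
          c * (1 / ((m : ℝ) + 1) + (1 / 2 : ℝ) ^ (m + 1)) else 0) := by
    have : Finset.Icc 1 n = (Finset.range n).image (fun m => m + 1) := by
      ext l
      simp only [Finset.mem_Icc, Finset.mem_image, Finset.mem_range]
      constructor
      · intro h; exact ⟨l - 1, by omega, by omega⟩
      · rintro ⟨m, hm, rfl⟩; omega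
    rw [this, Finset.sum_image (fun a _ b _ h => by simpa using h)]
    refine Finset.sum_congr rfl (fun m _ => ?_)
    push_cast
    rfl
  rw [e1, e2]
  refine Finset.sum_le_sum (fun m _ => ?_)
  split_ifs with h
  · refine (Ex_cntl_le hp0 hp1 hc h0 (by linarith) m n).trans ?_
    refine mul_le_mul_of_nonneg_left ?_ h0
    refine add_le_add le_rfl ?_
    have h3 : (2 * c) ^ ((m + 4) / 4) ≤ (1 / 16 : ℝ) ^ ((m + 4) / 4) :=
      pow_le_pow_left₀ (by linarith) (by linarith) _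
    refine h3.trans ?_
    have h4 : (1 / 16 : ℝ) ^ ((m + 4) / 4) = (1 / 2 : ℝ) ^ (4 * ((m + 4) / 4)) := by
      rw [pow_mul]; norm_num
    rw [h4]
    exact pow_le_pow_of_le_one (by norm_num) (by norm_num) (by omega)
  · rw [Ex_congr (Ψ := fun _ => (0 : ℝ)) (fun A hA => by rw [cntl_eq_zero hA h]; simp), Ex_const]

lemma sum_half_pow_le (T : Finset ℕ) (hT : ∀ l ∈ T, 1 ≤ l) : ∑ l ∈ T, (1 / 2 : ℝ) ^ l ≤ 1 := by
  have h1 : ∑ l ∈ T, (1 / 2 : ℝ) ^ l ≤ ∑ l ∈ Finset.Ico 1 (T.sup id + 1), (1 / 2 : ℝ) ^ l := by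
    refine Finset.sum_le_sum_of_subset_of_nonneg (fun l hl => ?_) (fun _ _ _ => by positivity)
    rw [Finset.mem_Ico]
    have := Finset.le_sup (f := id) hl
    simp only [id] at this
    exact ⟨hT l hl, by omega⟩
  refine h1.trans ?_
  rw [Finset.sum_Ico_eq_sum_range]
  have h2 : ∀ N : ℕ, ∑ i ∈ Finset.range N, (1 / 2 : ℝ) ^ (1 + i) = 1 - (1 / 2) ^ N := by
    intro N
    induction N with
    | zero => simp
    | succ N ih => rw [Finset.sum_range_succ, ih]; ring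
  rw [h2]
  have : (0 : ℝ) ≤ (1 / 2) ^ (T.sup id + 1 - 1) := by positivity
  linarith

/-- harmonic sums over a dyadic range -/
lemma harm_even (b : ℕ) : ∑ l ∈ Finset.Ioc b (2 * b), 1 / (l : ℝ) ≤ Real.log 2 := by
  rcases Nat.eq_zero_or_pos b with rfl | hb
  · simp [Real.log_nonneg]
  have h1 : ∀ n : ℕ, b ≤ n → ∑ l ∈ Finset.Ioc b n, 1 / (l : ℝ) ≤ Real.log (n / b) := by
    intro n hn
    induction n, hn using Nat.le_induction with
    | base => simp
    | succ n hn ih =>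
      rw [Finset.sum_Ioc_succ_top (by omega)]
      have hn0 : (0 : ℝ) < n := by exact_mod_cast (by omega : 0 < n)
      have hb0 : (0 : ℝ) < b := by exact_mod_cast hb
      have e : ((n + 1 : ℕ) : ℝ) / b = (n / b) * (1 + 1 / n) := by
        push_cast; field_simp
      rw [e, Real.log_mul (by positivity) (by positivity)]
      have h2 : 1 / ((n + 1 : ℕ) : ℝ) ≤ Real.log (1 + 1 / n) := by
        have h3 := Real.one_sub_inv_le_log_of_pos (x := 1 + 1 / (n : ℝ)) (by positivity)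
        refine le_trans (le_of_eq ?_) h3
        push_cast
        field_simp
        ring
      linarith
  have h2 := h1 (2 * b) (by omega)
  have : (((2 * b : ℕ) : ℝ) / b) = 2 := by
    have hb0 : (b : ℝ) ≠ 0 := by positivity
    push_cast; field_simp
  rwa [this] at h2

lemma harm_le {B : ℕ} (hB : 1 ≤ B) :
    ∑ l ∈ Finset.Ioc (B / 2) B, 1 / (l : ℝ) ≤ Real.log 2 + 1 / B := by
  rcases Nat.even_or_odd B with h | h
  · obtain ⟨b, rfl⟩ := h
    have e1 : (b + b) / 2 = b := by omega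
    have e2 : b + b = 2 * b := by ring
    rw [e1, e2]
    have := harm_even b
    have h0 : (0 : ℝ) ≤ 1 / ((2 * b : ℕ) : ℝ) := by positivity
    linarith
  · obtain ⟨b, rfl⟩ := h
    have e1 : (2 * b + 1) / 2 = b := by omega
    rw [e1, Finset.sum_Ioc_succ_top (by omega)]
    have := harm_even b
    linarith

lemma filter_log_eq {n j : ℕ} :
    (Finset.Icc 1 n).filter (fun l => Nat.log 2 (n / l) = j ∧ 1 ≤ n / l) =
      Finset.Ioc (n / 2 ^ (j + 1)) (n / 2 ^ j) := by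
  ext l
  rw [Finset.mem_filter, Finset.mem_Icc, Finset.mem_Ioc]
  have hp1 : 0 < 2 ^ (j + 1) := by positivity
  have hp2 : 0 < 2 ^ j := by positivity
  constructor
  · rintro ⟨⟨h1, h2⟩, h3, h4⟩
    have h5 : n / l ≠ 0 := by omega
    have h6 : 2 ^ j ≤ n / l := by rw [← h3]; exact Nat.pow_log_le_self 2 h5
    have h7 : n / l < 2 ^ (j + 1) := by rw [← h3]; exact Nat.lt_pow_succ_log_self (by norm_num) _
    constructor
    · rw [Nat.div_lt_iff_lt_mul hp1]
      rw [Nat.div_lt_iff_lt_mul (by omega)] at h7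
      linarith
    · rw [Nat.le_div_iff_mul_le hp2]
      rw [Nat.le_div_iff_mul_le (by omega)] at h6
      linarith
  · rintro ⟨h1, h2⟩
    have hl : 1 ≤ l := Nat.one_le_iff_ne_zero.mpr (fun h => by rw [h] at h1; exact Nat.not_lt_zero _ h1)
    have hln : l ≤ n := h2.trans (Nat.div_le_self _ _)
    have h6 : 2 ^ j ≤ n / l := by
      rw [Nat.le_div_iff_mul_le (by omega)]
      rw [Nat.le_div_iff_mul_le hp2] at h2
      linarith
    have h7 : n / l < 2 ^ (j + 1) := by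
      rw [Nat.div_lt_iff_lt_mul (by omega)]
      rw [Nat.div_lt_iff_lt_mul hp1] at h1
      linarith
    exact ⟨⟨hl, hln⟩, Nat.log_eq_of_pow_le_of_lt_pow h6 h7, by omega⟩

/-- harmonic sum over the `l` with `⌊n / l⌋` in a given dyadic block -/
lemma Hj_le {n j : ℕ} (hn : 2 ^ j ≤ n) :
    ∑ l ∈ (Finset.Icc 1 n).filter (fun l => Nat.log 2 (n / l) = j ∧ 1 ≤ n / l), 1 / (l : ℝ)
      ≤ Real.log 2 + 2 ^ (j + 1) / n := by
  rw [filter_log_eq]
  have hp2 : 0 < 2 ^ j := by positivity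
  set B := n / 2 ^ j with hB
  have hB1 : 1 ≤ B := by rw [hB, Nat.one_le_div_iff hp2]; exact hn
  have e : n / 2 ^ (j + 1) = B / 2 := by rw [pow_succ, ← Nat.div_div_eq_div_mul]
  rw [e]
  refine (harm_le hB1).trans (add_le_add le_rfl ?_)
  have h1 : n < 2 ^ j * (B + 1) := by
    rw [hB]; exact Nat.lt_mul_div_succ n hp2
  have h2 : (n : ℝ) ≤ 2 ^ (j + 1) * B := by
    have : n ≤ 2 ^ (j + 1) * B := by
      calc n ≤ 2 ^ j * (B + 1) := h1.le
        _ ≤ 2 ^ j * (2 * B) := Nat.mul_le_mul_left _ (by omega)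
        _ = 2 ^ (j + 1) * B := by ring
    exact_mod_cast this
  have hB0 : (0 : ℝ) < B := by exact_mod_cast hB1
  have hn0 : (0 : ℝ) < n := by
    have : 0 < n := by omega
    exact_mod_cast this
  rw [div_le_div_iff₀ hB0 hn0]
  linarith

lemma Hj_zero {n j : ℕ} (hn : n < 2 ^ j) :
    ∑ l ∈ (Finset.Icc 1 n).filter (fun l => Nat.log 2 (n / l) = j ∧ 1 ≤ n / l), 1 / (l : ℝ) = 0 := by
  rw [filter_log_eq, Nat.div_eq_of_lt hn]
  simp

end Pool.Agent.helper306_cramer
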