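import Pool.Agent.helper306_cramer.Block

/-!
# Deterministic counts of windows
-/

namespace Pool.Agent.helper306_cramer

open Finset

/-- if all the windows starting at `a` with sum at most `x` have at most `M` elements then there are
at most `M` of them -/
lemma count_from_le {A : Finset ℕ} {a M x : ℕ}
    (h : ∀ b ∈ A, a ≤ b → ∑ m ∈ sg A a b, m ≤ x → (sg A a b).card ≤ M) :
    (A.filter (fun b => a ≤ b ∧ ∑ m ∈ sg A a b, m ≤ x)).card ≤ M := by
  have h1 : (A.filter (fun b => a ≤ b ∧ ∑ m ∈ sg A a b, m ≤ x)).card ≤ (Finset.Icc 1 M).card := by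
    refine Finset.card_le_card_of_injOn (fun b => (sg A a b).card) ?_ ?_
    · intro b hb
      rw [Finset.mem_coe, Finset.mem_filter] at hb
      rw [Finset.mem_coe, Finset.mem_Icc]
      refine ⟨?_, h b hb.1 hb.2.1 hb.2.2⟩
      exact Finset.card_pos.mpr ⟨b, mem_sg.mpr ⟨hb.1, hb.2.1, le_rfl⟩⟩
    · intro b hb b' hb' heq
      rw [Finset.mem_coe, Finset.mem_filter] at hb hb'
      simp only at heq
      rcases Nat.lt_trichotomy b b' with hlt | hlt | hlt
      · exfalso
        have : (sg A a b).card < (sg A a b').card := by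
          refine Finset.card_lt_card ?_
          rw [Finset.ssubset_iff_of_subset]
          · exact ⟨b', mem_sg.mpr ⟨hb'.1, hb'.2.1, le_rfl⟩, fun hh => by
              have := (mem_sg.mp hh).2.2; omega⟩
          · intro x hx
            rw [mem_sg] at hx ⊢
            exact ⟨hx.1, hx.2.1, by omega⟩
        omega
      · exact hlt
      · exfalso
        have : (sg A a b').card < (sg A a b).card := by
          refine Finset.card_lt_card ?_
          rw [Finset.ssubset_iff_of_subset]
          · exact ⟨b, mem_sg.mpr ⟨hb.1, hb.2.1, le_rfl⟩, fun hh => by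
              have := (mem_sg.mp hh).2.2; omega⟩
          · intro x hx
            rw [mem_sg] at hx ⊢
            exact ⟨hx.1, hx.2.1, by omega⟩
        omega
  rwa [Nat.card_Icc, Nat.add_sub_cancel] at h1

lemma card_mul_le_sum {A : Finset ℕ} (a b : ℕ) : (sg A a b).card * a ≤ ∑ m ∈ sg A a b, m := by
  have := Finset.card_nsmul_le_sum (sg A a b) (fun m => m) a (fun m hm => (mem_sg.mp hm).2.1)
  rwa [smul_eq_mul] at this

/-- at most `x / a` windows with sum at most `x` start at `a` -/
lemma count_from_le_div {A : Finset ℕ} {a x : ℕ} (ha : 1 ≤ a) :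
    (A.filter (fun b => a ≤ b ∧ ∑ m ∈ sg A a b, m ≤ x)).card ≤ x / a := by
  refine count_from_le (fun b _ _ hs => ?_)
  rw [Nat.le_div_iff_mul_le ha]
  exact (card_mul_le_sum a b).trans hs

lemma card_sq_le_sum {B : Finset ℕ} (hpos : ∀ m ∈ B, 1 ≤ m) : B.card * B.card ≤ 2 * ∑ m ∈ B, m := by
  have h : ∀ k : ℕ, ∀ B : Finset ℕ, B.card = k → (∀ m ∈ B, 1 ≤ m) → k * (k + 1) ≤ 2 * ∑ m ∈ B, m := by
    intro k
    induction k with
    | zero => intro B _ _; simp
    | succ k ih =>
      intro B hB hp
      have hne : B.Nonempty := Finset.card_pos.mp (by omega)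
      set M := B.max' hne with hM
      have hMB : M ∈ B := Finset.max'_mem _ _
      have hsub : B ⊆ Finset.Icc 1 M := by
        intro x hx
        rw [Finset.mem_Icc]
        exact ⟨hp x hx, Finset.le_max' _ _ hx⟩
      have hcard := Finset.card_le_card hsub
      rw [Nat.card_Icc, hB] at hcard
      have h1 := ih (B.erase M) (by rw [Finset.card_erase_of_mem hMB, hB]; rfl)
        (fun m hm => hp m (Finset.mem_of_mem_erase hm))
      have h2 := Finset.add_sum_erase B (fun m => m) hMB
      rw [← h2]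
      have : (k + 1) * (k + 1 + 1) = k * (k + 1) + 2 * (k + 1) := by ring
      omega
  have := h B.card B rfl hpos
  nlinarith

/-- the number of windows with sum in `[1, x]` -/
lemma sum_cnt_eq (A : Finset ℕ) (x : ℕ) : ∑ n ∈ Finset.Icc 1 x, cnt A n
    = ((Wn A).filter (fun ab => 1 ≤ ∑ m ∈ sg A ab.1 ab.2, m ∧ ∑ m ∈ sg A ab.1 ab.2, m ≤ x)).card := by
  classical
  unfold cnt
  rw [← Finset.card_biUnion]
  · congr 1
    ext ab
    simp only [Finset.mem_biUnion, Finset.mem_Icc, Finset.mem_filter]
    constructor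
    · rintro ⟨n, hn, h1, h2⟩; exact ⟨h1, by omega, by omega⟩
    · rintro ⟨h1, h2, h3⟩; exact ⟨_, ⟨h2, h3⟩, h1, rfl⟩
  · intro n _ n' _ hne
    rw [Function.onFun, Finset.disjoint_left]
    intro ab h1 h2
    rw [Finset.mem_filter] at h1 h2
    exact hne (h1.2.symm.trans h2.2)

/-- upper bound for the number of windows in a block -/
lemma sum_cnt_le {y L x : ℕ} (hy : 1 ≤ y) {A : Finset ℕ} (hA : A ⊆ Finset.Ico y (y + L)) :
    ∑ n ∈ Finset.Icc 1 x, cnt A n ≤ L * (x / y) := by
  classical
  rw [sum_cnt_eq]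
  have h1 : ((Wn A).filter (fun ab => 1 ≤ ∑ m ∈ sg A ab.1 ab.2, m ∧ ∑ m ∈ sg A ab.1 ab.2, m ≤ x))
      ⊆ A.biUnion (fun a => (A.filter (fun b => a ≤ b ∧ ∑ m ∈ sg A a b, m ≤ x)).image
        (fun b => (a, b))) := by
    rintro ⟨a, b⟩ hab
    simp only [Wn, Finset.mem_filter, Finset.mem_product] at hab
    simp only [Finset.mem_biUnion, Finset.mem_image, Finset.mem_filter]
    exact ⟨a, hab.1.1.1, b, ⟨hab.1.1.2, hab.1.2, hab.2.2⟩, rfl⟩
  refine (Finset.card_le_card h1).trans (Finset.card_biUnion_le.trans ?_)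
  have h2 : ∀ a ∈ A, ((A.filter (fun b => a ≤ b ∧ ∑ m ∈ sg A a b, m ≤ x)).image
      (fun b => (a, b))).card ≤ x / y := by
    intro a ha
    have hya : y ≤ a := (Finset.mem_Ico.mp (hA ha)).1
    refine Finset.card_image_le.trans ((count_from_le_div (by omega)).trans ?_)
    exact Nat.div_le_div_left hya hy
  refine (Finset.sum_le_sum h2).trans ?_
  rw [Finset.sum_const, smul_eq_mul]
  refine Nat.mul_le_mul_right _ ?_
  have := Finset.card_le_card hA
  rwa [Nat.card_Ico, Nat.add_sub_cancel_left] at this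

/-- there are many windows with at most `K` elements -/
lemma windows_ge (A : Finset ℕ) (K : ℕ) :
    K * A.card ≤ ((Wn A).filter (fun ab => (sg A ab.1 ab.2).card ≤ K)).card + K * K := by
  classical
  set N := A.card with hN
  set e := A.orderEmbOfFin hN.symm with he
  have hemem : ∀ i, e i ∈ A := fun i => Finset.orderEmbOfFin_mem A hN.symm i
  set Pr : Finset (Fin N × ℕ) := (Finset.univ ×ˢ Finset.range K).filter
    (fun q => (q.1 : ℕ) + q.2 < N) with hPr
  have h1 : Pr.card ≤ ((Wn A).filter (fun ab => (sg A ab.1 ab.2).card ≤ K)).card := by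
    refine Finset.card_le_card_of_injOn
      (fun q => if h : (q.1 : ℕ) + q.2 < N then (e q.1, e ⟨(q.1 : ℕ) + q.2, h⟩) else (0, 0)) ?_ ?_
    · rintro ⟨i, s⟩ hq
      rw [Finset.mem_coe, hPr, Finset.mem_filter, Finset.mem_product, Finset.mem_range] at hq
      simp only at hq
      have hlt := hq.2
      simp only [dif_pos hlt]
      rw [Finset.mem_coe, Finset.mem_filter]
      have hle : i ≤ (⟨(i : ℕ) + s, hlt⟩ : Fin N) := by rw [Fin.le_def]; simp
      refine ⟨?_, ?_⟩
      · simp only [Wn, Finset.mem_filter, Finset.mem_product]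
        exact ⟨⟨hemem _, hemem _⟩, e.monotone hle⟩
      · simp only
        have hsub : sg A (e i) (e ⟨(i : ℕ) + s, hlt⟩) ⊆
            (Finset.Icc i (⟨(i : ℕ) + s, hlt⟩ : Fin N)).image e := by
          intro x hx
          rw [mem_sg] at hx
          have hr := Finset.range_orderEmbOfFin A hN.symm
          have hx' : x ∈ Set.range e := by rw [he, hr]; exact hx.1
          obtain ⟨j, rfl⟩ := hx'
          rw [Finset.mem_image]
          refine ⟨j, ?_, rfl⟩
          rw [Finset.mem_Icc]
          exact ⟨e.le_iff_le.mp hx.2.1, e.le_iff_le.mp hx.2.2⟩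
        refine (Finset.card_le_card hsub).trans (Finset.card_image_le.trans ?_)
        rw [Fin.card_Icc]
        simp only
        omega
    · rintro ⟨i, s⟩ hq ⟨i', s'⟩ hq' heq
      rw [Finset.mem_coe, hPr, Finset.mem_filter] at hq hq'
      simp only at hq hq' heq
      rw [dif_pos hq.2, dif_pos hq'.2, Prod.mk.injEq] at heq
      have hii := e.injective heq.1
      subst hii
      have h2 := e.injective heq.2
      rw [Fin.mk.injEq] at h2
      rw [Prod.mk.injEq]
      exact ⟨rfl, by omega⟩
  have h2 : K * N ≤ Pr.card + K * K := by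
    have hcard : Pr.card = ∑ s ∈ Finset.range K, (N - s) := by
      rw [hPr, Finset.card_filter, Finset.sum_product_right]
      refine Finset.sum_congr rfl (fun s _ => ?_)
      rw [← Finset.card_filter]
      have : (Finset.univ.filter (fun i : Fin N => (i : ℕ) + s < N)).card
          = (Finset.range (N - s)).card := by
        refine Finset.card_bij (fun i _ => (i : ℕ)) ?_ ?_ ?_
        · intro i hi
          rw [Finset.mem_filter] at hi
          rw [Finset.mem_range]; omega
        · intro i _ i' _ h; exact Fin.ext h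
        · intro j hj
          rw [Finset.mem_range] at hj
          exact ⟨⟨j, by omega⟩, by rw [Finset.mem_filter]; exact ⟨Finset.mem_univ _, by simp only; omega⟩, rfl⟩
      rw [this, Finset.card_range]
    rw [hcard]
    have h3 : ∑ s ∈ Finset.range K, N ≤ ∑ s ∈ Finset.range K, ((N - s) + K) := by
      refine Finset.sum_le_sum (fun s hs => ?_)
      rw [Finset.mem_range] at hs
      omega
    rw [Finset.sum_add_distrib, Finset.sum_const, Finset.sum_const, Finset.card_range,
      smul_eq_mul, smul_eq_mul] at h3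
    exact h3
  omega

/-- lower bound for the number of windows in a block -/
lemma le_sum_cnt {y L x : ℕ} (hy : 1 ≤ y) {A : Finset ℕ} (hA : A ⊆ Finset.Ico y (y + L)) :
    (x / (y + L)) * A.card ≤ ∑ n ∈ Finset.Icc 1 x, cnt A n + (x / (y + L)) * (x / (y + L)) := by
  classical
  set K := x / (y + L) with hK
  refine (windows_ge A K).trans ?_
  rw [sum_cnt_eq]
  refine Nat.add_le_add_right (Finset.card_le_card ?_) _
  intro ab hab
  rw [Finset.mem_filter] at hab ⊢
  obtain ⟨h1, h2⟩ := hab
  have h1' := h1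
  simp only [Wn, Finset.mem_filter, Finset.mem_product] at h1'
  refine ⟨h1, ?_, ?_⟩
  · have hmem : ab.1 ∈ sg A ab.1 ab.2 := mem_sg.mpr ⟨h1'.1.1, le_rfl, h1'.2⟩
    have h3 := Finset.single_le_sum (f := fun m => m) (fun m _ => Nat.zero_le m) hmem
    have h4 := (Finset.mem_Ico.mp (hA h1'.1.1)).1
    omega
  · have h3 : ∑ m ∈ sg A ab.1 ab.2, m ≤ (sg A ab.1 ab.2).card * (y + L) := by
      have := Finset.sum_le_card_nsmul (sg A ab.1 ab.2) (fun m => m) (y + L) (fun m hm => by
        have := Finset.mem_Ico.mp (hA (mem_sg.mp hm).1); omega)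
      rwa [smul_eq_mul] at this
    refine h3.trans ((Nat.mul_le_mul_right _ h2).trans ?_)
    rw [hK]
    exact Nat.div_mul_le_self x (y + L)

end Pool.Agent.helper306_cramer
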