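import Pool.Agent.helper306_cramer.Asym

/-!
# The windows outside the blocks: deterministic estimates
-/

namespace Pool.Agent.helper306_cramer

open Finset Filter Topology

/-- windows with sum `n` that do not lie inside one block -/
noncomputable def rest (e J L : ℕ) (A : Finset ℕ) (n : ℕ) : ℕ := by
  classical
  exact ((Wsum A n).filter (fun ab => ¬ ∃ s ∈ SS e J L, ab.1 ∈ Ib e s ∧ ab.2 ∈ Ib e s)).card

lemma Wsum_inter {y L : ℕ} (A : Finset ℕ) (n : ℕ) :
    Wsum (A ∩ Finset.Ico y (y + L)) n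
      = (Wsum A n).filter (fun ab => ab.1 ∈ Finset.Ico y (y + L) ∧ ab.2 ∈ Finset.Ico y (y + L)) := by
  ext ab
  rw [Finset.mem_filter, mem_Wsum, mem_Wsum, Finset.mem_inter, Finset.mem_inter]
  constructor
  · rintro ⟨h1, h2, h3, h4⟩
    have hs : sg (A ∩ Finset.Ico y (y + L)) ab.1 ab.2 = sg A ab.1 ab.2 := by
      unfold sg
      rw [Finset.inter_assoc, Finset.inter_eq_right.mpr (Icc_sub h1.2 h2.2)]
    rw [hs] at h4
    exact ⟨⟨h1.1, h2.1, h3, h4⟩, h1.2, h2.2⟩
  · rintro ⟨⟨h1, h2, h3, h4⟩, h5, h6⟩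
    have hs : sg (A ∩ Finset.Ico y (y + L)) ab.1 ab.2 = sg A ab.1 ab.2 := by
      unfold sg
      rw [Finset.inter_assoc, Finset.inter_eq_right.mpr (Icc_sub h5 h6)]
    rw [hs]
    exact ⟨⟨h1, h5⟩, ⟨h2, h6⟩, h3, h4⟩

lemma cnt_eq_add_rest {e J L : ℕ} (he : e ≤ J) (A : Finset ℕ) (n : ℕ) :
    cnt A n = FS (SS e J L) (Ib e) n A + rest e J L A n := by
  classical
  unfold rest
  have h1 : FS (SS e J L) (Ib e) n A
      = ((Wsum A n).filter (fun ab => ∃ s ∈ SS e J L, ab.1 ∈ Ib e s ∧ ab.2 ∈ Ib e s)).card := by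
    unfold FS
    have h2 : ∀ s ∈ SS e J L, cnt (A ∩ Ib e s) n
        = ((Wsum A n).filter (fun ab => ab.1 ∈ Ib e s ∧ ab.2 ∈ Ib e s)).card := by
      intro s _
      rw [← card_Wsum]
      exact congrArg _ (Wsum_inter A n)
    rw [Finset.sum_congr rfl h2, ← Finset.card_biUnion]
    · congr 1
      ext ab
      simp only [Finset.mem_biUnion, Finset.mem_filter]
      constructor
      · rintro ⟨s, hs, h3, h4⟩; exact ⟨h3, s, hs, h4⟩
      · rintro ⟨h3, s, hs, h4⟩; exact ⟨s, hs, h3, h4⟩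
    · intro s hs s' hs' hne
      rw [Function.onFun, Finset.disjoint_left]
      intro ab h3 h4
      rw [Finset.mem_filter] at h3 h4
      exact hne (block_unique he hs hs' h3.2.1 h4.2.1)
  rw [h1, ← card_Wsum]
  exact (Finset.card_filter_add_card_filter_not _).symm

/-- the bad windows with sum at most `x` -/
noncomputable def badW (e J L : ℕ) (A : Finset ℕ) (x : ℕ) : Finset (ℕ × ℕ) := by
  classical
  exact (Wn A).filter (fun ab => ∑ m ∈ sg A ab.1 ab.2, m ≤ x ∧
    ¬ ∃ s ∈ SS e J L, ab.1 ∈ Ib e s ∧ ab.2 ∈ Ib e s)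

lemma sum_rest_le (e J L : ℕ) (A : Finset ℕ) (x : ℕ) :
    ∑ n ∈ Finset.Icc 1 x, rest e J L A n ≤ (badW e J L A x).card := by
  classical
  unfold rest badW
  rw [← Finset.card_biUnion]
  · refine Finset.card_le_card ?_
    intro ab hab
    simp only [Finset.mem_biUnion, Finset.mem_filter, Finset.mem_Icc] at hab
    obtain ⟨n, hn, h1, h2⟩ := hab
    unfold Wsum at h1
    rw [Finset.mem_filter] at h1
    rw [Finset.mem_filter]
    exact ⟨h1.1, by omega, h2⟩
  · intro n _ n' _ hne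
    rw [Function.onFun, Finset.disjoint_left]
    intro ab h1 h2
    rw [Finset.mem_filter] at h1 h2
    unfold Wsum at h1 h2
    rw [Finset.mem_filter] at h1 h2
    exact hne (h1.1.2.symm.trans h2.1.2)

lemma XS_close {e J L : ℕ} (he : e ≤ J) (A : Finset ℕ) (x : ℕ) {z : ℝ} (hz0 : 0 ≤ z)
    (hz1 : z ≤ 1) :
    |∑ n ∈ Finset.Icc 1 x, z ^ (cnt A n) - XS e J L x z A| ≤ (badW e J L A x).card := by
  unfold XS
  rw [← Finset.sum_sub_distrib]
  have h1 : ∀ n ∈ Finset.Icc 1 x, |z ^ (cnt A n) - z ^ (FS (SS e J L) (Ib e) n A)|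
      ≤ (rest e J L A n : ℝ) := by
    intro n _
    rw [cnt_eq_add_rest he A n, pow_add]
    set F := FS (SS e J L) (Ib e) n A
    set r := rest e J L A n
    have e1 : z ^ F * z ^ r - z ^ F = -(z ^ F * (1 - z ^ r)) := by ring
    have h2 := (pow_bonf hz0 hz1 r).1
    have h3 : z ^ r ≤ 1 := pow_le_one₀ hz0 hz1
    have h4 : z ^ F ≤ 1 := pow_le_one₀ hz0 hz1
    have h5 : 0 ≤ z ^ F := pow_nonneg hz0 _
    have h6 : (0 : ℝ) ≤ r := Nat.cast_nonneg r
    rw [e1, abs_neg, abs_of_nonneg (mul_nonneg h5 (by linarith))]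
    have h7 : 1 - z ^ r ≤ r := by nlinarith
    calc z ^ F * (1 - z ^ r) ≤ 1 * (1 - z ^ r) := mul_le_mul_of_nonneg_right h4 (by linarith)
      _ ≤ r := by linarith
  refine (Finset.abs_sum_le_sum_abs _ _).trans ((Finset.sum_le_sum h1).trans ?_)
  exact_mod_cast sum_rest_le e J L A x

/-- windows through a given point -/
lemma through_le {A : Finset ℕ} {J x β : ℕ} :
    ((Wn A).filter (fun ab => 2 ^ J ≤ ab.1 ∧ ab.1 < β ∧ β ≤ ab.2 ∧
      ∑ m ∈ sg A ab.1 ab.2, m ≤ x)).card ≤ (x / 2 ^ J) * (x / 2 ^ J) := by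
  set K := x / 2 ^ J with hK
  have hcardle : ∀ a b, 2 ^ J ≤ a → ∑ m ∈ sg A a b, m ≤ x → (sg A a b).card ≤ K := by
    intro a b ha hs
    rw [hK, Nat.le_div_iff_mul_le (by positivity)]
    exact (Nat.mul_le_mul_left _ ha).trans ((card_mul_le_sum a b).trans hs)
  have h1 : ((Wn A).filter (fun ab => 2 ^ J ≤ ab.1 ∧ ab.1 < β ∧ β ≤ ab.2 ∧
      ∑ m ∈ sg A ab.1 ab.2, m ≤ x)).card ≤ ((Finset.Icc 1 K) ×ˢ (Finset.Icc 1 K)).card := by
    refine Finset.card_le_card_of_injOn
      (fun ab => ((A ∩ Finset.Ico ab.1 β).card, (sg A β ab.2).card)) ?_ ?_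
    · rintro ⟨a, b⟩ hab
      rw [Finset.mem_coe, Finset.mem_filter] at hab
      simp only [Wn, Finset.mem_filter, Finset.mem_product] at hab
      obtain ⟨⟨⟨ha, hb⟩, hle⟩, h2, h3, h4, h5⟩ := hab
      have hc := hcardle a b h2 h5
      rw [Finset.mem_coe, Finset.mem_product, Finset.mem_Icc, Finset.mem_Icc]
      refine ⟨⟨?_, ?_⟩, ?_, ?_⟩
      · exact Finset.card_pos.mpr ⟨a, by
          rw [Finset.mem_inter, Finset.mem_Ico]; exact ⟨ha, le_rfl, h3⟩⟩
      · refine (Finset.card_le_card ?_).trans hc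
        intro z hz
        rw [Finset.mem_inter, Finset.mem_Ico] at hz
        exact mem_sg.mpr ⟨hz.1, hz.2.1, by omega⟩
      · exact Finset.card_pos.mpr ⟨b, mem_sg.mpr ⟨hb, h4, le_rfl⟩⟩
      · refine (Finset.card_le_card ?_).trans hc
        intro z hz
        rw [mem_sg] at hz
        exact mem_sg.mpr ⟨hz.1, by omega, hz.2.2⟩
    · rintro ⟨a, b⟩ hab ⟨a', b'⟩ hab' heq
      rw [Finset.mem_coe, Finset.mem_filter] at hab hab'
      simp only [Wn, Finset.mem_filter, Finset.mem_product] at hab hab'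
      obtain ⟨⟨⟨ha, hb⟩, hle⟩, h2, h3, h4, h5⟩ := hab
      obtain ⟨⟨⟨ha', hb'⟩, hle'⟩, h2', h3', h4', h5'⟩ := hab'
      simp only [Prod.mk.injEq] at heq
      have key1 : ∀ u v, u ∈ A → v ∈ A → u < v → v < β →
          (A ∩ Finset.Ico v β).card < (A ∩ Finset.Ico u β).card := by
        intro u v hu hv huv hvb
        refine Finset.card_lt_card ?_
        rw [Finset.ssubset_iff_of_subset]
        · refine ⟨u, ?_, ?_⟩
          · rw [Finset.mem_inter, Finset.mem_Ico]; exact ⟨hu, le_rfl, by omega⟩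
          · rw [Finset.mem_inter, Finset.mem_Ico]; rintro ⟨_, h, _⟩; omega
        · intro z hz
          rw [Finset.mem_inter, Finset.mem_Ico] at hz ⊢
          exact ⟨hz.1, by omega, hz.2.2⟩
      have key2 : ∀ u v, u ∈ A → v ∈ A → u < v → β ≤ u →
          (sg A β u).card < (sg A β v).card := by
        intro u v hu hv huv hvb
        refine Finset.card_lt_card ?_
        rw [Finset.ssubset_iff_of_subset]
        · refine ⟨v, mem_sg.mpr ⟨hv, by omega, le_rfl⟩, ?_⟩
          rw [mem_sg]; rintro ⟨_, _, h⟩; omega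
        · intro z hz
          rw [mem_sg] at hz ⊢
          exact ⟨hz.1, hz.2.1, by omega⟩
      have ea : a = a' := by
        rcases Nat.lt_trichotomy a a' with h | h | h
        · have := key1 a a' ha ha' h h3'; omega
        · exact h
        · have := key1 a' a ha' ha h h3; omega
      have eb : b = b' := by
        rcases Nat.lt_trichotomy b b' with h | h | h
        · have := key2 b b' hb hb' h h4; omega
        · exact h
        · have := key2 b' b hb' hb h h4'; omega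
      rw [ea, eb]
  rwa [Finset.card_product, Nat.card_Icc, Nat.add_sub_cancel] at h1

/-- the bad windows -/
lemma badW_le {e J L x : ℕ} (he : e ≤ J) (hx : x < 2 ^ (L + 1)) {A : Finset ℕ}
    (hA : A ⊆ Finset.Icc 1 x) :
    (badW e J L A x).card ≤
      ∑ a ∈ A.filter (fun a => a < 2 ^ J), (A.filter (fun b => a ≤ b ∧ ∑ m ∈ sg A a b, m ≤ x)).card
      + (SS e J L).card * ((x / 2 ^ J) * (x / 2 ^ J)) := by
  classical
  have h1 : badW e J L A x ⊆
      ((A.filter (fun a => a < 2 ^ J)).biUnion (fun a =>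
        (A.filter (fun b => a ≤ b ∧ ∑ m ∈ sg A a b, m ≤ x)).image (fun b => (a, b)))) ∪
      ((SS e J L).biUnion (fun s => (Wn A).filter (fun ab => 2 ^ J ≤ ab.1 ∧ ab.1 < yb e s ∧
        yb e s ≤ ab.2 ∧ ∑ m ∈ sg A ab.1 ab.2, m ≤ x))) := by
    rintro ⟨a, b⟩ hab
    unfold badW at hab
    rw [Finset.mem_filter] at hab
    obtain ⟨hW, hs, hbad⟩ := hab
    have hW' := hW
    simp only [Wn, Finset.mem_filter, Finset.mem_product] at hW'
    obtain ⟨⟨ha, hb⟩, hle⟩ := hW'
    rw [Finset.mem_union]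
    rcases Nat.lt_or_ge a (2 ^ J) with h | h
    · left
      simp only [Finset.mem_biUnion, Finset.mem_image, Finset.mem_filter]
      exact ⟨a, ⟨ha, h⟩, b, ⟨hb, hle, hs⟩, rfl⟩
    · right
      have hbx : b ≤ x := (Finset.mem_Icc.mp (hA hb)).2
      obtain ⟨s, hs1, hs2⟩ := exists_block (e := e) (L := L) he (m := b) (by omega) (by omega)
      simp only [Finset.mem_biUnion, Finset.mem_filter]
      refine ⟨s, hs1, hW, h, ?_, ?_, hs⟩
      · by_contra hcon
        push Not at hcon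
        apply hbad
        refine ⟨s, hs1, ?_, hs2⟩
        unfold Ib at hs2 ⊢
        rw [Finset.mem_Ico] at hs2 ⊢
        simp only at hs2 hcon ⊢
        omega
      · unfold Ib at hs2
        rw [Finset.mem_Ico] at hs2
        exact hs2.1
  refine (Finset.card_le_card h1).trans ((Finset.card_union_le _ _).trans (add_le_add ?_ ?_))
  · exact Finset.card_biUnion_le.trans (Finset.sum_le_sum (fun a _ => Finset.card_image_le))
  · refine Finset.card_biUnion_le.trans ((Finset.sum_le_sum (fun s _ => through_le)).trans ?_)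
    rw [Finset.sum_const, smul_eq_mul]

/-- windows starting below `2 ^ J` -/
lemma low_le {J J1 L x : ℕ} (hx : x < 2 ^ (L + 1)) {A : Finset ℕ}
    (hA : A ⊆ Finset.Icc 1 x) :
    ∑ a ∈ A.filter (fun a => a < 2 ^ J), (A.filter (fun b => a ≤ b ∧ ∑ m ∈ sg A a b, m ≤ x)).card
      ≤ 2 ^ J1 * 2 ^ ((L + 3) / 2)
        + ∑ j ∈ Finset.Ico J1 J, (A ∩ Finset.Ico (2 ^ j) (2 ^ (j + 1))).card * (x / 2 ^ j) := by
  classical
  set φ : ℕ → ℕ := fun a => (A.filter (fun b => a ≤ b ∧ ∑ m ∈ sg A a b, m ≤ x)).card with hφ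
  have h1 : A.filter (fun a => a < 2 ^ J) ⊆ (A.filter (fun a => a < 2 ^ J1)) ∪
      (Finset.Ico J1 J).biUnion (fun j => A ∩ Finset.Ico (2 ^ j) (2 ^ (j + 1))) := by
    intro a ha
    rw [Finset.mem_filter] at ha
    rw [Finset.mem_union, Finset.mem_filter, Finset.mem_biUnion]
    rcases Nat.lt_or_ge a (2 ^ J1) with h | h
    · exact Or.inl ⟨ha.1, h⟩
    · right
      have ha0 : a ≠ 0 := by have : 0 < 2 ^ J1 := by positivity
                             omega
      refine ⟨Nat.log 2 a, ?_, ?_⟩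
      · rw [Finset.mem_Ico]
        exact ⟨Nat.le_log_of_pow_le (by norm_num) h, Nat.log_lt_of_lt_pow ha0 ha.2⟩
      · rw [Finset.mem_inter, Finset.mem_Ico]
        exact ⟨ha.1, Nat.pow_log_le_self 2 ha0, Nat.lt_pow_succ_log_self (by norm_num) a⟩
  have h2 : ∑ a ∈ A.filter (fun a => a < 2 ^ J), φ a ≤
      ∑ a ∈ A.filter (fun a => a < 2 ^ J1), φ a
      + ∑ a ∈ (Finset.Ico J1 J).biUnion (fun j => A ∩ Finset.Ico (2 ^ j) (2 ^ (j + 1))), φ a := by
    refine (Finset.sum_le_sum_of_subset h1).trans ?_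
    have := Finset.sum_union_inter (s₁ := A.filter (fun a => a < 2 ^ J1))
      (s₂ := (Finset.Ico J1 J).biUnion (fun j => A ∩ Finset.Ico (2 ^ j) (2 ^ (j + 1)))) (f := φ)
    omega
  refine h2.trans (add_le_add ?_ ?_)
  · have h3 : ∀ a ∈ A.filter (fun a => a < 2 ^ J1), φ a ≤ 2 ^ ((L + 3) / 2) := by
      intro a _
      rw [hφ]
      refine count_from_le (fun b _ _ hs => ?_)
      have hsq := card_sq_le_sum (B := sg A a b) (fun m hm => by
        have := Finset.mem_Icc.mp (hA (mem_sg.mp hm).1); omega)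
      by_contra hcon
      push Not at hcon
      have h4 : 2 ^ ((L + 3) / 2) * 2 ^ ((L + 3) / 2) < (sg A a b).card * (sg A a b).card :=
        Nat.mul_lt_mul'' hcon hcon
      have h5 : 2 ^ (L + 2) ≤ 2 ^ ((L + 3) / 2) * 2 ^ ((L + 3) / 2) := by
        rw [← pow_add]
        exact Nat.pow_le_pow_right (by norm_num) (by omega)
      have h6 : 2 ^ (L + 2) = 2 * 2 ^ (L + 1) := by rw [pow_succ]; ring
      omega
    refine (Finset.sum_le_sum h3).trans ?_
    rw [Finset.sum_const, smul_eq_mul]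
    refine Nat.mul_le_mul_right _ ?_
    have : A.filter (fun a => a < 2 ^ J1) ⊆ Finset.Ico 1 (2 ^ J1 + 1) := by
      intro a ha
      rw [Finset.mem_filter] at ha
      have := Finset.mem_Icc.mp (hA ha.1)
      rw [Finset.mem_Ico]; omega
    have h7 := Finset.card_le_card this
    rwa [Nat.card_Ico, Nat.add_sub_cancel] at h7
  · rw [Finset.sum_biUnion]
    swap
    · intro j _ j' _ hne
      rw [Function.onFun, Finset.disjoint_left]
      intro a h3 h4
      rw [Finset.mem_inter, Finset.mem_Ico] at h3 h4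
      have e1 := Nat.log_eq_of_pow_le_of_lt_pow h3.2.1 h3.2.2
      have e2 := Nat.log_eq_of_pow_le_of_lt_pow h4.2.1 h4.2.2
      exact hne (e1.symm.trans e2)
    refine Finset.sum_le_sum (fun j _ => ?_)
    have h3 : ∀ a ∈ A ∩ Finset.Ico (2 ^ j) (2 ^ (j + 1)), φ a ≤ x / 2 ^ j := by
      intro a ha
      rw [Finset.mem_inter, Finset.mem_Ico] at ha
      have hp : 0 < 2 ^ j := by positivity
      rw [hφ]
      refine (count_from_le_div (by omega)).trans ?_
      exact Nat.div_le_div_left ha.2.1 hp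
    refine (Finset.sum_le_sum h3).trans ?_
    rw [Finset.sum_const, smul_eq_mul]

end Pool.Agent.helper306_cramer
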