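import Pool.Agent.helper306_cramer.Deter

/-!
# The windows outside the blocks are few, for a set with the right number of elements
-/

namespace Pool.Agent.helper306_cramer

open Finset Filter Topology

/-- the elements of `R` in `[1, x]` -/
noncomputable def RA (R : Set ℕ) (x : ℕ) : Finset ℕ := by
  classical
  exact (Finset.Icc 1 x).filter (fun m => m ∈ R)

/-- the elements of `R` in a dyadic interval -/
noncomputable def RB (R : Set ℕ) (j : ℕ) : Finset ℕ := by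
  classical
  exact (Finset.Ico (2 ^ j) (2 ^ (j + 1))).filter (fun m => m ∈ R)

lemma mem_RA {R : Set ℕ} {x m : ℕ} : m ∈ RA R x ↔ (1 ≤ m ∧ m ≤ x) ∧ m ∈ R := by
  classical
  unfold RA; rw [Finset.mem_filter, Finset.mem_Icc]

lemma mem_RB {R : Set ℕ} {j m : ℕ} : m ∈ RB R j ↔ (2 ^ j ≤ m ∧ m < 2 ^ (j + 1)) ∧ m ∈ R := by
  classical
  unfold RB; rw [Finset.mem_filter, Finset.mem_Ico]

lemma RA_sub (R : Set ℕ) (x : ℕ) : RA R x ⊆ Finset.Icc 1 x := by
  intro m hm; rw [Finset.mem_Icc]; exact (mem_RA.mp hm).1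

theorem deter_bound {q : ℕ} (hq : 8 ≤ q) {R : Set ℕ} {j0 : ℕ}
    (hR : ∀ j, j0 ≤ j → ((RB R j).card : ℝ) ≤ 8 * 2 ^ j / j) :
    ∃ N : ℕ, ∀ x : ℕ, 2 ^ N ≤ x → ∀ z : ℝ, 0 ≤ z → z ≤ 1 →
      |∑ n ∈ Finset.Icc 1 x, z ^ (cnt (RA R x) n)
        - XS (eL q (Nat.log 2 x)) (JL q (Nat.log 2 x)) (Nat.log 2 x) x z (RA R x)|
      ≤ x * (98 / q) := by
  have hq0 : (0 : ℝ) < q := by exact_mod_cast (by omega : 0 < q)
  have hT2 : Tendsto (fun L : ℕ => (36 * (q : ℝ) ^ 2) / (2 : ℝ) ^ (2 * (L / q))) atTop (𝓝 0) := by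
    refine Tendsto.div_atTop tendsto_const_nhds ?_
    refine (tendsto_pow_atTop_atTop_of_one_lt (by norm_num : (1 : ℝ) < 2)).comp ?_
    refine tendsto_atTop_mono (fun L => ?_) (tendsto_div_atTop (q := q) (by omega))
    omega
  have hδ0 : (0 : ℝ) < 1 / (2 * q) := by positivity
  have hC : ∀ᶠ L : ℕ in atTop, (36 * (q : ℝ) ^ 2) / (2 : ℝ) ^ (2 * (L / q)) < 1 / (2 * q) :=
    hT2.eventually (gt_mem_nhds hδ0)
  have hT3 : Tendsto (fun L : ℕ => (2 : ℝ) / (2 : ℝ) ^ (L / q)) atTop (𝓝 0) := by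
    refine Tendsto.div_atTop tendsto_const_nhds ?_
    exact (tendsto_pow_atTop_atTop_of_one_lt (by norm_num : (1 : ℝ) < 2)).comp
      (tendsto_div_atTop (q := q) (by omega))
  have hD : ∀ᶠ L : ℕ in atTop, (2 : ℝ) / (2 : ℝ) ^ (L / q) < 1 / (2 * q) :=
    hT3.eventually (gt_mem_nhds hδ0)
  obtain ⟨N1, hN1⟩ := ((hC.and hD).and
    ((eventually_ge_atTop (4 * j0 + 8)).and (eventually_ge_atTop (64 * q)))).exists_forall_of_atTop
  refine ⟨N1, fun x hx z hz0 hz1 => ?_⟩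
  set L := Nat.log 2 x with hLdef
  have hx0 : x ≠ 0 := by
    have : 0 < 2 ^ N1 := by positivity
    omega
  have hNL : N1 ≤ L := Nat.le_log_of_pow_le (by norm_num) hx
  obtain ⟨⟨a1, a2⟩, a3, a4⟩ := hN1 L hNL
  have hxL : 2 ^ L ≤ x := Nat.pow_log_le_self 2 hx0
  have hxU : x < 2 ^ (L + 1) := Nat.lt_pow_succ_log_self (by norm_num) x
  have hx0' : (0 : ℝ) < x := by exact_mod_cast Nat.pos_of_ne_zero hx0
  set e := L / q with he
  set J := JL q L with hJ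
  have he8 : e ≤ L / 8 := Nat.div_le_div_left hq (by norm_num)
  set J1 := L / 2 - e with hJ1
  have hJ1L : L ≤ 4 * J1 := by omega
  have hJJ1 : J - J1 ≤ 3 * e + 2 := by rw [hJ]; unfold JL; omega
  refine (XS_close (eL_le_JL q L) (RA R x) x hz0 hz1).trans ?_
  have hb := badW_le (eL_le_JL q L) hxU (RA_sub R x)
  have hl := low_le (J := J) (J1 := J1) hxU (RA_sub R x)
  rw [← hJ] at hb
  have hb2 : ((badW (eL q L) J L (RA R x) x).card : ℝ) ≤
      (2 ^ J1 * 2 ^ ((L + 3) / 2) + ∑ j ∈ Finset.Ico J1 J,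
        ((RA R x ∩ Finset.Ico (2 ^ j) (2 ^ (j + 1))).card : ℝ) * ((x / 2 ^ j : ℕ) : ℝ))
      + ((SS (eL q L) J L).card : ℝ) * (((x / 2 ^ J : ℕ) : ℝ) * ((x / 2 ^ J : ℕ) : ℝ)) := by
    have := hb.trans (Nat.add_le_add_right hl _)
    exact_mod_cast this
  refine hb2.trans ?_
  -- first term
  have t1 : (2 : ℝ) ^ J1 * 2 ^ ((L + 3) / 2) ≤ x * (2 / 2 ^ e) := by
    rw [← pow_add]
    have h1 : (2 : ℝ) ^ (J1 + (L + 3) / 2) ≤ 2 ^ (L + 1 - e) :=
      pow_le_pow_right₀ (by norm_num) (by omega)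
    refine h1.trans ?_
    have h2 : (2 : ℝ) ^ (L + 1 - e) * 2 ^ e = 2 * 2 ^ L := by
      rw [← pow_add, show L + 1 - e + e = L + 1 by omega, pow_succ]; ring
    have h3 : (2 : ℝ) ^ L ≤ x := by exact_mod_cast hxL
    have h4 : (0 : ℝ) < 2 ^ e := by positivity
    rw [← mul_div_assoc, le_div_iff₀ h4, h2]
    linarith
  -- second term
  have hL0 : (0 : ℝ) < L := by
    have : 0 < L := by omega
    exact_mod_cast this
  have t2 : ∑ j ∈ Finset.Ico J1 J, ((RA R x ∩ Finset.Ico (2 ^ j) (2 ^ (j + 1))).card : ℝ)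
      * ((x / 2 ^ j : ℕ) : ℝ) ≤ x * (97 / q) := by
    have h1 : ∀ j ∈ Finset.Ico J1 J, ((RA R x ∩ Finset.Ico (2 ^ j) (2 ^ (j + 1))).card : ℝ)
        * ((x / 2 ^ j : ℕ) : ℝ) ≤ 32 * x / L := by
      intro j hj
      rw [Finset.mem_Ico] at hj
      have hj0 : (0 : ℝ) < j := by
        have : 0 < j := by omega
        exact_mod_cast this
      have h2 : ((RA R x ∩ Finset.Ico (2 ^ j) (2 ^ (j + 1))).card : ℝ) ≤ 8 * 2 ^ j / j := by
        refine le_trans ?_ (hR j (by omega))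
        have : RA R x ∩ Finset.Ico (2 ^ j) (2 ^ (j + 1)) ⊆ RB R j := by
          intro m hm
          rw [Finset.mem_inter, Finset.mem_Ico] at hm
          exact mem_RB.mpr ⟨hm.2, (mem_RA.mp hm.1).2⟩
        exact_mod_cast Finset.card_le_card this
      have h3 : ((x / 2 ^ j : ℕ) : ℝ) ≤ x / 2 ^ j := by
        have := Nat.cast_div_le (α := ℝ) (m := x) (n := 2 ^ j)
        push_cast at this
        exact this
      calc ((RA R x ∩ Finset.Ico (2 ^ j) (2 ^ (j + 1))).card : ℝ) * ((x / 2 ^ j : ℕ) : ℝ)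
          ≤ (8 * 2 ^ j / j) * (x / 2 ^ j) := mul_le_mul h2 h3 (Nat.cast_nonneg _) (by positivity)
        _ = 8 * x / j := by field_simp
        _ ≤ 32 * x / L := by
            rw [div_le_div_iff₀ hj0 hL0]
            have : (L : ℝ) ≤ 4 * j := by
              have : L ≤ 4 * j := by omega
              exact_mod_cast this
            nlinarith
    refine (Finset.sum_le_sum h1).trans ?_
    rw [Finset.sum_const, Nat.card_Ico, nsmul_eq_mul]
    have h2 : ((J - J1 : ℕ) : ℝ) ≤ 3 * e + 2 := by exact_mod_cast hJJ1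
    have h3 : (e : ℝ) ≤ L / q := by
      rw [le_div_iff₀ hq0]
      have : e * q ≤ L := Nat.div_mul_le_self L q
      exact_mod_cast this
    have h4 : (64 : ℝ) * q ≤ L := by exact_mod_cast a4
    calc ((J - J1 : ℕ) : ℝ) * (32 * x / L) ≤ (3 * e + 2) * (32 * x / L) :=
          mul_le_mul_of_nonneg_right h2 (by positivity)
      _ ≤ (3 * (L / q) + 2) * (32 * x / L) := by
          refine mul_le_mul_of_nonneg_right ?_ (by positivity)
          linarith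
      _ = x * (96 / q + 64 / L) := by field_simp; ring
      _ ≤ x * (97 / q) := by
          refine mul_le_mul_of_nonneg_left ?_ hx0'.le
          have : (64 : ℝ) / L ≤ 1 / q := by
            rw [div_le_div_iff₀ hL0 hq0]; linarith
          have h5 : (97 : ℝ) / q = 96 / q + 1 / q := by ring
          rw [h5]; linarith
  -- third term
  have t3 : ((SS (eL q L) J L).card : ℝ) * (((x / 2 ^ J : ℕ) : ℝ) * ((x / 2 ^ J : ℕ) : ℝ))
      ≤ x * (36 * (q : ℝ) ^ 2 / 2 ^ (2 * e)) := by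
    have hlast := last_term (q := q) (by omega) hxL hxU
    refine le_trans ?_ hlast
    have hcard : (((SS (eL q L) J L).card : ℕ) : ℝ) ≤ (L + 1) * 2 ^ (eL q L) := by
      unfold SS
      rw [Finset.card_product, Nat.card_Icc, Finset.card_range]
      push_cast
      refine mul_le_mul_of_nonneg_right ?_ (by positivity)
      have : L + 1 - J ≤ L + 1 := Nat.sub_le _ _
      exact_mod_cast this
    have h3 : ((x / 2 ^ J : ℕ) : ℝ) ≤ x / 2 ^ J := by
      have := Nat.cast_div_le (α := ℝ) (m := x) (n := 2 ^ J)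
      push_cast at this
      exact this
    have h4 : (0 : ℝ) ≤ ((x / 2 ^ J : ℕ) : ℝ) := Nat.cast_nonneg _
    have h5 : ((x / 2 ^ J : ℕ) : ℝ) * ((x / 2 ^ J : ℕ) : ℝ) ≤ ((x : ℝ) / 2 ^ J) ^ 2 := by
      rw [sq]; exact mul_le_mul h3 h3 h4 (by positivity)
    have hlog : 0 ≤ Real.log x := Real.log_natCast_nonneg x
    calc ((SS (eL q L) J L).card : ℝ) * (((x / 2 ^ J : ℕ) : ℝ) * ((x / 2 ^ J : ℕ) : ℝ))
        ≤ ((L + 1) * 2 ^ (eL q L)) * ((x : ℝ) / 2 ^ J) ^ 2 :=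
          mul_le_mul hcard h5 (mul_nonneg h4 h4) (by positivity)
      _ ≤ (2 + Real.log x) * (((L + 1) * 2 ^ (eL q L)) * ((x : ℝ) / 2 ^ J) ^ 2) := by
          have : 0 ≤ ((L + 1) * 2 ^ (eL q L)) * ((x : ℝ) / 2 ^ J) ^ 2 := by positivity
          nlinarith
  have hfin : (2 : ℝ) / 2 ^ e + 97 / q + 36 * (q : ℝ) ^ 2 / 2 ^ (2 * e) ≤ 98 / q := by
    have h1 : (98 : ℝ) / q = 97 / q + (1 / (2 * q) + 1 / (2 * q)) := by field_simp; norm_num
    rw [h1]
    linarith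
  calc (2 : ℝ) ^ J1 * 2 ^ ((L + 3) / 2) + ∑ j ∈ Finset.Ico J1 J,
        ((RA R x ∩ Finset.Ico (2 ^ j) (2 ^ (j + 1))).card : ℝ) * ((x / 2 ^ j : ℕ) : ℝ)
      + ((SS (eL q L) J L).card : ℝ) * (((x / 2 ^ J : ℕ) : ℝ) * ((x / 2 ^ J : ℕ) : ℝ))
      ≤ x * (2 / 2 ^ e) + x * (97 / q) + x * (36 * (q : ℝ) ^ 2 / 2 ^ (2 * e)) := by linarith
    _ = x * (2 / 2 ^ e + 97 / q + 36 * (q : ℝ) ^ 2 / 2 ^ (2 * e)) := by ring
    _ ≤ x * (98 / q) := mul_le_mul_of_nonneg_left hfin hx0'.le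

end Pool.Agent.helper306_cramer
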