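import Pool.Agent.helper306_cramer.Count

/-!
# Families of independent blocks
-/

namespace Pool.Agent.helper306_cramer

open Finset

lemma abs_prod_sub_prod_le {ι : Type*} [DecidableEq ι] (s : Finset ι) (a b : ι → ℝ)
    (ha0 : ∀ i ∈ s, 0 ≤ a i) (ha1 : ∀ i ∈ s, a i ≤ 1) (hb0 : ∀ i ∈ s, 0 ≤ b i)
    (hb1 : ∀ i ∈ s, b i ≤ 1) :
    |∏ i ∈ s, a i - ∏ i ∈ s, b i| ≤ ∑ i ∈ s, |a i - b i| := by
  induction s using Finset.induction_on with
  | empty => simp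
  | insert c s hc ih =>
    rw [Finset.prod_insert hc, Finset.prod_insert hc, Finset.sum_insert hc]
    have ih' := ih (fun i hi => ha0 i (Finset.mem_insert_of_mem hi))
      (fun i hi => ha1 i (Finset.mem_insert_of_mem hi))
      (fun i hi => hb0 i (Finset.mem_insert_of_mem hi))
      (fun i hi => hb1 i (Finset.mem_insert_of_mem hi))
    have hpa0 : 0 ≤ ∏ i ∈ s, a i :=
      Finset.prod_nonneg (fun i hi => ha0 i (Finset.mem_insert_of_mem hi))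
    have hpa1 : ∏ i ∈ s, a i ≤ 1 := Finset.prod_le_one
      (fun i hi => ha0 i (Finset.mem_insert_of_mem hi))
      (fun i hi => ha1 i (Finset.mem_insert_of_mem hi))
    have hbc0 := hb0 c (Finset.mem_insert_self _ _)
    have hbc1 := hb1 c (Finset.mem_insert_self _ _)
    have e : a c * ∏ i ∈ s, a i - b c * ∏ i ∈ s, b i
        = (a c - b c) * ∏ i ∈ s, a i + b c * (∏ i ∈ s, a i - ∏ i ∈ s, b i) := by ring
    rw [e]
    refine (abs_add_le _ _).trans (add_le_add ?_ ?_)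
    · rw [abs_mul, abs_of_nonneg hpa0]
      exact mul_le_of_le_one_right (abs_nonneg _) hpa1
    · rw [abs_mul, abs_of_nonneg hbc0]
      exact (mul_le_of_le_one_left (abs_nonneg _) hbc1).trans ih'

variable {ι : Type*} [DecidableEq ι]

/-- the number of windows with sum `n` inside the blocks of a family -/
def FS (S : Finset ι) (I : ι → Finset ℕ) (n : ℕ) (A : Finset ℕ) : ℕ := ∑ s ∈ S, cnt (A ∩ I s) n

lemma Ex_FS (p : ℕ → ℝ) (S : Finset ι) (I : ι → Finset ℕ) (hd : (S : Set ι).PairwiseDisjoint I)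
    {J : Finset ℕ} (hJ : ∀ s ∈ S, I s ⊆ J) (n : ℕ) (z : ℝ) :
    Ex p J (fun A => z ^ (FS S I n A)) = ∏ s ∈ S, Ex p (I s) (fun A => z ^ (cnt A n)) := by
  rw [← Ex_prod p S I hd hJ (fun _ A => z ^ (cnt A n))]
  exact Ex_congr (fun A _ => by unfold FS; rw [Finset.prod_pow_eq_pow_sum])

lemma Ex_FS2 (p : ℕ → ℝ) (S : Finset ι) (I : ι → Finset ℕ) (hd : (S : Set ι).PairwiseDisjoint I)
    {J : Finset ℕ} (hJ : ∀ s ∈ S, I s ⊆ J) (n m : ℕ) (z : ℝ) :
    Ex p J (fun A => z ^ (FS S I n A) * z ^ (FS S I m A))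
      = ∏ s ∈ S, Ex p (I s) (fun A => z ^ (cnt A n) * z ^ (cnt A m)) := by
  rw [← Ex_prod p S I hd hJ (fun _ A => z ^ (cnt A n) * z ^ (cnt A m))]
  exact Ex_congr (fun A _ => by
    unfold FS; rw [Finset.prod_mul_distrib, Finset.prod_pow_eq_pow_sum, Finset.prod_pow_eq_pow_sum])

/-- the mean number of windows with sum `n` inside the blocks -/
noncomputable def La (p : ℕ → ℝ) (S : Finset ι) (I : ι → Finset ℕ) (n : ℕ) : ℝ :=
  ∑ s ∈ S, Ex p (I s) (fun A => (cnt A n : ℝ))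

lemma pow_mem_unit {z : ℝ} (hz0 : 0 ≤ z) (hz1 : z ≤ 1) (k : ℕ) : 0 ≤ z ^ k ∧ z ^ k ≤ 1 :=
  ⟨pow_nonneg hz0 k, pow_le_one₀ hz0 hz1⟩

/-- the generating function of the number of windows is close to the Poisson one -/
theorem mean_family {p : ℕ → ℝ} (hp0 : ∀ m, 0 ≤ p m) (hp1 : ∀ m, p m ≤ 1) (S : Finset ι)
    (y L : ι → ℕ) (hy : ∀ s ∈ S, 1 ≤ y s)
    (hd : (S : Set ι).PairwiseDisjoint (fun s => Finset.Ico (y s) (y s + L s)))
    {J : Finset ℕ} (hJ : ∀ s ∈ S, Finset.Ico (y s) (y s + L s) ⊆ J) (n : ℕ) {z : ℝ} (hz0 : 0 ≤ z)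
    (hz1 : z ≤ 1) :
    |Ex p J (fun A => z ^ (FS S (fun s => Finset.Ico (y s) (y s + L s)) n A))
      - Real.exp (-((1 - z) * La p S (fun s => Finset.Ico (y s) (y s + L s)) n))|
    ≤ ∑ s ∈ S, (2 * (Ex p (Finset.Ico (y s) (y s + L s)) (fun A => (cnt A n : ℝ))) ^ 2
      + Ex p (Finset.Ico (y s) (y s + L s)) (fun A => (innn A n : ℝ))) := by
  rw [Ex_FS p S _ hd hJ n z]
  have e1 : Real.exp (-((1 - z) * La p S (fun s => Finset.Ico (y s) (y s + L s)) n))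
      = ∏ s ∈ S, Real.exp (-((1 - z) * Ex p (Finset.Ico (y s) (y s + L s))
          (fun A => (cnt A n : ℝ)))) := by
    rw [← Real.exp_sum]
    congr 1
    unfold La
    rw [Finset.mul_sum, ← Finset.sum_neg_distrib]
  rw [e1]
  refine (abs_prod_sub_prod_le S _ _ ?_ ?_ ?_ ?_).trans (Finset.sum_le_sum (fun s hs => ?_))
  · exact fun s _ => Ex_nonneg hp0 hp1 (fun A _ => pow_nonneg hz0 _)
  · exact fun s _ => Ex_le_const hp0 hp1 (fun A _ => pow_le_one₀ hz0 hz1)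
  · exact fun s _ => (Real.exp_pos _).le
  · intro s _
    rw [Real.exp_le_one_iff, neg_nonpos]
    exact mul_nonneg (by linarith) (Ex_nonneg hp0 hp1 (fun A _ => Nat.cast_nonneg _))
  · exact pgf_block hp0 hp1 (hy s hs) n hz0 hz1

/-- variance of the generating sum -/
theorem var_family {p : ℕ → ℝ} (hp0 : ∀ m, 0 ≤ p m) (hp1 : ∀ m, p m ≤ 1) (S : Finset ι)
    (y L : ι → ℕ) (hy : ∀ s ∈ S, 1 ≤ y s)
    (hd : (S : Set ι).PairwiseDisjoint (fun s => Finset.Ico (y s) (y s + L s)))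
    {J : Finset ℕ} (hJ : ∀ s ∈ S, Finset.Ico (y s) (y s + L s) ⊆ J) (x : ℕ) {z : ℝ} (hz0 : 0 ≤ z)
    (hz1 : z ≤ 1) :
    Ex p J (fun A => (∑ n ∈ Finset.Icc 1 x, z ^ (FS S (fun s => Finset.Ico (y s) (y s + L s)) n A)
      - ∑ n ∈ Finset.Icc 1 x, Ex p J
        (fun B => z ^ (FS S (fun s => Finset.Ico (y s) (y s + L s)) n B))) ^ 2)
    ≤ ∑ s ∈ S, 2 * ((L s * (x / y s) : ℕ) : ℝ) ^ 2 := by
  set I : ι → Finset ℕ := fun s => Finset.Ico (y s) (y s + L s) with hI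
  set f : ℕ → Finset ℕ → ℝ := fun n A => z ^ (FS S I n A) with hf
  set X := Finset.Icc 1 x with hX
  -- expand the square
  have e1 : Ex p J (fun A => (∑ n ∈ X, f n A - ∑ n ∈ X, Ex p J (f n)) ^ 2)
      = ∑ n ∈ X, ∑ m ∈ X, (Ex p J (fun A => f n A * f m A) - Ex p J (f n) * Ex p J (f m)) := by
    set c := ∑ n ∈ X, Ex p J (f n) with hc
    have h1 : Ex p J (fun A => (∑ n ∈ X, f n A - c) ^ 2)
        = Ex p J (fun A => (∑ n ∈ X, f n A) * (∑ m ∈ X, f m A)) - c * c := by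
      have h2 : Ex p J (fun A => (∑ n ∈ X, f n A - c) ^ 2)
          = Ex p J (fun A => ((∑ n ∈ X, f n A) * (∑ m ∈ X, f m A) - (2 * c) * (∑ n ∈ X, f n A))
            + c * c) := Ex_congr (fun A _ => by ring)
      rw [h2, Ex_add, Ex_sub, Ex_mul_left, Ex_sum, Ex_const, ← hc]
      ring
    rw [h1]
    have h3 : Ex p J (fun A => (∑ n ∈ X, f n A) * (∑ m ∈ X, f m A))
        = ∑ n ∈ X, ∑ m ∈ X, Ex p J (fun A => f n A * f m A) := by
      rw [Ex_congr (fun A _ => Finset.sum_mul_sum X X (fun n => f n A) (fun m => f m A)), Ex_sum]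
      exact Finset.sum_congr rfl (fun n _ => Ex_sum _ _ _ _)
    rw [h3, hc, Finset.sum_mul_sum, ← Finset.sum_sub_distrib]
    exact Finset.sum_congr rfl (fun n _ => by rw [← Finset.sum_sub_distrib])
  rw [e1]
  have h2 : ∀ n ∈ X, ∀ m ∈ X, Ex p J (fun A => f n A * f m A) - Ex p J (f n) * Ex p J (f m)
      ≤ ∑ s ∈ S, (Ex p (I s) (fun A => (cnt A n : ℝ) * (cnt A m : ℝ))
        + Ex p (I s) (fun A => (cnt A n : ℝ)) * Ex p (I s) (fun A => (cnt A m : ℝ))) := by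
    intro n _ m _
    refine (le_abs_self _).trans ?_
    have a1 : Ex p J (fun A => f n A * f m A)
        = ∏ s ∈ S, Ex p (I s) (fun A => z ^ (cnt A n) * z ^ (cnt A m)) := Ex_FS2 p S I hd hJ n m z
    have a2 : Ex p J (f n) = ∏ s ∈ S, Ex p (I s) (fun A => z ^ (cnt A n)) := Ex_FS p S I hd hJ n z
    have a3 : Ex p J (f m) = ∏ s ∈ S, Ex p (I s) (fun A => z ^ (cnt A m)) := Ex_FS p S I hd hJ m z
    rw [a1, a2, a3, ← Finset.prod_mul_distrib]
    have b : ∀ s k, 0 ≤ Ex p (I s) (fun A => z ^ (cnt A k)) ∧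
        Ex p (I s) (fun A => z ^ (cnt A k)) ≤ 1 := fun s k =>
      ⟨Ex_nonneg hp0 hp1 (fun A _ => pow_nonneg hz0 _),
        Ex_le_const hp0 hp1 (fun A _ => pow_le_one₀ hz0 hz1)⟩
    refine (abs_prod_sub_prod_le S _ _ ?_ ?_ ?_ ?_).trans (Finset.sum_le_sum (fun s hs => ?_))
    · exact fun s _ => Ex_nonneg hp0 hp1 (fun A _ => mul_nonneg (pow_nonneg hz0 _) (pow_nonneg hz0 _))
    · exact fun s _ => Ex_le_const hp0 hp1 (fun A _ =>
        mul_le_one₀ (pow_le_one₀ hz0 hz1) (pow_nonneg hz0 _) (pow_le_one₀ hz0 hz1))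
    · exact fun s _ => mul_nonneg (b s n).1 (b s m).1
    · exact fun s _ => mul_le_one₀ (b s n).2 (b s m).1 (b s m).2
    · exact cov_block hp0 hp1 (I s) n m hz0 hz1
  refine (Finset.sum_le_sum (fun n hn => Finset.sum_le_sum (fun m hm => h2 n hn m hm))).trans ?_
  -- exchange the sums
  have e2 : ∑ n ∈ X, ∑ m ∈ X, ∑ s ∈ S, (Ex p (I s) (fun A => (cnt A n : ℝ) * (cnt A m : ℝ))
        + Ex p (I s) (fun A => (cnt A n : ℝ)) * Ex p (I s) (fun A => (cnt A m : ℝ)))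
      = ∑ s ∈ S, (Ex p (I s) (fun A => (∑ n ∈ X, (cnt A n : ℝ)) * (∑ m ∈ X, (cnt A m : ℝ)))
        + (Ex p (I s) (fun A => ∑ n ∈ X, (cnt A n : ℝ)))
          * (Ex p (I s) (fun A => ∑ m ∈ X, (cnt A m : ℝ)))) := by
    have e3 : ∀ n, ∑ m ∈ X, ∑ s ∈ S, (Ex p (I s) (fun A => (cnt A n : ℝ) * (cnt A m : ℝ))
        + Ex p (I s) (fun A => (cnt A n : ℝ)) * Ex p (I s) (fun A => (cnt A m : ℝ)))
        = ∑ s ∈ S, ∑ m ∈ X, (Ex p (I s) (fun A => (cnt A n : ℝ) * (cnt A m : ℝ))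
        + Ex p (I s) (fun A => (cnt A n : ℝ)) * Ex p (I s) (fun A => (cnt A m : ℝ))) :=
      fun n => Finset.sum_comm
    rw [Finset.sum_congr rfl (fun n _ => e3 n), Finset.sum_comm]
    refine Finset.sum_congr rfl (fun s _ => ?_)
    rw [Ex_congr (fun A _ => Finset.sum_mul_sum X X (fun n => (cnt A n : ℝ))
      (fun m => (cnt A m : ℝ))), Ex_sum, Ex_sum, Finset.sum_mul_sum, ← Finset.sum_add_distrib]
    refine Finset.sum_congr rfl (fun n _ => ?_)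
    rw [Ex_sum, ← Finset.sum_add_distrib]
  rw [e2]
  refine Finset.sum_le_sum (fun s hs => ?_)
  set M : ℝ := ((L s * (x / y s) : ℕ) : ℝ) with hM
  have hW : ∀ A ⊆ I s, 0 ≤ ∑ n ∈ X, (cnt A n : ℝ) ∧ ∑ n ∈ X, (cnt A n : ℝ) ≤ M := by
    intro A hA
    constructor
    · exact Finset.sum_nonneg (fun n _ => Nat.cast_nonneg _)
    · have := sum_cnt_le (x := x) (hy s hs) hA
      rw [hM]
      exact_mod_cast this
  have b1 : Ex p (I s) (fun A => (∑ n ∈ X, (cnt A n : ℝ)) * (∑ m ∈ X, (cnt A m : ℝ))) ≤ M * M :=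
    Ex_le_const hp0 hp1 (fun A hA => mul_le_mul (hW A hA).2 (hW A hA).2 (hW A hA).1
      ((hW A hA).1.trans (hW A hA).2))
  have b2 : 0 ≤ Ex p (I s) (fun A => ∑ n ∈ X, (cnt A n : ℝ)) :=
    Ex_nonneg hp0 hp1 (fun A hA => (hW A hA).1)
  have b3 : Ex p (I s) (fun A => ∑ n ∈ X, (cnt A n : ℝ)) ≤ M :=
    Ex_le_const hp0 hp1 (fun A hA => (hW A hA).2)
  have b4 := mul_le_mul b3 b3 b2 (b2.trans b3)
  nlinarith

end Pool.Agent.helper306_cramer
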