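import Pool.Agent.helper306_cramer.Sums

/-!
# Mean and variance of the generating sum
-/

namespace Pool.Agent.helper306_cramer

open Finset

section
variable {d : ℕ → ℝ} {rho : ℝ} {e J L : ℕ}

/-- the generating sum over the windows inside the blocks -/
noncomputable def XS (e J L x : ℕ) (z : ℝ) (A : Finset ℕ) : ℝ :=
  ∑ n ∈ Finset.Icc 1 x, z ^ (FS (SS e J L) (Ib e) n A)

lemma exp_sub_le {a b : ℝ} (ha : 0 ≤ a) (hb : 0 ≤ b) : |Real.exp (-a) - Real.exp (-b)| ≤ |a - b| := by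
  have key : ∀ a b : ℝ, 0 ≤ a → a ≤ b → Real.exp (-a) - Real.exp (-b) ≤ b - a := by
    intro a b ha hab
    have h1 : Real.exp (-b) = Real.exp (-a) * Real.exp (-(b - a)) := by
      rw [← Real.exp_add]; congr 1; ring
    have h2 : 1 - (b - a) ≤ Real.exp (-(b - a)) := by
      have := Real.add_one_le_exp (-(b - a)); linarith
    have h3 : Real.exp (-a) ≤ 1 := by rw [Real.exp_le_one_iff]; linarith
    have h4 : 0 < Real.exp (-a) := Real.exp_pos _
    rw [h1]
    have h5 : Real.exp (-a) - Real.exp (-a) * Real.exp (-(b - a))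
        = Real.exp (-a) * (1 - Real.exp (-(b - a))) := by ring
    rw [h5]
    have h6 : 1 - Real.exp (-(b - a)) ≤ b - a := by linarith
    have h7 : 0 ≤ 1 - Real.exp (-(b - a)) := by
      have : Real.exp (-(b - a)) ≤ 1 := by rw [Real.exp_le_one_iff]; linarith
      linarith
    calc Real.exp (-a) * (1 - Real.exp (-(b - a))) ≤ 1 * (1 - Real.exp (-(b - a))) :=
          mul_le_mul_of_nonneg_right h3 h7
      _ ≤ b - a := by linarith
  rcases le_total a b with h | h
  · have h1 := key a b ha h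
    have h2 : Real.exp (-b) ≤ Real.exp (-a) := Real.exp_le_exp.mpr (by linarith)
    rw [abs_of_nonneg (by linarith), abs_of_nonpos (by linarith)]
    linarith
  · have h1 := key b a hb h
    have h2 : Real.exp (-a) ≤ Real.exp (-b) := Real.exp_le_exp.mpr (by linarith)
    rw [abs_of_nonpos (by linarith), abs_of_nonneg (by linarith)]
    linarith

lemma two_rpow_eq (z : ℝ) : (2 : ℝ) ^ (z - 1) = Real.exp (-((1 - z) * Real.log 2)) := by
  rw [Real.rpow_def_of_pos (by norm_num)]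
  congr 1; ring

/-- variance -/
theorem XS_var (hd0 : ∀ j, 0 ≤ d j) (hd1 : ∀ j, d j ≤ 1) (he : e ≤ J) (x : ℕ) {z : ℝ}
    (hz0 : 0 ≤ z) (hz1 : z ≤ 1) {W : Finset ℕ} (hW : ∀ s ∈ SS e J L, Ib e s ⊆ W) :
    Ex (pd d) W (fun A => (XS e J L x z A - Ex (pd d) W (XS e J L x z)) ^ 2)
      ≤ 2 * (L + 1) / 2 ^ e * (x : ℝ) ^ 2 := by
  have h1 := var_family (p := pd d) (fun m => hd0 _) (fun m => hd1 _) (SS e J L) (yb e) (Lb e)
    (fun s _ => yb_pos e s) (blocks_disjoint he) hW x hz0 hz1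
  have h2 : Ex (pd d) W (XS e J L x z) = ∑ n ∈ Finset.Icc 1 x, Ex (pd d) W
      (fun B => z ^ (FS (SS e J L) (fun s => Finset.Ico (yb e s) (yb e s + Lb e s)) n B)) := by
    unfold XS
    rw [Ex_sum]
    rfl
  rw [h2]
  refine h1.trans ?_
  have h3 : ∀ s ∈ SS e J L, 2 * ((Lb e s * (x / yb e s) : ℕ) : ℝ) ^ 2
      ≤ 2 * ((x : ℝ) / 2 ^ e) ^ 2 := by
    intro s _
    have h4 : ((Lb e s * (x / yb e s) : ℕ) : ℝ) ≤ x / 2 ^ e := by
      have h5 : Lb e s * (x / yb e s) * 2 ^ e ≤ x := by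
        calc Lb e s * (x / yb e s) * 2 ^ e = (Lb e s * 2 ^ e) * (x / yb e s) := by ring
          _ ≤ yb e s * (x / yb e s) := Nat.mul_le_mul_right _ (Lb_mul_le e s)
          _ ≤ x := Nat.mul_div_le x (yb e s)
      rw [le_div_iff₀ (by positivity)]
      exact_mod_cast h5
    have h6 : (0 : ℝ) ≤ ((Lb e s * (x / yb e s) : ℕ) : ℝ) := Nat.cast_nonneg _
    nlinarith
  refine (Finset.sum_le_sum h3).trans ?_
  rw [Finset.sum_const, nsmul_eq_mul]
  have hcard : (((SS e J L).card : ℕ) : ℝ) ≤ (L + 1) * 2 ^ e := by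
    unfold SS
    rw [Finset.card_product, Nat.card_Icc, Finset.card_range]
    push_cast
    refine mul_le_mul_of_nonneg_right ?_ (by positivity)
    have : L + 1 - J ≤ L + 1 := Nat.sub_le _ _
    exact_mod_cast this
  have h7 : (0 : ℝ) ≤ 2 * ((x : ℝ) / 2 ^ e) ^ 2 := by positivity
  calc (((SS e J L).card : ℕ) : ℝ) * (2 * ((x : ℝ) / 2 ^ e) ^ 2)
      ≤ ((L + 1) * 2 ^ e) * (2 * ((x : ℝ) / 2 ^ e) ^ 2) := mul_le_mul_of_nonneg_right hcard h7
    _ = 2 * (L + 1) / 2 ^ e * (x : ℝ) ^ 2 := by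
        field_simp

/-- mean -/
theorem XS_mean (hd0 : ∀ j, 0 ≤ d j) (hd1 : ∀ j, d j ≤ 1) (hrho : ∀ j, J ≤ j → d j ≤ rho)
    (h32 : 32 * rho ≤ 1) (he : e ≤ J) {x : ℕ} (hx : 2 ^ L ≤ x) {z : ℝ}
    (hz0 : 0 ≤ z) (hz1 : z ≤ 1) {W : Finset ℕ} (hW : ∀ s ∈ SS e J L, Ib e s ⊆ W) :
    |Ex (pd d) W (XS e J L x z) - x * (2 : ℝ) ^ (z - 1)|
      ≤ x * (8 * rho * (Real.log 2 * (∑ j ∈ Finset.Icc J L, d j) + 5 * rho)
          + 7 * rho + (∑ j ∈ Finset.Icc J L, d j) / 2 ^ e
          + |Real.log 2 * (∑ j ∈ Finset.Icc J L, d j) + 5 * rho - Real.log 2|)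
        + (2 + Real.log x) * ((L + 1) * 2 ^ e * ((x : ℝ) / 2 ^ J) ^ 2) := by
  classical
  have hr0 : 0 ≤ rho := (hd0 J).trans (hrho J le_rfl)
  have hx0 : (0 : ℝ) ≤ x := Nat.cast_nonneg x
  have hx1 : 1 ≤ x := le_trans Nat.one_le_two_pow hx
  have hx1' : (1 : ℝ) ≤ x := by exact_mod_cast hx1
  have hlx : 0 ≤ Real.log x := Real.log_nonneg hx1'
  set D := ∑ j ∈ Finset.Icc J L, d j with hD
  have hD0 : 0 ≤ D := Finset.sum_nonneg (fun j _ => hd0 j)
  have hp0 : ∀ m, 0 ≤ pd d m := fun m => hd0 _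
  have hp1 : ∀ m, pd d m ≤ 1 := fun m => hd1 _
  have hlog2 : 0 ≤ Real.log 2 := Real.log_nonneg (by norm_num)
  set U := Real.log 2 * D + 5 * rho with hU
  have hU0 : 0 ≤ U := by positivity
  set B := (L + 1) * 2 ^ e * ((x : ℝ) / 2 ^ J) ^ 2 with hB
  have hB0 : 0 ≤ B := by positivity
  have hLa0 : ∀ n, 0 ≤ La (pd d) (SS e J L) (Ib e) n := fun n =>
    Finset.sum_nonneg (fun s _ => Ex_nonneg hp0 hp1 (fun A _ => Nat.cast_nonneg _))
  have hLaU : ∀ n ∈ Finset.Icc 1 x, La (pd d) (SS e J L) (Ib e) n ≤ U := fun n hn =>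
    La_le hd0 hd1 hrho h32 he (Finset.mem_Icc.mp hn).1
  have hlow := sum_La_ge hd0 hd1 hrho he (L := L) (e := e) (J := J) hx
  rw [← hD, ← hB] at hlow
  -- first step: compare with the Poisson generating function
  have h1 : Ex (pd d) W (XS e J L x z)
      = ∑ n ∈ Finset.Icc 1 x, Ex (pd d) W (fun A => z ^ (FS (SS e J L) (Ib e) n A)) := by
    unfold XS; rw [Ex_sum]
  set T : ℕ → ℝ := fun n => ∑ s ∈ SS e J L, (2 * (Ex (pd d) (Ib e s) (fun A => (cnt A n : ℝ))) ^ 2
      + Ex (pd d) (Ib e s) (fun A => (innn A n : ℝ))) with hT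
  have h2 : ∀ n, |Ex (pd d) W (fun A => z ^ (FS (SS e J L) (Ib e) n A))
      - Real.exp (-((1 - z) * La (pd d) (SS e J L) (Ib e) n))| ≤ T n := fun n =>
    mean_family (p := pd d) hp0 hp1 (SS e J L) (yb e) (Lb e) (fun s _ => yb_pos e s)
      (blocks_disjoint he) hW n hz0 hz1
  have h3 : ∀ n, |Real.exp (-((1 - z) * La (pd d) (SS e J L) (Ib e) n)) - (2 : ℝ) ^ (z - 1)|
      ≤ |La (pd d) (SS e J L) (Ib e) n - Real.log 2| := by
    intro n
    rw [two_rpow_eq]
    refine (exp_sub_le (mul_nonneg (by linarith) (hLa0 n)) (mul_nonneg (by linarith) hlog2)).trans ?_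
    rw [← mul_sub, abs_mul, abs_of_nonneg (by linarith : (0 : ℝ) ≤ 1 - z)]
    exact mul_le_of_le_one_left (abs_nonneg _) (by linarith)
  have h4 : ∀ n ∈ Finset.Icc 1 x, |Ex (pd d) W (fun A => z ^ (FS (SS e J L) (Ib e) n A))
      - (2 : ℝ) ^ (z - 1)| ≤ T n + ((U - La (pd d) (SS e J L) (Ib e) n) + |U - Real.log 2|) := by
    intro n hn
    have a1 := h2 n
    have a2 := h3 n
    have a3 : |La (pd d) (SS e J L) (Ib e) n - Real.log 2|
        ≤ (U - La (pd d) (SS e J L) (Ib e) n) + |U - Real.log 2| := by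
      have b1 := hLaU n hn
      have : La (pd d) (SS e J L) (Ib e) n - Real.log 2
          = -(U - La (pd d) (SS e J L) (Ib e) n) + (U - Real.log 2) := by ring
      rw [this]
      refine (abs_add_le _ _).trans (add_le_add ?_ le_rfl)
      rw [abs_neg, abs_of_nonneg (by linarith)]
    calc |Ex (pd d) W (fun A => z ^ (FS (SS e J L) (Ib e) n A)) - (2 : ℝ) ^ (z - 1)|
        ≤ |Ex (pd d) W (fun A => z ^ (FS (SS e J L) (Ib e) n A))
          - Real.exp (-((1 - z) * La (pd d) (SS e J L) (Ib e) n))|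
          + |Real.exp (-((1 - z) * La (pd d) (SS e J L) (Ib e) n)) - (2 : ℝ) ^ (z - 1)| :=
          abs_sub_le _ _ _
      _ ≤ _ := by linarith
  have h5 : |Ex (pd d) W (XS e J L x z) - x * (2 : ℝ) ^ (z - 1)|
      ≤ ∑ n ∈ Finset.Icc 1 x, (T n + ((U - La (pd d) (SS e J L) (Ib e) n) + |U - Real.log 2|)) := by
    have e1 : (x : ℝ) * (2 : ℝ) ^ (z - 1) = ∑ n ∈ Finset.Icc 1 x, (2 : ℝ) ^ (z - 1) := by
      rw [Finset.sum_const, Nat.card_Icc, Nat.add_sub_cancel, nsmul_eq_mul]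
    rw [h1, e1, ← Finset.sum_sub_distrib]
    exact (Finset.abs_sum_le_sum_abs _ _).trans (Finset.sum_le_sum h4)
  refine h5.trans ?_
  rw [Finset.sum_add_distrib, Finset.sum_add_distrib, Finset.sum_sub_distrib, Finset.sum_const,
    Finset.sum_const, Nat.card_Icc, Nat.add_sub_cancel, nsmul_eq_mul, nsmul_eq_mul]
  -- the sum of T
  have h6 : ∑ n ∈ Finset.Icc 1 x, T n ≤ 8 * rho * (x * U) + (1 + Real.log x) * B := by
    rw [hT]
    simp only
    have e1 : ∑ n ∈ Finset.Icc 1 x, ∑ s ∈ SS e J L,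
        (2 * (Ex (pd d) (Ib e s) (fun A => (cnt A n : ℝ))) ^ 2
          + Ex (pd d) (Ib e s) (fun A => (innn A n : ℝ)))
        = ∑ n ∈ Finset.Icc 1 x, ∑ s ∈ SS e J L,
            2 * (Ex (pd d) (Ib e s) (fun A => (cnt A n : ℝ))) ^ 2
          + ∑ s ∈ SS e J L, Ex (pd d) (Ib e s) (fun A => ∑ n ∈ Finset.Icc 1 x, (innn A n : ℝ)) := by
      have : ∀ n, ∑ s ∈ SS e J L, (2 * (Ex (pd d) (Ib e s) (fun A => (cnt A n : ℝ))) ^ 2
          + Ex (pd d) (Ib e s) (fun A => (innn A n : ℝ)))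
          = ∑ s ∈ SS e J L, 2 * (Ex (pd d) (Ib e s) (fun A => (cnt A n : ℝ))) ^ 2
            + ∑ s ∈ SS e J L, Ex (pd d) (Ib e s) (fun A => (innn A n : ℝ)) :=
        fun n => Finset.sum_add_distrib
      rw [Finset.sum_congr rfl (fun n _ => this n), Finset.sum_add_distrib]
      congr 1
      rw [Finset.sum_comm]
      exact Finset.sum_congr rfl (fun s _ => (Ex_sum _ _ _ _).symm)
    rw [e1]
    refine add_le_add ?_ ?_
    · have e2 : ∀ n ∈ Finset.Icc 1 x, ∑ s ∈ SS e J L,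
          2 * (Ex (pd d) (Ib e s) (fun A => (cnt A n : ℝ))) ^ 2 ≤ 8 * rho * U := by
        intro n hn
        have e3 : ∀ s ∈ SS e J L, 2 * (Ex (pd d) (Ib e s) (fun A => (cnt A n : ℝ))) ^ 2
            ≤ 8 * rho * Ex (pd d) (Ib e s) (fun A => (cnt A n : ℝ)) := by
          intro s hs
          have b1 := lam_max hd0 hd1 hrho h32 he hs n
          have b2 : 0 ≤ Ex (pd d) (Ib e s) (fun A => (cnt A n : ℝ)) :=
            Ex_nonneg hp0 hp1 (fun A _ => Nat.cast_nonneg _)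
          nlinarith
        refine (Finset.sum_le_sum e3).trans ?_
        rw [← Finset.mul_sum]
        exact mul_le_mul_of_nonneg_left (hLaU n hn) (by positivity)
      refine (Finset.sum_le_sum e2).trans (le_of_eq ?_)
      rw [Finset.sum_const, Nat.card_Icc, Nat.add_sub_cancel, nsmul_eq_mul]
      ring
    · have e2 : ∀ s ∈ SS e J L, Ex (pd d) (Ib e s) (fun A => ∑ n ∈ Finset.Icc 1 x, (innn A n : ℝ))
          ≤ (1 + Real.log x) * ((x : ℝ) / 2 ^ J) ^ 2 := by
        intro s hs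
        have hs' := mem_SS.mp hs
        have b1 : Ex (pd d) (Ib e s) (fun A => ∑ n ∈ Finset.Icc 1 x, (innn A n : ℝ))
            ≤ Ex (pd d) (Ib e s) (fun A => (inn A x : ℝ)) := by
          refine Ex_mono hp0 hp1 (fun A hA => ?_)
          have := sum_innn_le (A := A) (fun m hm => by
            have h := hA hm
            unfold Ib at h
            rw [Finset.mem_Ico] at h
            have := yb_pos e s
            omega) x
          exact_mod_cast this
        refine b1.trans ?_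
        have hds := hrho s.1 hs'.1.1
        refine (Ex_inn_le hp0 hp1 (yb_pos e s) (Lb_le e s) (pd_of_mem he hs) (hd0 _)
          (by linarith)).trans ?_
        have hKle : ((x / yb e s : ℕ) : ℝ) ≤ x / 2 ^ J := by
          have h5 : x / yb e s ≤ x / 2 ^ J := by
            refine Nat.div_le_div_left ?_ (by positivity)
            have := yb_ge (e := e) (s := s) (by omega)
            have : 2 ^ J ≤ 2 ^ s.1 := Nat.pow_le_pow_right (by norm_num) hs'.1.1
            omega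
          calc ((x / yb e s : ℕ) : ℝ) ≤ ((x / 2 ^ J : ℕ) : ℝ) := by exact_mod_cast h5
            _ ≤ (x : ℝ) / ((2 ^ J : ℕ) : ℝ) := Nat.cast_div_le
            _ = x / 2 ^ J := by push_cast; rfl
        have hK0 : (0 : ℝ) ≤ ((x / yb e s : ℕ) : ℝ) := Nat.cast_nonneg _
        have hlogK : Real.log ((x / yb e s : ℕ) : ℝ) ≤ Real.log x := by
          rcases Nat.eq_zero_or_pos (x / yb e s) with h | h
          · rw [h]; simpa using hlx
          · refine Real.log_le_log (by exact_mod_cast h) ?_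
            exact_mod_cast Nat.div_le_self _ _
        have hlogK0 : 0 ≤ Real.log ((x / yb e s : ℕ) : ℝ) := Real.log_natCast_nonneg _
        have b3 : 2 * d s.1 ≤ 1 := by linarith
        have b4 : ((x / yb e s : ℕ) : ℝ) ^ 2 ≤ ((x : ℝ) / 2 ^ J) ^ 2 := by
          exact pow_le_pow_left₀ hK0 hKle 2
        calc 2 * d s.1 * ((x / yb e s : ℕ) : ℝ) ^ 2 * (1 + Real.log ((x / yb e s : ℕ) : ℝ))
            ≤ 1 * ((x : ℝ) / 2 ^ J) ^ 2 * (1 + Real.log x) := by
              refine mul_le_mul (mul_le_mul b3 b4 (sq_nonneg _) (by norm_num)) (by linarith)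
                (by linarith) (by positivity)
          _ = (1 + Real.log x) * ((x : ℝ) / 2 ^ J) ^ 2 := by ring
      refine (Finset.sum_le_sum e2).trans ?_
      rw [Finset.sum_const, nsmul_eq_mul]
      have hcard : (((SS e J L).card : ℕ) : ℝ) ≤ (L + 1) * 2 ^ e := by
        unfold SS
        rw [Finset.card_product, Nat.card_Icc, Finset.card_range]
        push_cast
        refine mul_le_mul_of_nonneg_right ?_ (by positivity)
        have : L + 1 - J ≤ L + 1 := Nat.sub_le _ _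
        exact_mod_cast this
      have h7 : (0 : ℝ) ≤ (1 + Real.log x) * ((x : ℝ) / 2 ^ J) ^ 2 := by positivity
      refine (mul_le_mul_of_nonneg_right hcard h7).trans (le_of_eq ?_)
      rw [hB]; ring
  have h7 : (x : ℝ) * U - ∑ n ∈ Finset.Icc 1 x, La (pd d) (SS e J L) (Ib e) n
      ≤ x * (7 * rho + D / 2 ^ e) + B := by
    have : (x : ℝ) * U = x * Real.log 2 * D + 5 * rho * x := by rw [hU]; ring
    have h8 : (x : ℝ) * (Real.log 2 - 1 / 2 ^ e) * D = x * Real.log 2 * D - x * (D / 2 ^ e) := by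
      ring
    rw [h8] at hlow
    rw [this]
    linarith
  have h8 : (1 + Real.log x) * B + B = (2 + Real.log x) * B := by ring
  calc ∑ n ∈ Finset.Icc 1 x, T n + ((x : ℝ) * U
        - ∑ n ∈ Finset.Icc 1 x, La (pd d) (SS e J L) (Ib e) n + x * |U - Real.log 2|)
      ≤ (8 * rho * (x * U) + (1 + Real.log x) * B) + ((x * (7 * rho + D / 2 ^ e) + B)
        + x * |U - Real.log 2|) := by linarith
    _ = x * (8 * rho * U + 7 * rho + D / 2 ^ e + |U - Real.log 2|) + (2 + Real.log x) * B := by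
        ring

end

end Pool.Agent.helper306_cramer
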