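import Mathlib

/-!
# Equidistribution modulo `t` of weighted sums of geometric variables

For independent geometric variables `γ_r` with parameter `c` the sum `∑ co_r γ_r` is almost uniformly
distributed modulo `t`, as soon as every residue `1, …, t - 1` occurs among the coefficients.
-/

namespace Pool.Agent.helper306_cramer

open Finset

lemma geom_zero {u : ℂ} {t : ℕ} (h1 : u ≠ 1) (ht : u ^ t = 1) :
    ∑ j ∈ Finset.range t, u ^ j = 0 := by
  rw [geom_sum_eq h1, ht]; simp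

lemma re_sq_eq {u : ℂ} (hu : ‖u‖ = 1) : u.re ^ 2 = (1 + (u ^ 2).re) / 2 := by
  have h1 : u.re * u.re + u.im * u.im = 1 := by
    have := Complex.normSq_eq_norm_sq u
    rw [Complex.normSq_apply, hu] at this
    linarith
  have h2 : (u ^ 2).re = u.re * u.re - u.im * u.im := by
    rw [sq, Complex.mul_re]
  rw [h2]; nlinarith

/-- at least a quarter of the powers of a nontrivial root of unity lie in the left half plane -/
lemma neg_count {z : ℂ} {t : ℕ} (hz : z ≠ 1) (hzt : z ^ t = 1) (ht : 1 ≤ t) :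
    t ≤ 4 * ((Finset.range t).filter (fun j => (z ^ j).re < 0)).card := by
  have hn : ‖z‖ = 1 := by
    have h := congrArg norm hzt
    rw [norm_pow, norm_one] at h
    exact (pow_eq_one_iff_of_nonneg (norm_nonneg _) (by omega)).mp h
  have hnj : ∀ j : ℕ, ‖z ^ j‖ = 1 := fun j => by rw [norm_pow, hn, one_pow]
  have h0 : ∑ j ∈ Finset.range t, (z ^ j).re = 0 := by
    rw [← Complex.re_sum, geom_zero hz hzt]; rfl
  have h2 : (0 : ℝ) ≤ ∑ j ∈ Finset.range t, ((z ^ j) ^ 2).re := by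
    rw [← Complex.re_sum]
    have e : ∑ j ∈ Finset.range t, (z ^ j) ^ 2 = ∑ j ∈ Finset.range t, (z ^ 2) ^ j :=
      Finset.sum_congr rfl (fun j _ => by rw [← pow_mul, ← pow_mul, mul_comm])
    rw [e]
    by_cases h : z ^ 2 = 1
    · rw [h]; simp
    · rw [geom_zero h (by rw [← pow_mul, mul_comm, pow_mul, hzt, one_pow])]; simp
  have h3 : (t : ℝ) / 2 ≤ ∑ j ∈ Finset.range t, (z ^ j).re ^ 2 := by
    rw [Finset.sum_congr rfl (fun j _ => re_sq_eq (hnj j))]
    rw [← Finset.sum_div, Finset.sum_add_distrib]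
    simp only [Finset.sum_const, Finset.card_range, nsmul_eq_mul, mul_one]
    linarith
  have h4 : ∑ j ∈ Finset.range t, (z ^ j).re ^ 2 ≤
      ∑ j ∈ Finset.range t, ((z ^ j).re + if (z ^ j).re < 0 then 2 else 0) := by
    refine Finset.sum_le_sum (fun j _ => ?_)
    have hle : |(z ^ j).re| ≤ 1 := (Complex.abs_re_le_norm _).trans (hnj j).le
    rw [abs_le] at hle
    split_ifs with h
    · nlinarith
    · push Not at h; nlinarith
  rw [Finset.sum_add_distrib, h0, zero_add, ← Finset.sum_filter, Finset.sum_const,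
    nsmul_eq_mul] at h4
  have h5 : (t : ℝ) ≤ 4 * (((Finset.range t).filter (fun j => (z ^ j).re < 0)).card : ℝ) := by
    linarith
  exact_mod_cast h5

/-- the truncated characteristic function of a geometric variable -/
noncomputable def ph (c : ℝ) (D : ℕ) (u : ℂ) : ℂ :=
  ∑ v : Fin D, ((c * (1 - c) ^ (v : ℕ) : ℝ) : ℂ) * u ^ ((v : ℕ) + 1)

lemma geo_sum_le {c : ℝ} (h0 : 0 ≤ c) (h1 : c ≤ 1) (D : ℕ) :
    ∑ v : Fin D, c * (1 - c) ^ (v : ℕ) ≤ 1 := by
  rw [Fin.sum_univ_eq_sum_range (fun v => c * (1 - c) ^ v) D, ← Finset.mul_sum]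
  have h := mul_neg_geom_sum (1 - c) D
  have e : (1 - (1 - c)) = c := by ring
  rw [e] at h
  rw [h]
  have : 0 ≤ (1 - c) ^ D := pow_nonneg (by linarith) _
  linarith

lemma norm_ph_le_one {c : ℝ} (h0 : 0 ≤ c) (h1 : c ≤ 1) (D : ℕ) {u : ℂ} (hu : ‖u‖ = 1) :
    ‖ph c D u‖ ≤ 1 := by
  unfold ph
  refine (norm_sum_le _ _).trans ?_
  refine le_trans (Finset.sum_le_sum (fun v _ => ?_)) (geo_sum_le h0 h1 D)
  rw [norm_mul, norm_pow, hu, one_pow, mul_one, Complex.norm_real, Real.norm_eq_abs,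
    abs_of_nonneg (mul_nonneg h0 (pow_nonneg (by linarith) _))]

lemma norm_ph_le {c : ℝ} (h0 : 0 ≤ c) (h1 : c ≤ 1) (D : ℕ) {u : ℂ} (hu : ‖u‖ = 1)
    (hr : u.re < 0) : ‖ph c D u‖ ≤ 2 * c := by
  set w : ℂ := ((1 - c : ℝ) : ℂ) * u with hw
  have hwn : ‖w‖ ≤ 1 := by
    rw [hw, norm_mul, hu, mul_one, Complex.norm_real, Real.norm_eq_abs, abs_of_nonneg (by linarith)]
    linarith
  have e1 : ph c D u = (c : ℂ) * u * ∑ v ∈ Finset.range D, w ^ v := by
    unfold ph
    rw [Fin.sum_univ_eq_sum_range (fun v => ((c * (1 - c) ^ v : ℝ) : ℂ) * u ^ (v + 1)) D,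
      Finset.mul_sum]
    refine Finset.sum_congr rfl (fun v _ => ?_)
    rw [hw, mul_pow]
    push_cast
    ring
  have hre : 1 ≤ (1 - w).re := by
    have : w.re = (1 - c) * u.re := by rw [hw, Complex.re_ofReal_mul]
    rw [Complex.sub_re, Complex.one_re, this]
    have : (1 - c) * u.re ≤ 0 := mul_nonpos_of_nonneg_of_nonpos (by linarith) hr.le
    linarith
  have hden : 1 ≤ ‖1 - w‖ := hre.trans (Complex.re_le_norm _)
  have hw1 : w ≠ 1 := by
    intro h
    rw [h, sub_self, norm_zero] at hden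
    linarith
  have e2 : ‖∑ v ∈ Finset.range D, w ^ v‖ ≤ 2 := by
    have h := mul_neg_geom_sum w D
    have h' : ‖1 - w‖ * ‖∑ v ∈ Finset.range D, w ^ v‖ = ‖1 - w ^ D‖ := by
      rw [← norm_mul, h]
    have h3 : ‖1 - w ^ D‖ ≤ 2 := by
      refine (norm_sub_le _ _).trans ?_
      rw [norm_one, norm_pow]
      have : ‖w‖ ^ D ≤ 1 := pow_le_one₀ (norm_nonneg _) hwn
      linarith
    have h4 : 0 ≤ ‖∑ v ∈ Finset.range D, w ^ v‖ := norm_nonneg _
    nlinarith
  rw [e1, norm_mul, norm_mul, hu, mul_one, Complex.norm_real, Real.norm_eq_abs, abs_of_nonneg h0]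
  nlinarith

/-- equidistribution bound -/
theorem fourier_bound {c : ℝ} (h0 : 0 ≤ c) (h1 : 2 * c ≤ 1) (t m D : ℕ) (ht : 1 ≤ t)
    (co : Fin m → ℕ) (hco : ∀ j, 1 ≤ j → j < t → ∃ r, co r = j) (s : ℤ) :
    ∑ g : Fin m → Fin D, (∏ r, (c * (1 - c) ^ (g r : ℕ))) *
      (if (t : ℤ) ∣ s + ∑ r, (co r : ℤ) * (((g r : ℕ) : ℤ) + 1) then (1 : ℝ) else 0)
      ≤ 1 / t + (2 * c) ^ ((t + 3) / 4) := by
  have hc1 : c ≤ 1 := by linarith
  have ht0 : (0 : ℝ) < t := by exact_mod_cast ht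
  obtain ⟨ζ, hζ⟩ : ∃ ζ : ℂ, IsPrimitiveRoot ζ t :=
    ⟨_, Complex.isPrimitiveRoot_exp t (by omega)⟩
  have hζ0 : ζ ≠ 0 := hζ.ne_zero (by omega)
  have hζt : ζ ^ t = 1 := hζ.pow_eq_one
  have hn : ‖ζ‖ = 1 := by
    have h := congrArg norm hζt
    rw [norm_pow, norm_one] at h
    exact (pow_eq_one_iff_of_nonneg (norm_nonneg _) (by omega)).mp h
  set V : (Fin m → Fin D) → ℤ := fun g => s + ∑ r, (co r : ℤ) * (((g r : ℕ) : ℤ) + 1) with hV
  set W : (Fin m → Fin D) → ℝ := fun g => ∏ r, (c * (1 - c) ^ (g r : ℕ)) with hW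
  set L : ℝ := ∑ g : Fin m → Fin D, W g * (if (t : ℤ) ∣ V g then (1 : ℝ) else 0) with hL
  have hL0 : 0 ≤ L := by
    refine Finset.sum_nonneg (fun g _ => mul_nonneg ?_ (by split_ifs <;> norm_num))
    exact Finset.prod_nonneg (fun r _ => mul_nonneg h0 (pow_nonneg (by linarith) _))
  -- the indicator as a character sum
  have hind : ∀ v : ℤ, ∑ k ∈ Finset.range t, (ζ ^ v) ^ k = if (t : ℤ) ∣ v then (t : ℂ) else 0 := by
    intro v
    by_cases hv : (t : ℤ) ∣ v
    · rw [if_pos hv, (hζ.zpow_eq_one_iff_dvd v).2 hv]; simp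
    · rw [if_neg hv]
      have hne : ζ ^ v ≠ 1 := fun h => hv ((hζ.zpow_eq_one_iff_dvd v).1 h)
      refine geom_zero hne ?_
      rw [← zpow_natCast, ← zpow_mul, mul_comm, zpow_mul, zpow_natCast, hζt, one_zpow]
  have key : (L : ℂ) * t = ∑ k ∈ Finset.range t, (ζ ^ k) ^ s * ∏ r, ph c D ((ζ ^ k) ^ (co r)) := by
    have e1 : (L : ℂ) * t = ∑ g : Fin m → Fin D, (W g : ℂ) * ∑ k ∈ Finset.range t, (ζ ^ V g) ^ k := by
      rw [hL]
      push_cast
      rw [Finset.sum_mul]
      refine Finset.sum_congr rfl (fun g _ => ?_)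
      rw [hind]
      split_ifs <;> simp
    rw [e1]
    simp_rw [Finset.mul_sum]
    rw [Finset.sum_comm]
    refine Finset.sum_congr rfl (fun k _ => ?_)
    have e2 : ∏ r, ph c D ((ζ ^ k) ^ (co r))
        = ∑ g : Fin m → Fin D, ∏ r, (((c * (1 - c) ^ (g r : ℕ) : ℝ) : ℂ) *
            ((ζ ^ k) ^ (co r)) ^ ((g r : ℕ) + 1)) := by
      unfold ph
      rw [Finset.prod_univ_sum]
      rw [Fintype.piFinset_univ]
    rw [e2, Finset.mul_sum]
    refine Finset.sum_congr rfl (fun g _ => ?_)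
    rw [Finset.prod_mul_distrib]
    have hk0 : ζ ^ k ≠ 0 := pow_ne_zero _ hζ0
    have e3 : (ζ ^ V g) ^ k = (ζ ^ k) ^ s * ∏ r, ((ζ ^ k) ^ (co r)) ^ ((g r : ℕ) + 1) := by
      have : (ζ ^ V g) ^ k = (ζ ^ k) ^ (V g) := by
        rw [← zpow_natCast, ← zpow_mul, ← zpow_natCast ζ k, ← zpow_mul, mul_comm]
      rw [this, hV]
      simp only
      rw [zpow_add₀ hk0]
      congr 1
      have hs : ∀ S : Finset (Fin m), (ζ ^ k) ^ (∑ r ∈ S, (co r : ℤ) * (((g r : ℕ) : ℤ) + 1))
          = ∏ r ∈ S, ((ζ ^ k) ^ (co r)) ^ ((g r : ℕ) + 1) := by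
        intro S
        induction S using Finset.induction_on with
        | empty => simp
        | insert a S ha ih =>
          rw [Finset.sum_insert ha, Finset.prod_insert ha, zpow_add₀ hk0, ih]
          congr 1
          rw [zpow_mul, zpow_natCast]
          have : (((g a : ℕ) : ℤ) + 1) = (((g a : ℕ) + 1 : ℕ) : ℤ) := by push_cast; rfl
          rw [this, zpow_natCast]
      exact hs Finset.univ
    rw [e3, hW]
    simp only
    push_cast
    ring
  -- bound of each product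
  have hprod : ∀ k, 1 ≤ k → k < t →
      ‖∏ r, ph c D ((ζ ^ k) ^ (co r))‖ ≤ (2 * c) ^ ((t + 3) / 4) := by
    intro k hk1 hkt
    have hz1 : ζ ^ k ≠ 1 := hζ.pow_ne_one_of_pos_of_lt (by omega) hkt
    have hzt : (ζ ^ k) ^ t = 1 := by rw [← pow_mul, mul_comm, pow_mul, hζt, one_pow]
    have hzn : ∀ j : ℕ, ‖(ζ ^ k) ^ j‖ = 1 := fun j => by
      rw [norm_pow, norm_pow, hn, one_pow, one_pow]
    have hneg := neg_count hz1 hzt ht
    set N := (Finset.range t).filter (fun j => ((ζ ^ k) ^ j).re < 0) with hN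
    set S : Finset (Fin m) := Finset.univ.filter (fun r => ((ζ ^ k) ^ (co r)).re < 0) with hS
    have hsub : N ⊆ S.image co := by
      intro j hj
      rw [hN, Finset.mem_filter, Finset.mem_range] at hj
      have hj1 : 1 ≤ j := by
        rcases Nat.eq_zero_or_pos j with h | h
        · exfalso
          rw [h, pow_zero, Complex.one_re] at hj
          linarith [hj.2]
        · exact h
      obtain ⟨r, hr⟩ := hco j hj1 hj.1
      rw [Finset.mem_image]
      refine ⟨r, ?_, hr⟩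
      rw [hS, Finset.mem_filter]
      exact ⟨Finset.mem_univ _, by rw [hr]; exact hj.2⟩
    have hcard : N.card ≤ S.card := (Finset.card_le_card hsub).trans Finset.card_image_le
    rw [norm_prod]
    have hb : ∏ r, ‖ph c D ((ζ ^ k) ^ (co r))‖ ≤ ∏ r : Fin m, (if r ∈ S then 2 * c else 1) := by
      refine Finset.prod_le_prod (fun r _ => norm_nonneg _) (fun r _ => ?_)
      split_ifs with h
      · rw [hS, Finset.mem_filter] at h
        exact norm_ph_le h0 hc1 D (hzn _) h.2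
      · exact norm_ph_le_one h0 hc1 D (hzn _)
    refine hb.trans ?_
    rw [Finset.prod_ite_mem, Finset.univ_inter, Finset.prod_const]
    exact pow_le_pow_of_le_one (by linarith) h1 (by omega)
  -- conclusion
  have hnorm : L * t ≤ 1 + t * (2 * c) ^ ((t + 3) / 4) := by
    have e1 : L * t = ‖(L : ℂ) * t‖ := by
      rw [norm_mul, Complex.norm_real, Complex.norm_natCast, Real.norm_eq_abs, abs_of_nonneg hL0]
    rw [e1, key]
    refine (norm_sum_le _ _).trans ?_
    have hr : Finset.range t = insert 0 (Finset.Ico 1 t) := by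
      ext k; simp only [Finset.mem_range, Finset.mem_insert, Finset.mem_Ico]; omega
    rw [hr, Finset.sum_insert (by simp)]
    refine add_le_add ?_ ?_
    · rw [pow_zero, one_zpow, one_mul, norm_prod]
      refine Finset.prod_le_one (fun r _ => norm_nonneg _) (fun r _ => ?_)
      exact norm_ph_le_one h0 hc1 D (by rw [one_pow, norm_one])
    · have : ∀ k ∈ Finset.Ico 1 t, ‖(ζ ^ k) ^ s * ∏ r, ph c D ((ζ ^ k) ^ (co r))‖
          ≤ (2 * c) ^ ((t + 3) / 4) := by
        intro k hk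
        rw [Finset.mem_Ico] at hk
        rw [norm_mul, norm_zpow, norm_pow, hn, one_pow, one_zpow, one_mul]
        exact hprod k hk.1 hk.2
      refine (Finset.sum_le_sum this).trans ?_
      rw [Finset.sum_const, nsmul_eq_mul, Nat.card_Ico]
      refine mul_le_mul_of_nonneg_right ?_ (pow_nonneg (by linarith) _)
      exact_mod_cast Nat.sub_le t 1
  have : L ≤ (1 + t * (2 * c) ^ ((t + 3) / 4)) / t := by
    rw [le_div_iff₀ ht0]; exact hnorm
  refine this.trans (le_of_eq ?_)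
  field_simp

end Pool.Agent.helper306_cramer
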