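import Pool.Agent.helper306_cramer.Model
import Pool.Agent.helper306_cramer.Fourier

/-!
# Windows and gap vectors
-/

namespace Pool.Agent.helper306_cramer

open Finset

/-- the part of `A` in the interval `[a, b]` -/
def sg (A : Finset ℕ) (a b : ℕ) : Finset ℕ := A ∩ Finset.Icc a b

/-- the windows of `A`: pairs `a ≤ b` of elements of `A` -/
def Wn (A : Finset ℕ) : Finset (ℕ × ℕ) := (A ×ˢ A).filter (fun ab => ab.1 ≤ ab.2)

/-- the number of windows of `A` with sum `n` -/
def cnt (A : Finset ℕ) (n : ℕ) : ℕ :=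
  ((Wn A).filter (fun ab => ∑ m ∈ sg A ab.1 ab.2, m = n)).card

/-- the number of windows of `A` with sum `n` and `m + 1` elements -/
def cntl (A : Finset ℕ) (m n : ℕ) : ℕ :=
  ((Wn A).filter (fun ab => (sg A ab.1 ab.2).card = m + 1 ∧ ∑ m ∈ sg A ab.1 ab.2, m = n)).card

/-- position of the `i`-th element of the window that starts at `a` and has gap vector `g` -/
def pos {m L : ℕ} (a : ℕ) (g : Fin m → Fin L) (i : ℕ) : ℕ :=
  a + ∑ r ∈ Finset.univ.filter (fun r : Fin m => (r : ℕ) < i), ((g r : ℕ) + 1)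

/-- the window that starts at `a` and has gap vector `g` -/
def tl {m L : ℕ} (a : ℕ) (g : Fin m → Fin L) : Finset ℕ := (Finset.range (m + 1)).image (pos a g)

lemma pos_zero {m L : ℕ} (a : ℕ) (g : Fin m → Fin L) : pos a g 0 = a := by
  simp [pos]

lemma pos_succ {m L : ℕ} (a : ℕ) (g : Fin m → Fin L) {i : ℕ} (hi : i < m) :
    pos a g (i + 1) = pos a g i + ((g ⟨i, hi⟩ : ℕ) + 1) := by
  unfold pos
  have : Finset.univ.filter (fun r : Fin m => (r : ℕ) < i + 1)
      = insert ⟨i, hi⟩ (Finset.univ.filter (fun r : Fin m => (r : ℕ) < i)) := by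
    ext r
    simp only [Finset.mem_filter, Finset.mem_univ, true_and, Finset.mem_insert, Fin.ext_iff]
    omega
  rw [this, Finset.sum_insert (by simp)]
  ring

lemma pos_lt {m L : ℕ} (a : ℕ) (g : Fin m → Fin L) {i j : ℕ} (hij : i < j) (hj : j ≤ m) :
    pos a g i < pos a g j := by
  induction j with
  | zero => omega
  | succ j ih =>
    rw [pos_succ a g (by omega : j < m)]
    rcases Nat.lt_or_ge i j with h | h
    · have := ih h (by omega); omega
    · have : i = j := by omega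
      rw [this]; omega

lemma pos_injOn {m L : ℕ} (a : ℕ) (g : Fin m → Fin L) :
    Set.InjOn (pos a g) (Finset.range (m + 1) : Set ℕ) := by
  intro i hi j hj h
  rw [Finset.mem_coe, Finset.mem_range] at hi hj
  rcases Nat.lt_trichotomy i j with h' | h' | h'
  · have := pos_lt a g h' (by omega); omega
  · exact h'
  · have := pos_lt a g h' (by omega); omega

lemma pos_end {m L : ℕ} (a : ℕ) (g : Fin m → Fin L) :
    pos a g m = a + ∑ r, ((g r : ℕ) + 1) := by
  unfold pos
  rw [Finset.filter_true_of_mem (fun r _ => r.2)]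

lemma card_tl {m L : ℕ} (a : ℕ) (g : Fin m → Fin L) : (tl a g).card = m + 1 := by
  unfold tl
  rw [Finset.card_image_of_injOn (pos_injOn a g), Finset.card_range]

lemma tl_subset {m L : ℕ} (a : ℕ) (g : Fin m → Fin L) :
    tl a g ⊆ Finset.Icc a (pos a g m) := by
  intro x hx
  unfold tl at hx
  rw [Finset.mem_image] at hx
  obtain ⟨i, hi, rfl⟩ := hx
  rw [Finset.mem_range] at hi
  rw [Finset.mem_Icc]
  constructor
  · unfold pos; omega
  · rcases Nat.lt_or_ge i m with h | h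
    · exact (pos_lt a g h le_rfl).le
    · have : i = m := by omega
      rw [this]

lemma sum_tl' {m L : ℕ} (a : ℕ) (g : Fin m → Fin L) :
    ∑ x ∈ tl a g, x = ∑ i ∈ Finset.range (m + 1), pos a g i := by
  unfold tl
  rw [Finset.sum_image (pos_injOn a g)]

lemma sum_tl {m L : ℕ} (a : ℕ) (g : Fin m → Fin L) :
    ∑ x ∈ tl a g, x = (m + 1) * a + ∑ r : Fin m, (m - (r : ℕ)) * ((g r : ℕ) + 1) := by
  rw [sum_tl']
  unfold pos
  rw [Finset.sum_add_distrib, Finset.sum_const, Finset.card_range, smul_eq_mul]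
  congr 1
  simp_rw [Finset.sum_filter]
  rw [Finset.sum_comm]
  refine Finset.sum_congr rfl (fun r _ => ?_)
  rw [← Finset.sum_filter, Finset.sum_const, smul_eq_mul]
  congr 1
  have : (Finset.range (m + 1)).filter (fun i => (r : ℕ) < i) = Finset.Ioc (r : ℕ) m := by
    ext i; simp only [Finset.mem_filter, Finset.mem_range, Finset.mem_Ioc]; omega
  rw [this, Nat.card_Ioc]

/-- every finite set inside an interval of length `L` is a window with a gap vector -/
lemma exists_gap {y L m : ℕ} {B : Finset ℕ} (hB : B ⊆ Finset.Ico y (y + L)) (hc : B.card = m + 1)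
    {a b : ℕ} (ha : a ∈ B) (hb : b ∈ B) (ha' : ∀ x ∈ B, a ≤ x) (hb' : ∀ x ∈ B, x ≤ b) :
    ∃ g : Fin m → Fin L, tl a g = B ∧ pos a g m = b := by
  set e := B.orderEmbOfFin hc with he
  have hemem : ∀ i, e i ∈ B := fun i => Finset.orderEmbOfFin_mem B hc i
  have hrange : ∀ x ∈ B, ∃ i, e i = x := by
    intro x hx
    have := Finset.range_orderEmbOfFin B hc
    have hx' : x ∈ Set.range e := by rw [he, this]; exact hx
    exact hx'
  have hlt : ∀ r : Fin m, e r.castSucc < e r.succ := fun r =>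
    e.strictMono (Fin.castSucc_lt_succ)
  have hI : ∀ i, y ≤ e i ∧ e i < y + L := fun i => by
    have := hB (hemem i); rwa [Finset.mem_Ico] at this
  let g : Fin m → Fin L := fun r => ⟨e r.succ - e r.castSucc - 1, by
    have h1 := hI r.succ; have h2 := hI r.castSucc; have h3 := hlt r; omega⟩
  have h0 : e 0 = a := by
    obtain ⟨i, hi⟩ := hrange a ha
    have h1 : e 0 ≤ e i := e.monotone (Fin.zero_le i)
    have h2 := ha' (e 0) (hemem 0)
    omega
  have hpos : ∀ i (hi : i ≤ m), pos a g i = e ⟨i, by omega⟩ := by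
    intro i
    induction i with
    | zero => intro _; rw [pos_zero]; exact h0.symm
    | succ i ih =>
      intro hi
      rw [pos_succ a g (by omega : i < m), ih (by omega)]
      have h3 := hlt ⟨i, by omega⟩
      simp only [Fin.castSucc_mk, Fin.succ_mk] at h3
      show _ + ((e (Fin.succ ⟨i, _⟩) - e (Fin.castSucc ⟨i, _⟩) - 1) + 1) = _
      simp only [Fin.castSucc_mk, Fin.succ_mk]
      omega
  refine ⟨g, ?_, ?_⟩
  · ext x
    unfold tl
    rw [Finset.mem_image]
    constructor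
    · rintro ⟨i, hi, rfl⟩
      rw [Finset.mem_range] at hi
      rw [hpos i (by omega)]
      exact hemem _
    · intro hx
      obtain ⟨i, hi⟩ := hrange x hx
      refine ⟨i, Finset.mem_range.mpr i.2, ?_⟩
      rw [hpos i (by omega)]
      exact hi
  · rw [hpos m le_rfl]
    obtain ⟨i, hi⟩ := hrange b hb
    have h1 : e i ≤ e ⟨m, by omega⟩ := e.monotone (by
      rw [Fin.le_def]; simp only; omega)
    have h2 := hb' (e ⟨m, by omega⟩) (hemem _)
    omega

/-- the weight of a gap vector -/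
noncomputable def gw (c : ℝ) {m L : ℕ} (g : Fin m → Fin L) : ℝ := ∏ r, (c * (1 - c) ^ (g r : ℕ))

lemma gw_nonneg {c : ℝ} (h0 : 0 ≤ c) (h1 : c ≤ 1) {m L : ℕ} (g : Fin m → Fin L) :
    0 ≤ gw c g :=
  Finset.prod_nonneg (fun _ _ => mul_nonneg h0 (pow_nonneg (by linarith) _))

/-- total weight of all gap vectors -/
lemma sum_gw_le {c : ℝ} (h0 : 0 ≤ c) (h1 : c ≤ 1) (m L : ℕ) :
    ∑ g : Fin m → Fin L, gw c g ≤ 1 := by
  unfold gw
  have : ∏ r : Fin m, ∑ v : Fin L, c * (1 - c) ^ (v : ℕ)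
      = ∑ g : Fin m → Fin L, ∏ r, (c * (1 - c) ^ (g r : ℕ)) := by
    rw [Finset.prod_univ_sum, Fintype.piFinset_univ]
  rw [← this]
  refine Finset.prod_le_one (fun r _ => ?_) (fun r _ => geo_sum_le h0 h1 L)
  exact Finset.sum_nonneg (fun v _ => mul_nonneg h0 (pow_nonneg (by linarith) _))

/-- the probability that a given window occurs -/
lemma Ex_tl {p : ℕ → ℝ} {c : ℝ} {y L : ℕ} (hc : ∀ m ∈ Finset.Ico y (y + L), p m = c)
    {m K : ℕ} (a : ℕ) (g : Fin m → Fin K) (ha : y ≤ a) (hb : pos a g m < y + L) :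
    Ex p (Finset.Ico y (y + L)) (fun A => if sg A a (pos a g m) = tl a g then 1 else 0)
      = c * gw c g := by
  have hsub : Finset.Icc a (pos a g m) ⊆ Finset.Ico y (y + L) := by
    intro x hx
    rw [Finset.mem_Icc] at hx
    rw [Finset.mem_Ico]; omega
  have h1 := Ex_inter p hsub (fun B => if B = tl a g then (1 : ℝ) else 0)
  unfold sg
  rw [h1, Ex_indicator p (tl_subset a g), wt_const (tl_subset a g) (fun m hm => hc m (hsub hm)),
    card_tl]
  have h2 : (Finset.Icc a (pos a g m)).card - (m + 1) = ∑ r, (g r : ℕ) := by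
    rw [Nat.card_Icc, pos_end]
    rw [Finset.sum_add_distrib]
    simp only [Finset.sum_const, Finset.card_univ, Fintype.card_fin, smul_eq_mul, mul_one]
    omega
  rw [h2]
  unfold gw
  rw [Finset.prod_mul_distrib, Finset.prod_const, Finset.card_univ, Fintype.card_fin,
    Finset.prod_pow_eq_pow_sum]
  ring

lemma mem_sg {A : Finset ℕ} {a b x : ℕ} : x ∈ sg A a b ↔ x ∈ A ∧ a ≤ x ∧ x ≤ b := by
  unfold sg; rw [Finset.mem_inter, Finset.mem_Icc]

/-- the count of windows with `m + 1` elements and sum `n` is bounded by a sum over gap vectors -/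
lemma cntl_le {y L m n : ℕ} {A : Finset ℕ} (hA : A ⊆ Finset.Ico y (y + L)) :
    (cntl A m n : ℝ) ≤ ∑ a ∈ Finset.Ico y (y + L), ∑ g : Fin m → Fin L,
      if (pos a g m < y + L ∧ ∑ x ∈ tl a g, x = n) then
        (if sg A a (pos a g m) = tl a g then (1 : ℝ) else 0) else 0 := by
  classical
  set U := ((Finset.Ico y (y + L)) ×ˢ (Finset.univ : Finset (Fin m → Fin L))).filter
    (fun ag => (pos ag.1 ag.2 m < y + L ∧ ∑ x ∈ tl ag.1 ag.2, x = n) ∧
      sg A ag.1 (pos ag.1 ag.2 m) = tl ag.1 ag.2) with hU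
  have h1 : cntl A m n ≤ U.card := by
    unfold cntl
    refine (Finset.card_le_card (t := U.image (fun ag => (ag.1, pos ag.1 ag.2 m))) ?_).trans
      Finset.card_image_le
    rintro ⟨a, b⟩ hab
    simp only [Wn, Finset.mem_filter, Finset.mem_product] at hab
    obtain ⟨⟨⟨ha, hb⟩, hle⟩, hcard, hsum⟩ := hab
    have hamem : a ∈ sg A a b := mem_sg.mpr ⟨ha, le_rfl, hle⟩
    have hbmem : b ∈ sg A a b := mem_sg.mpr ⟨hb, hle, le_rfl⟩
    obtain ⟨g, hg1, hg2⟩ := exists_gap (y := y) (L := L) (B := sg A a b)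
      (fun x hx => hA (mem_sg.mp hx).1) hcard hamem hbmem
      (fun x hx => (mem_sg.mp hx).2.1) (fun x hx => (mem_sg.mp hx).2.2)
    have haI := hA ha
    have hbI := hA hb
    rw [Finset.mem_Ico] at haI hbI
    rw [Finset.mem_image]
    refine ⟨(a, g), ?_, by simp only [hg2]⟩
    rw [hU]
    simp only [Finset.mem_filter, Finset.mem_product, Finset.mem_univ, and_true,
      Finset.mem_Ico]
    rw [hg1, hg2]
    exact ⟨haI, ⟨hbI.2, hsum⟩, rfl⟩
  have h2 : (U.card : ℝ) = ∑ a ∈ Finset.Ico y (y + L), ∑ g : Fin m → Fin L,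
      if (pos a g m < y + L ∧ ∑ x ∈ tl a g, x = n) then
        (if sg A a (pos a g m) = tl a g then (1 : ℝ) else 0) else 0 := by
    rw [hU, Finset.card_filter, Finset.sum_product]
    push_cast
    refine Finset.sum_congr rfl (fun a _ => Finset.sum_congr rfl (fun g _ => ?_))
    by_cases h : (pos a g m < y + L ∧ ∑ x ∈ tl a g, x = n)
    · rw [if_pos h]
      by_cases h' : sg A a (pos a g m) = tl a g
      · rw [if_pos h', if_pos ⟨h, h'⟩]
      · rw [if_neg h', if_neg (fun hh => h' hh.2)]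
    · rw [if_neg h, if_neg (fun hh => h hh.1)]
  rw [← h2]
  exact_mod_cast h1

/-- first moment bound -/
theorem Ex_cntl_le {p : ℕ → ℝ} (hp0 : ∀ m, 0 ≤ p m) (hp1 : ∀ m, p m ≤ 1) {c : ℝ} {y L : ℕ}
    (hc : ∀ m ∈ Finset.Ico y (y + L), p m = c) (h0 : 0 ≤ c) (h2 : 2 * c ≤ 1) (m n : ℕ) :
    Ex p (Finset.Ico y (y + L)) (fun A => (cntl A m n : ℝ))
      ≤ c * (1 / ((m : ℝ) + 1) + (2 * c) ^ ((m + 4) / 4)) := by
  classical
  have hc1 : c ≤ 1 := by linarith
  have step1 : Ex p (Finset.Ico y (y + L)) (fun A => (cntl A m n : ℝ))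
      ≤ ∑ a ∈ Finset.Ico y (y + L), ∑ g : Fin m → Fin L,
        if (pos a g m < y + L ∧ ∑ x ∈ tl a g, x = n) then c * gw c g else 0 := by
    refine (Ex_mono hp0 hp1 (fun A hA => cntl_le (m := m) (n := n) hA)).trans (le_of_eq ?_)
    rw [Ex_sum]
    refine Finset.sum_congr rfl (fun a ha => ?_)
    rw [Ex_sum]
    refine Finset.sum_congr rfl (fun g _ => ?_)
    by_cases h : (pos a g m < y + L ∧ ∑ x ∈ tl a g, x = n)
    · simp only [if_pos h]
      exact Ex_tl hc a g (Finset.mem_Ico.mp ha).1 h.1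
    · simp only [if_neg h]
      exact Ex_const _ _ _
  have hsplit : ∀ g : Fin m → Fin L, ∑ a ∈ Finset.Ico y (y + L),
      (if (pos a g m < y + L ∧ ∑ x ∈ tl a g, x = n) then c * gw c g else 0)
      ≤ c * (gw c g * (if (((m + 1 : ℕ) : ℤ)) ∣ (-(n : ℤ)) +
          ∑ r : Fin m, ((m - (r : ℕ) : ℕ) : ℤ) * (((g r : ℕ) : ℤ) + 1) then (1 : ℝ) else 0)) := by
    intro g
    set Z : ℕ := ∑ r : Fin m, (m - (r : ℕ)) * ((g r : ℕ) + 1) with hZ
    have hZc : ∑ r : Fin m, ((m - (r : ℕ) : ℕ) : ℤ) * (((g r : ℕ) : ℤ) + 1) = (Z : ℤ) := by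
      rw [hZ]; push_cast; rfl
    rw [hZc]
    have hw : 0 ≤ c * gw c g := mul_nonneg h0 (gw_nonneg h0 hc1 g)
    by_cases hex : ∃ a, (m + 1) * a + Z = n
    · obtain ⟨a₀, ha₀⟩ := hex
      have hdvd : (((m + 1 : ℕ) : ℤ)) ∣ (-(n : ℤ)) + (Z : ℤ) := by
        refine ⟨-(a₀ : ℤ), ?_⟩
        rw [← ha₀]; push_cast; ring
      rw [if_pos hdvd, mul_one]
      calc ∑ a ∈ Finset.Ico y (y + L),
            (if (pos a g m < y + L ∧ ∑ x ∈ tl a g, x = n) then c * gw c g else 0)
          ≤ ∑ a ∈ Finset.Ico y (y + L), (if a = a₀ then c * gw c g else 0) := by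
            refine Finset.sum_le_sum (fun a _ => ?_)
            by_cases h : (pos a g m < y + L ∧ ∑ x ∈ tl a g, x = n)
            · have : a = a₀ := by
                have h3 := h.2
                rw [sum_tl, ← hZ] at h3
                have h4 : (m + 1) * a = (m + 1) * a₀ := by omega
                exact Nat.eq_of_mul_eq_mul_left (by omega) h4
              rw [if_pos h, if_pos this]
            · rw [if_neg h]; split_ifs <;> simp [hw]
        _ ≤ c * gw c g := by
            rw [Finset.sum_ite_eq']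
            split_ifs <;> simp [hw]
    · have : ∑ a ∈ Finset.Ico y (y + L),
            (if (pos a g m < y + L ∧ ∑ x ∈ tl a g, x = n) then c * gw c g else 0) = 0 := by
        refine Finset.sum_eq_zero (fun a _ => ?_)
        rw [if_neg]
        rintro ⟨_, h⟩
        rw [sum_tl, ← hZ] at h
        exact hex ⟨a, h⟩
      rw [this]
      refine mul_nonneg h0 (mul_nonneg (gw_nonneg h0 hc1 g) (by split_ifs <;> norm_num))
  have step2 := fourier_bound h0 h2 (m + 1) m L (by omega) (fun r : Fin m => m - (r : ℕ))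
    (fun j hj1 hj2 => ⟨⟨m - j, by omega⟩, by simp only; omega⟩) (-(n : ℤ))
  calc Ex p (Finset.Ico y (y + L)) (fun A => (cntl A m n : ℝ))
      ≤ ∑ a ∈ Finset.Ico y (y + L), ∑ g : Fin m → Fin L,
        if (pos a g m < y + L ∧ ∑ x ∈ tl a g, x = n) then c * gw c g else 0 := step1
    _ = ∑ g : Fin m → Fin L, ∑ a ∈ Finset.Ico y (y + L),
        if (pos a g m < y + L ∧ ∑ x ∈ tl a g, x = n) then c * gw c g else 0 := Finset.sum_comm
    _ ≤ ∑ g : Fin m → Fin L, c * (gw c g * (if (((m + 1 : ℕ) : ℤ)) ∣ (-(n : ℤ)) +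
          ∑ r : Fin m, ((m - (r : ℕ) : ℕ) : ℤ) * (((g r : ℕ) : ℤ) + 1) then (1 : ℝ) else 0)) :=
        Finset.sum_le_sum (fun g _ => hsplit g)
    _ = c * ∑ g : Fin m → Fin L, (gw c g * (if (((m + 1 : ℕ) : ℤ)) ∣ (-(n : ℤ)) +
          ∑ r : Fin m, ((m - (r : ℕ) : ℕ) : ℤ) * (((g r : ℕ) : ℤ) + 1) then (1 : ℝ) else 0)) := by
        rw [Finset.mul_sum]
    _ ≤ c * (1 / ((m : ℝ) + 1) + (2 * c) ^ ((m + 4) / 4)) := by
        refine mul_le_mul_of_nonneg_left ?_ h0
        refine step2.trans (le_of_eq ?_)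
        push_cast
        rfl

end Pool.Agent.helper306_cramer
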