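import Pool.Agent.helper306_cramer.Gap

/-!
# Intersecting windows with the same sum
-/

namespace Pool.Agent.helper306_cramer

open Finset

/-- the number of pairs of intersecting windows `[a, b]`, `[a', b']` of `A` with
`a < a' ≤ b < b'` and with the same sum, which is at most `x` -/
def inn (A : Finset ℕ) (x : ℕ) : ℕ :=
  (((A ×ˢ A) ×ˢ (A ×ˢ A)).filter (fun q => q.1.1 < q.1.2 ∧ q.1.2 ≤ q.2.1 ∧ q.2.1 < q.2.2 ∧
    ∑ m ∈ sg A q.1.1 q.2.1, m = ∑ m ∈ sg A q.1.2 q.2.2, m ∧ ∑ m ∈ sg A q.1.1 q.2.1, m ≤ x)).card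

lemma pos_append_left {j h L : ℕ} (a : ℕ) (u : Fin j → Fin L) (v : Fin h → Fin L) {i : ℕ}
    (hi : i ≤ j) : pos a (Fin.append u v) i = pos a u i := by
  unfold pos
  congr 1
  rw [Finset.sum_filter, Finset.sum_filter, Fin.sum_univ_add]
  have h2 : ∑ r : Fin h, (if ((Fin.natAdd j r : Fin (j + h)) : ℕ) < i then
      (((Fin.append u v (Fin.natAdd j r) : Fin L) : ℕ) + 1) else 0) = 0 := by
    refine Finset.sum_eq_zero (fun r _ => ?_)
    rw [if_neg]; rw [Fin.val_natAdd]; omega
  rw [h2, add_zero]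
  refine Finset.sum_congr rfl (fun r _ => ?_)
  rw [Fin.val_castAdd, Fin.append_left]

lemma pos_append_right {j h L : ℕ} (a : ℕ) (u : Fin j → Fin L) (v : Fin h → Fin L) (i : ℕ) :
    pos a (Fin.append u v) (j + i) = pos (pos a u j) v i := by
  rw [pos_end]
  unfold pos
  rw [Finset.sum_filter, Finset.sum_filter, Fin.sum_univ_add, add_assoc]
  congr 1
  congr 1
  · refine Finset.sum_congr rfl (fun r _ => ?_)
    rw [Fin.val_castAdd, Fin.append_left, if_pos (by have := r.2; omega)]
  · refine Finset.sum_congr rfl (fun r _ => ?_)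
    rw [Fin.val_natAdd, Fin.append_right]
    by_cases hr : (r : ℕ) < i
    · rw [if_pos hr, if_pos (by omega)]
    · rw [if_neg hr, if_neg (by omega)]

lemma gw_append {c : ℝ} {j h L : ℕ} (u : Fin j → Fin L) (v : Fin h → Fin L) :
    gw c (Fin.append u v) = gw c u * gw c v := by
  unfold gw
  rw [Fin.prod_univ_add]
  congr 1
  · exact Finset.prod_congr rfl (fun r _ => by rw [Fin.append_left])
  · exact Finset.prod_congr rfl (fun r _ => by rw [Fin.append_right])

lemma sum_pos_tail {j h L : ℕ} (a : ℕ) (u : Fin j → Fin L) (v : Fin h → Fin L) :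
    ∑ r ∈ Finset.Ioc j (j + h), pos a (Fin.append u v) r
      = h * pos a u j + ∑ r : Fin h, (h - (r : ℕ)) * ((v r : ℕ) + 1) := by
  have e1 : ∑ r ∈ Finset.Ioc j (j + h), pos a (Fin.append u v) r
      = ∑ s ∈ Finset.Ioc 0 h, pos (pos a u j) v s := by
    have : Finset.Ioc j (j + h) = (Finset.Ioc 0 h).image (fun s => j + s) := by
      ext r
      simp only [Finset.mem_Ioc, Finset.mem_image]
      constructor
      · intro hr; exact ⟨r - j, by omega, by omega⟩
      · rintro ⟨s, hs, rfl⟩; omega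
    rw [this, Finset.sum_image (fun s _ s' _ hss => by simpa using hss)]
    exact Finset.sum_congr rfl (fun s _ => pos_append_right a u v s)
  have e2 := sum_tl' (pos a u j) v
  rw [sum_tl] at e2
  have e3 : ∑ i ∈ Finset.range (h + 1), pos (pos a u j) v i
      = pos a u j + ∑ s ∈ Finset.Ioc 0 h, pos (pos a u j) v s := by
    have : Finset.range (h + 1) = insert 0 (Finset.Ioc 0 h) := by
      ext r; simp only [Finset.mem_range, Finset.mem_insert, Finset.mem_Ioc]; omega
    rw [this, Finset.sum_insert (by simp), pos_zero]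
  rw [e1]
  rw [e3] at e2
  have : (h + 1) * pos a u j = h * pos a u j + pos a u j := by ring
  omega

lemma sum_pos_head {m L : ℕ} (a : ℕ) (g : Fin m → Fin L) (i : ℕ) :
    ∑ r ∈ Finset.range i, pos a g r = i * a + ∑ r ∈ Finset.range i, pos 0 g r := by
  unfold pos
  rw [Finset.sum_add_distrib, Finset.sum_const, Finset.card_range, smul_eq_mul]
  congr 1
  exact Finset.sum_congr rfl (fun r _ => by rw [zero_add])

/-- for fixed shape, the expected number of solutions of `ΣU = ΣV` -/
lemma shape_bound {c : ℝ} (h0 : 0 ≤ c) (h2 : 32 * c ≤ 1) (I : Finset ℕ) (L t h j : ℕ)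
    (ht : 1 ≤ t) (hth : t ≤ h) (hij : h + t ≤ j) :
    ∑ a ∈ I, ∑ g : Fin (j + h) → Fin L,
      (if ∑ r ∈ Finset.range (h + t), pos a g r = ∑ r ∈ Finset.Ioc j (j + h), pos a g r
        then c * gw c g else 0) ≤ c * (2 / t) := by
  classical
  have hc1 : c ≤ 1 := by linarith
  have ht0 : (0 : ℝ) < t := by exact_mod_cast ht
  -- reorganise
  have e1 : ∀ a, ∑ g : Fin (j + h) → Fin L,
      (if ∑ r ∈ Finset.range (h + t), pos a g r = ∑ r ∈ Finset.Ioc j (j + h), pos a g r
        then c * gw c g else 0)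
      = ∑ u : Fin j → Fin L, ∑ v : Fin h → Fin L,
        (if t * a + ∑ r ∈ Finset.range (h + t), pos 0 u r
            = h * pos 0 u j + ∑ r : Fin h, (h - (r : ℕ)) * ((v r : ℕ) + 1)
          then c * (gw c u * gw c v) else 0) := by
    intro a
    rw [← (Fin.appendEquiv j h).sum_comp, Fintype.sum_prod_type]
    refine Finset.sum_congr rfl (fun u _ => Finset.sum_congr rfl (fun v _ => ?_))
    have e0 : (Fin.appendEquiv j h) (u, v) = Fin.append u v := rfl
    rw [e0, sum_pos_tail, gw_append]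
    have e2 : ∑ r ∈ Finset.range (h + t), pos a (Fin.append u v) r
        = (h + t) * a + ∑ r ∈ Finset.range (h + t), pos 0 u r := by
      rw [← sum_pos_head a u (h + t)]
      refine Finset.sum_congr rfl (fun r hr => ?_)
      rw [Finset.mem_range] at hr
      exact pos_append_left a u v (by omega)
    have e3 : pos a u j = a + pos 0 u j := by unfold pos; omega
    rw [e2, e3]
    have hiff : ((h + t) * a + ∑ r ∈ Finset.range (h + t), pos 0 u r
          = h * (a + pos 0 u j) + ∑ r : Fin h, (h - (r : ℕ)) * ((v r : ℕ) + 1)) ↔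
        (t * a + ∑ r ∈ Finset.range (h + t), pos 0 u r
            = h * pos 0 u j + ∑ r : Fin h, (h - (r : ℕ)) * ((v r : ℕ) + 1)) := by
      have : (h + t) * a = h * a + t * a := by ring
      have h' : h * (a + pos 0 u j) = h * a + h * pos 0 u j := by ring
      rw [this, h']
      omega
    by_cases hh : (t * a + ∑ r ∈ Finset.range (h + t), pos 0 u r
            = h * pos 0 u j + ∑ r : Fin h, (h - (r : ℕ)) * ((v r : ℕ) + 1))
    · rw [if_pos (hiff.mpr hh), if_pos hh]
    · rw [if_neg (fun h' => hh (hiff.mp h')), if_neg hh]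
  rw [Finset.sum_congr rfl (fun a _ => e1 a), Finset.sum_comm]
  -- for each u bound the sum over a and v
  have e4 : ∀ u : Fin j → Fin L, ∑ a ∈ I, ∑ v : Fin h → Fin L,
        (if t * a + ∑ r ∈ Finset.range (h + t), pos 0 u r
            = h * pos 0 u j + ∑ r : Fin h, (h - (r : ℕ)) * ((v r : ℕ) + 1)
          then c * (gw c u * gw c v) else 0) ≤ c * gw c u * (2 / t) := by
    intro u
    set Q : ℕ := ∑ r ∈ Finset.range (h + t), pos 0 u r with hQ
    set U : ℕ := h * pos 0 u j with hU
    rw [Finset.sum_comm]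
    have e5 : ∀ v : Fin h → Fin L, ∑ a ∈ I,
        (if t * a + Q = U + ∑ r : Fin h, (h - (r : ℕ)) * ((v r : ℕ) + 1)
          then c * (gw c u * gw c v) else 0)
        ≤ c * gw c u * (gw c v * (if (t : ℤ) ∣ ((U : ℤ) - Q) +
          ∑ r : Fin h, ((h - (r : ℕ) : ℕ) : ℤ) * (((v r : ℕ) : ℤ) + 1) then (1 : ℝ) else 0)) := by
      intro v
      set Z : ℕ := ∑ r : Fin h, (h - (r : ℕ)) * ((v r : ℕ) + 1) with hZ
      have hZc : ∑ r : Fin h, ((h - (r : ℕ) : ℕ) : ℤ) * (((v r : ℕ) : ℤ) + 1) = (Z : ℤ) := by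
        rw [hZ]; push_cast; rfl
      rw [hZc]
      have hu := gw_nonneg h0 hc1 u
      have hv := gw_nonneg h0 hc1 v
      have hw : 0 ≤ c * (gw c u * gw c v) := mul_nonneg h0 (mul_nonneg hu hv)
      by_cases hex : ∃ a, t * a + Q = U + Z
      · obtain ⟨a₀, ha₀⟩ := hex
        have hdvd : (t : ℤ) ∣ ((U : ℤ) - Q) + (Z : ℤ) := by
          refine ⟨(a₀ : ℤ), ?_⟩
          have : ((t * a₀ + Q : ℕ) : ℤ) = ((U + Z : ℕ) : ℤ) := by rw [ha₀]
          push_cast at this
          linarith
        rw [if_pos hdvd, mul_one]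
        calc ∑ a ∈ I, (if t * a + Q = U + Z then c * (gw c u * gw c v) else 0)
            ≤ ∑ a ∈ I, (if a = a₀ then c * (gw c u * gw c v) else 0) := by
              refine Finset.sum_le_sum (fun a _ => ?_)
              by_cases hh : t * a + Q = U + Z
              · have : a = a₀ := by
                  have h4 : t * a = t * a₀ := by omega
                  exact Nat.eq_of_mul_eq_mul_left (by omega) h4
                rw [if_pos hh, if_pos this]
              · rw [if_neg hh]; split_ifs <;> simp [hw]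
          _ ≤ c * (gw c u * gw c v) := by
              rw [Finset.sum_ite_eq']
              split_ifs <;> simp [hw]
          _ = c * gw c u * gw c v := by ring
      · have : ∑ a ∈ I, (if t * a + Q = U + Z then c * (gw c u * gw c v) else 0) = 0 := by
          refine Finset.sum_eq_zero (fun a _ => ?_)
          rw [if_neg (fun hh => hex ⟨a, hh⟩)]
        rw [this]
        refine mul_nonneg (mul_nonneg h0 hu) (mul_nonneg hv (by split_ifs <;> norm_num))
    refine (Finset.sum_le_sum (fun v _ => e5 v)).trans ?_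
    rw [← Finset.mul_sum]
    refine mul_le_mul_of_nonneg_left ?_ (mul_nonneg h0 (gw_nonneg h0 hc1 u))
    have hf := fourier_bound h0 (by linarith) t h L ht (fun r : Fin h => h - (r : ℕ))
      (fun j hj1 hj2 => ⟨⟨h - j, by omega⟩, by simp only; omega⟩) ((U : ℤ) - Q)
    refine hf.trans ?_
    have hpow : (2 * c) ^ ((t + 3) / 4) ≤ 1 / t := by
      have h3 : (2 * c) ^ ((t + 3) / 4) ≤ (1 / 16 : ℝ) ^ ((t + 3) / 4) :=
        pow_le_pow_left₀ (by linarith) (by linarith) _
      refine h3.trans ?_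
      have h4 : (1 / 16 : ℝ) ^ ((t + 3) / 4) = (1 / 2 : ℝ) ^ (4 * ((t + 3) / 4)) := by
        rw [pow_mul]; norm_num
      rw [h4]
      have h5 : (1 / 2 : ℝ) ^ (4 * ((t + 3) / 4)) ≤ (1 / 2 : ℝ) ^ t :=
        pow_le_pow_of_le_one (by norm_num) (by norm_num) (by omega)
      refine h5.trans ?_
      rw [one_div, inv_pow, one_div]
      refine inv_anti₀ ht0 ?_
      exact_mod_cast (Nat.lt_two_pow_self (n := t)).le
    calc 1 / (t : ℝ) + (2 * c) ^ ((t + 3) / 4) ≤ 1 / t + 1 / t := by linarith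
      _ = 2 / t := by ring
  refine (Finset.sum_le_sum (fun u _ => e4 u)).trans ?_
  have : ∑ u : Fin j → Fin L, c * gw c u * (2 / t) = c * (2 / t) * ∑ u : Fin j → Fin L, gw c u := by
    rw [Finset.mul_sum]
    exact Finset.sum_congr rfl (fun u _ => by ring)
  rw [this]
  have h3 := sum_gw_le h0 hc1 j L
  have h4 : 0 ≤ c * (2 / t) := by positivity
  nlinarith

/-- the shapes -/
def Sh (K : ℕ) : Finset (ℕ × ℕ × ℕ) :=
  ((Finset.Icc 1 K) ×ˢ (Finset.Icc 1 K) ×ˢ (Finset.range K)).filter (fun τ => τ.2.1 ≤ τ.1)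

/-- configurations of a given shape -/
noncomputable def Uc (A : Finset ℕ) (y L : ℕ) (h t k : ℕ) :
    Finset (ℕ × (Fin (h + t + k + h) → Fin L)) := by
  classical
  exact ((Finset.Ico y (y + L)) ×ˢ (Finset.univ : Finset (Fin (h + t + k + h) → Fin L))).filter
    (fun ag => (pos ag.1 ag.2 (h + t + k + h) < y + L ∧
      ∑ r ∈ Finset.range (h + t), pos ag.1 ag.2 r
        = ∑ r ∈ Finset.Ioc (h + t + k) (h + t + k + h), pos ag.1 ag.2 r) ∧
      sg A ag.1 (pos ag.1 ag.2 (h + t + k + h)) = tl ag.1 ag.2)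

lemma inn_le_card {y L x : ℕ} (hy : 1 ≤ y) (hL : L ≤ y) {A : Finset ℕ}
    (hA : A ⊆ Finset.Ico y (y + L)) :
    inn A x ≤ ∑ τ ∈ Sh (x / y), (Uc A y L τ.1 τ.2.1 τ.2.2).card := by
  classical
  unfold inn
  refine (Finset.card_le_card (t := (Sh (x / y)).biUnion (fun τ =>
    (Uc A y L τ.1 τ.2.1 τ.2.2).image (fun ag => ((ag.1, pos ag.1 ag.2 (τ.1 + τ.2.1)),
      (pos ag.1 ag.2 (τ.1 + τ.2.1 + τ.2.2), pos ag.1 ag.2 (τ.1 + τ.2.1 + τ.2.2 + τ.1)))))) ?_).trans
    (Finset.card_biUnion_le.trans (Finset.sum_le_sum (fun τ _ => Finset.card_image_le)))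
  rintro ⟨⟨a, a'⟩, ⟨b, b'⟩⟩ hq
  simp only [Finset.mem_filter, Finset.mem_product] at hq
  obtain ⟨⟨⟨ha, ha'⟩, hb, hb'⟩, haa', ha'b, hbb', heq, hx⟩ := hq
  have haW : a ∈ sg A a b' := mem_sg.mpr ⟨ha, le_rfl, by omega⟩
  have hbW : b' ∈ sg A a b' := mem_sg.mpr ⟨hb', by omega, le_rfl⟩
  obtain ⟨m, hm⟩ : ∃ m, (sg A a b').card = m + 1 :=
    ⟨(sg A a b').card - 1, by have := Finset.card_pos.mpr ⟨a, haW⟩; omega⟩
  obtain ⟨g, hg1, hg2⟩ := exists_gap (y := y) (L := L) (B := sg A a b')
      (fun x hx => hA (mem_sg.mp hx).1) hm haW hbW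
      (fun x hx => (mem_sg.mp hx).2.1) (fun x hx => (mem_sg.mp hx).2.2)
  have hmem : ∀ z, z ∈ A → a ≤ z → z ≤ b' → ∃ r, r ≤ m ∧ pos a g r = z := by
    intro z h1 h2 h3
    have : z ∈ tl a g := by rw [hg1]; exact mem_sg.mpr ⟨h1, h2, h3⟩
    unfold tl at this
    rw [Finset.mem_image] at this
    obtain ⟨r, hr, hrz⟩ := this
    exact ⟨r, by rw [Finset.mem_range] at hr; omega, hrz⟩
  have hposA : ∀ r, r ≤ m → pos a g r ∈ A := by
    intro r hr
    have : pos a g r ∈ tl a g := by
      unfold tl; exact Finset.mem_image_of_mem _ (Finset.mem_range.mpr (by omega))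
    rw [hg1] at this
    exact (mem_sg.mp this).1
  have hmono : ∀ r s, r ≤ m → s ≤ m → pos a g r ≤ pos a g s → r ≤ s := by
    intro r s hr hs h
    by_contra hlt
    have := pos_lt a g (by omega : s < r) hr
    omega
  have hmono' : ∀ r s, r ≤ s → s ≤ m → pos a g r ≤ pos a g s := by
    intro r s hrs hs
    rcases Nat.lt_or_ge r s with h | h
    · exact (pos_lt a g h hs).le
    · have : r = s := by omega
      rw [this]
  obtain ⟨i, hi, hia⟩ := hmem a' ha' (by omega) (by omega)
  obtain ⟨j, hj, hjb⟩ := hmem b hb (by omega) (by omega)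
  have hp0 : pos a g 0 = a := pos_zero a g
  have hi1 : 1 ≤ i := by
    rcases Nat.eq_zero_or_pos i with h | h
    · rw [h, hp0] at hia; omega
    · exact h
  have hij : i ≤ j := hmono i j hi hj (by omega)
  have hjm : j < m := by
    rcases Nat.lt_or_ge j m with h | h
    · exact h
    · have : j = m := by omega
      rw [this, hg2] at hjb; omega
  have hsum1 : ∑ z ∈ sg A a b, z = ∑ r ∈ Finset.range (j + 1), pos a g r := by
    have : sg A a b = (Finset.range (j + 1)).image (pos a g) := by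
      ext z
      rw [mem_sg, Finset.mem_image]
      constructor
      · rintro ⟨h1, h2, h3⟩
        obtain ⟨r, hr, hrz⟩ := hmem z h1 h2 (by omega)
        exact ⟨r, Finset.mem_range.mpr (by have := hmono r j hr hj (by omega); omega), hrz⟩
      · rintro ⟨r, hr, rfl⟩
        rw [Finset.mem_range] at hr
        refine ⟨hposA r (by omega), ?_, ?_⟩
        · have := hmono' 0 r (by omega) (by omega); omega
        · have := hmono' r j (by omega) hj; omega
    rw [this, Finset.sum_image]
    exact (pos_injOn a g).mono (by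
      intro r hr; rw [Finset.mem_coe, Finset.mem_range] at hr ⊢; omega)
  have hsum2 : ∑ z ∈ sg A a' b', z = ∑ r ∈ Finset.Icc i m, pos a g r := by
    have : sg A a' b' = (Finset.Icc i m).image (pos a g) := by
      ext z
      rw [mem_sg, Finset.mem_image]
      constructor
      · rintro ⟨h1, h2, h3⟩
        obtain ⟨r, hr, hrz⟩ := hmem z h1 (by omega) h3
        exact ⟨r, Finset.mem_Icc.mpr ⟨hmono i r hi hr (by omega), hr⟩, hrz⟩
      · rintro ⟨r, hr, rfl⟩
        rw [Finset.mem_Icc] at hr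
        refine ⟨hposA r (by omega), ?_, ?_⟩
        · have := hmono' i r (by omega) (by omega); omega
        · have := hmono' r m (by omega) le_rfl; omega
    rw [this, Finset.sum_image]
    exact (pos_injOn a g).mono (by
      intro r hr; rw [Finset.mem_coe, Finset.mem_Icc] at hr
      rw [Finset.mem_coe, Finset.mem_range]; omega)
  have heq2 : ∑ r ∈ Finset.range i, pos a g r = ∑ r ∈ Finset.Ioc j m, pos a g r := by
    have e1 : ∑ r ∈ Finset.range (j + 1), pos a g r
        = ∑ r ∈ Finset.range i, pos a g r + ∑ r ∈ Finset.Icc i j, pos a g r := by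
      rw [← Finset.sum_union]
      · congr 1; ext r; simp only [Finset.mem_range, Finset.mem_union, Finset.mem_Icc]; omega
      · rw [Finset.disjoint_left]; intro r; simp only [Finset.mem_range, Finset.mem_Icc]; omega
    have e2 : ∑ r ∈ Finset.Icc i m, pos a g r
        = ∑ r ∈ Finset.Icc i j, pos a g r + ∑ r ∈ Finset.Ioc j m, pos a g r := by
      rw [← Finset.sum_union]
      · congr 1; ext r; simp only [Finset.mem_union, Finset.mem_Icc, Finset.mem_Ioc]; omega
      · rw [Finset.disjoint_left]; intro r; simp only [Finset.mem_Icc, Finset.mem_Ioc]; omega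
    rw [hsum1, hsum2, e1, e2] at heq
    omega
  -- the sizes
  have hay : y ≤ a := (Finset.mem_Ico.mp (hA ha)).1
  have hlow : ∀ r, y ≤ pos a g r := fun r => by unfold pos; omega
  have hup : ∀ r, r ≤ m → pos a g r < y + L := fun r hr =>
    (Finset.mem_Ico.mp (hA (hposA r hr))).2
  obtain ⟨h, rfl⟩ : ∃ h, m = j + h := ⟨m - j, by omega⟩
  have hh1 : 1 ≤ h := by omega
  have hih : h < i := by
    by_contra hcon
    push Not at hcon
    have f1 : ∑ r ∈ Finset.range i, pos a g r < ∑ r ∈ Finset.range i, pos a g (j + 1 + r) := by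
      refine Finset.sum_lt_sum_of_nonempty ⟨0, Finset.mem_range.mpr (by omega)⟩ (fun r hr => ?_)
      rw [Finset.mem_range] at hr
      exact pos_lt a g (by omega) (by omega)
    have f2 : ∑ r ∈ Finset.range i, pos a g (j + 1 + r) ≤ ∑ r ∈ Finset.Ioc j (j + h), pos a g r := by
      rw [← Finset.sum_image (f := pos a g) (g := fun r => j + 1 + r)
        (fun r _ s _ hrs => by simpa using hrs)]
      refine Finset.sum_le_sum_of_subset (fun r hr => ?_)
      rw [Finset.mem_image] at hr
      obtain ⟨s, hs, rfl⟩ := hr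
      rw [Finset.mem_range] at hs
      rw [Finset.mem_Ioc]; omega
    omega
  have hi2 : i < 2 * h := by
    have f1 : i * y ≤ ∑ r ∈ Finset.range i, pos a g r := by
      have := Finset.card_nsmul_le_sum (Finset.range i) (pos a g) y (fun r _ => hlow r)
      rwa [Finset.card_range, smul_eq_mul] at this
    have f2 : ∑ r ∈ Finset.Ioc j (j + h), pos a g r < h * (2 * y) := by
      have f3 : ∑ r ∈ Finset.Ioc j (j + h), pos a g r
          < ∑ r ∈ Finset.Ioc j (j + h), (2 * y) := by
        refine Finset.sum_lt_sum_of_nonempty ⟨j + 1, Finset.mem_Ioc.mpr (by omega)⟩ (fun r hr => ?_)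
        rw [Finset.mem_Ioc] at hr
        have := hup r hr.2
        omega
      rw [Finset.sum_const, Nat.card_Ioc, smul_eq_mul] at f3
      have : j + h - j = h := by omega
      rwa [this] at f3
    rw [heq2] at f1
    have f4 : i * y < (2 * h) * y := by
      calc i * y ≤ _ := f1
        _ < h * (2 * y) := f2
        _ = (2 * h) * y := by ring
    exact Nat.lt_of_mul_lt_mul_right f4
  have hjK : j + 1 ≤ x / y := by
    rw [Nat.le_div_iff_mul_le hy]
    have f1 : (j + 1) * y ≤ ∑ r ∈ Finset.range (j + 1), pos a g r := by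
      have := Finset.card_nsmul_le_sum (Finset.range (j + 1)) (pos a g) y (fun r _ => hlow r)
      rwa [Finset.card_range, smul_eq_mul] at this
    rw [← hsum1] at f1
    omega
  obtain ⟨k, rfl⟩ : ∃ k, j = i + k := ⟨j - i, by omega⟩
  obtain ⟨t, rfl⟩ : ∃ t, i = h + t := ⟨i - h, by omega⟩
  rw [Finset.mem_biUnion]
  refine ⟨(h, t, k), ?_, ?_⟩
  · unfold Sh
    simp only [Finset.mem_filter, Finset.mem_product, Finset.mem_Icc, Finset.mem_range]
    omega
  · rw [Finset.mem_image]
    refine ⟨(a, g), ?_, ?_⟩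
    · unfold Uc
      simp only [Finset.mem_filter, Finset.mem_product, Finset.mem_univ, and_true]
      refine ⟨hA ha, ⟨hup _ le_rfl, heq2⟩, ?_⟩
      rw [hg2, hg1]
    · simp only [hia, hjb, hg2]

/-- the expected number of intersecting pairs of windows with equal sum at most `x` -/
theorem Ex_inn_le {p : ℕ → ℝ} (hp0 : ∀ m, 0 ≤ p m) (hp1 : ∀ m, p m ≤ 1) {c : ℝ} {y L x : ℕ}
    (hy : 1 ≤ y) (hL : L ≤ y)
    (hc : ∀ m ∈ Finset.Ico y (y + L), p m = c) (h0 : 0 ≤ c) (h2 : 32 * c ≤ 1) :
    Ex p (Finset.Ico y (y + L)) (fun A => (inn A x : ℝ))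
      ≤ 2 * c * ((x / y : ℕ) : ℝ) ^ 2 * (1 + Real.log ((x / y : ℕ) : ℝ)) := by
  classical
  have hc1 : c ≤ 1 := by linarith
  set K := x / y with hK
  have step1 : Ex p (Finset.Ico y (y + L)) (fun A => (inn A x : ℝ))
      ≤ ∑ τ ∈ Sh K, Ex p (Finset.Ico y (y + L)) (fun A => ((Uc A y L τ.1 τ.2.1 τ.2.2).card : ℝ)) := by
    rw [← Ex_sum]
    refine Ex_mono hp0 hp1 (fun A hA => ?_)
    have := inn_le_card (x := x) hy hL hA
    exact_mod_cast this
  have step2 : ∀ τ ∈ Sh K, Ex p (Finset.Ico y (y + L))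
      (fun A => ((Uc A y L τ.1 τ.2.1 τ.2.2).card : ℝ)) ≤ c * (2 / τ.2.1) := by
    rintro ⟨h, t, k⟩ hτ
    unfold Sh at hτ
    simp only [Finset.mem_filter, Finset.mem_product, Finset.mem_Icc, Finset.mem_range] at hτ
    simp only
    have h' := shape_bound h0 h2 (Finset.Ico y (y + L)) L t h (h + t + k)
      hτ.1.2.1.1 hτ.2 (by omega)
    · refine le_trans ?_ h'
      have e1 : ∀ A : Finset ℕ, ((Uc A y L h t k).card : ℝ)
          = ∑ a ∈ Finset.Ico y (y + L), ∑ g : Fin (h + t + k + h) → Fin L,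
            if (pos a g (h + t + k + h) < y + L ∧ ∑ r ∈ Finset.range (h + t), pos a g r
                = ∑ r ∈ Finset.Ioc (h + t + k) (h + t + k + h), pos a g r) then
              (if sg A a (pos a g (h + t + k + h)) = tl a g then (1 : ℝ) else 0) else 0 := by
        intro A
        unfold Uc
        rw [Finset.card_filter, Finset.sum_product]
        push_cast
        refine Finset.sum_congr rfl (fun a _ => Finset.sum_congr rfl (fun g _ => ?_))
        by_cases h1 : (pos a g (h + t + k + h) < y + L ∧ ∑ r ∈ Finset.range (h + t), pos a g r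
                = ∑ r ∈ Finset.Ioc (h + t + k) (h + t + k + h), pos a g r)
        · rw [if_pos h1]
          by_cases h' : sg A a (pos a g (h + t + k + h)) = tl a g
          · rw [if_pos h', if_pos ⟨h1, h'⟩]
          · rw [if_neg h', if_neg (fun hh => h' hh.2)]
        · rw [if_neg h1, if_neg (fun hh => h1 hh.1)]
      rw [Ex_congr (fun A _ => e1 A), Ex_sum]
      refine Finset.sum_le_sum (fun a ha => ?_)
      rw [Ex_sum]
      refine Finset.sum_le_sum (fun g _ => ?_)
      have hw : 0 ≤ c * gw c g := mul_nonneg h0 (gw_nonneg h0 hc1 g)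
      by_cases h1 : (pos a g (h + t + k + h) < y + L ∧ ∑ r ∈ Finset.range (h + t), pos a g r
                = ∑ r ∈ Finset.Ioc (h + t + k) (h + t + k + h), pos a g r)
      · simp only [if_pos h1]
        rw [Ex_tl hc a g (Finset.mem_Ico.mp ha).1 h1.1, if_pos h1.2]
      · simp only [if_neg h1]
        rw [Ex_const]
        split_ifs <;> simp [hw]
  refine step1.trans ((Finset.sum_le_sum step2).trans ?_)
  have step3 : ∑ τ ∈ Sh K, c * (2 / (τ.2.1 : ℝ))
      ≤ ∑ τ ∈ (Finset.Icc 1 K) ×ˢ (Finset.Icc 1 K) ×ˢ (Finset.range K), c * (2 / (τ.2.1 : ℝ)) := by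
    refine Finset.sum_le_sum_of_subset_of_nonneg (Finset.filter_subset _ _) (fun τ _ _ => ?_)
    positivity
  refine step3.trans ?_
  rw [Finset.sum_product]
  simp only [Finset.sum_product, Finset.sum_const, Finset.card_range, Nat.card_Icc, nsmul_eq_mul,
    Nat.add_sub_cancel]
  have hharm : ∑ t ∈ Finset.Icc 1 K, (1 : ℝ) / t ≤ 1 + Real.log K := by
    have h1 := harmonic_le_one_add_log K
    rw [harmonic_eq_sum_Icc] at h1
    push_cast at h1
    simpa [one_div] using h1
  have e : ∑ t ∈ Finset.Icc 1 K, (K : ℝ) * (c * (2 / (t : ℝ)))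
      = 2 * c * K * ∑ t ∈ Finset.Icc 1 K, (1 : ℝ) / t := by
    rw [Finset.mul_sum]
    exact Finset.sum_congr rfl (fun t _ => by ring)
  rw [e]
  have h4 : 0 ≤ 2 * c * (K : ℝ) ^ 2 := by positivity
  calc (K : ℝ) * (2 * c * K * ∑ t ∈ Finset.Icc 1 K, (1 : ℝ) / t)
      = 2 * c * (K : ℝ) ^ 2 * ∑ t ∈ Finset.Icc 1 K, (1 : ℝ) / t := by ring
    _ ≤ 2 * c * (K : ℝ) ^ 2 * (1 + Real.log K) := mul_le_mul_of_nonneg_left hharm h4

end Pool.Agent.helper306_cramer
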