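import Mathlib

/-!
# Interpolation and a continuity theorem for generating functions
-/

namespace Pool.Agent.helper306_cramer

open Finset Filter Topology

lemma exists_root {K : ℕ} (hK : 1 ≤ K) {x : ℕ} (hx : 1 ≤ x) :
    ∃ m, 1 ≤ m ∧ m ^ K ≤ x ∧ x < (m + 1) ^ K := by
  set m := Nat.findGreatest (fun m => m ^ K ≤ x) x with hm
  have h1 : m ^ K ≤ x := Nat.findGreatest_spec (P := fun m => m ^ K ≤ x) hx (by simpa using hx)
  have hm1 : 1 ≤ m := Nat.le_findGreatest hx (by simpa using hx)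
  refine ⟨m, hm1, h1, ?_⟩
  by_contra hcon
  push Not at hcon
  have h2 : m + 1 ≤ x := (Nat.le_self_pow (by omega) _).trans hcon
  have := Nat.le_findGreatest (P := fun m => m ^ K ≤ x) h2 hcon
  omega

/-- from sparse sequences to all integers -/
theorem interp {a : ℕ → ℝ} (ha : ∀ n, 0 ≤ a n) {c : ℝ} (hc0 : 0 ≤ c) (hc1 : c ≤ 1)
    (h : ∀ q : ℕ, 8 ≤ q → ∀ᶠ i : ℕ in atTop,
      |∑ n ∈ Finset.Icc 1 ((i + 1) ^ (3 * q)), a n - (((i + 1) ^ (3 * q) : ℕ) : ℝ) * c|
        ≤ (((i + 1) ^ (3 * q) : ℕ) : ℝ) * (108 / q)) :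
    Tendsto (fun x : ℕ => (∑ n ∈ Finset.Icc 1 x, a n) / (x : ℝ)) atTop (𝓝 c) := by
  rw [Metric.tendsto_atTop]
  intro ε hε
  set ε' := min ε 1 with hε'
  have hε0 : 0 < ε' := lt_min hε one_pos
  have hε1 : ε' ≤ 1 := min_le_right _ _
  have hεε : ε' ≤ ε := min_le_left _ _
  obtain ⟨q, hq8, hq⟩ : ∃ q : ℕ, 8 ≤ q ∧ (108 : ℝ) / q ≤ ε' / 8 := by
    obtain ⟨q0, hq0⟩ := exists_nat_ge (108 / (ε' / 8))
    refine ⟨max q0 8, le_max_right _ _, ?_⟩
    have h1 : (108 : ℝ) / (ε' / 8) ≤ ((max q0 8 : ℕ) : ℝ) :=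
      hq0.trans (by exact_mod_cast le_max_left _ _)
    have h2 : (0 : ℝ) < ((max q0 8 : ℕ) : ℝ) := by
      have : 0 < max q0 8 := by omega
      exact_mod_cast this
    rw [div_le_iff₀ (by positivity)] at h1
    rw [div_le_iff₀ h2]
    linarith
  set η : ℝ := 108 / q with hη
  have hη0 : 0 ≤ η := by positivity
  set K := 3 * q with hK
  have hK1 : 1 ≤ K := by omega
  obtain ⟨i0, hi0⟩ := (h q hq8).exists_forall_of_atTop
  have hr : Tendsto (fun m : ℕ => (1 + 1 / (m : ℝ)) ^ K) atTop (𝓝 1) := by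
    have h1 : Tendsto (fun m : ℕ => 1 + 1 / (m : ℝ)) atTop (𝓝 (1 + 0)) :=
      tendsto_const_nhds.add tendsto_one_div_atTop_nhds_zero_nat
    have h2 := h1.pow K
    simpa using h2
  have hr2 : ∀ᶠ m : ℕ in atTop, (1 + 1 / (m : ℝ)) ^ K < 1 + ε' / 8 :=
    hr.eventually (gt_mem_nhds (by linarith))
  obtain ⟨m0, hm0⟩ := hr2.exists_forall_of_atTop
  set M := max (max m0 (i0 + 1)) 1 with hM
  refine ⟨M ^ K, fun x hx => ?_⟩
  have hMpos : 1 ≤ M := le_max_right _ _
  have hx1 : 1 ≤ x := le_trans (Nat.one_le_pow _ _ (by omega)) hx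
  obtain ⟨m, hm1, hm2, hm3⟩ := exists_root hK1 hx1
  have hMm : M ≤ m := by
    by_contra hcon
    push Not at hcon
    have : (m + 1) ^ K ≤ M ^ K := Nat.pow_le_pow_left hcon K
    omega
  have hmm0 : m0 ≤ m := ((le_max_left _ _).trans (le_max_left _ _)).trans hMm
  have hmi0 : i0 + 1 ≤ m := ((le_max_right _ _).trans (le_max_left _ _)).trans hMm
  have hrm := hm0 m hmm0
  have hm0' : (0 : ℝ) < m := by exact_mod_cast hm1
  have hx0 : (0 : ℝ) < x := by exact_mod_cast hx1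
  -- the two neighbours
  have b1 := hi0 (m - 1) (by omega)
  have b2 := hi0 m (by omega)
  have e1 : m - 1 + 1 = m := by omega
  rw [e1] at b1
  set S : ℕ → ℝ := fun x => ∑ n ∈ Finset.Icc 1 x, a n with hS
  have hmono : ∀ u v, u ≤ v → S u ≤ S v := by
    intro u v huv
    refine Finset.sum_le_sum_of_subset_of_nonneg (Finset.Icc_subset_Icc_right huv) (fun n _ _ => ha n)
  have hS0 : ∀ u, 0 ≤ S u := fun u => Finset.sum_nonneg (fun n _ => ha n)
  have b1' : |S (m ^ K) - ((m ^ K : ℕ) : ℝ) * c| ≤ ((m ^ K : ℕ) : ℝ) * η := b1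
  have b2' : |S ((m + 1) ^ K) - (((m + 1) ^ K : ℕ) : ℝ) * c| ≤ (((m + 1) ^ K : ℕ) : ℝ) * η := b2
  rw [abs_le] at b1' b2'
  set r : ℝ := (1 + 1 / (m : ℝ)) ^ K with hr'
  have hr1 : 1 ≤ r := one_le_pow₀ (by have : (0 : ℝ) < 1 / m := by positivity
                                      linarith)
  have hmK : (((m + 1) ^ K : ℕ) : ℝ) = ((m ^ K : ℕ) : ℝ) * r := by
    rw [hr']; push_cast; rw [← mul_pow]; congr 1; field_simp
  have hu0 : (0 : ℝ) < ((m ^ K : ℕ) : ℝ) := by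
    have : 0 < m ^ K := by positivity
    exact_mod_cast this
  have hux : ((m ^ K : ℕ) : ℝ) ≤ x := by exact_mod_cast hm2
  have hxu : (x : ℝ) ≤ ((m ^ K : ℕ) : ℝ) * r := by rw [← hmK]; exact_mod_cast hm3.le
  set u : ℝ := ((m ^ K : ℕ) : ℝ) with hu
  have hup : S x ≤ (c + η) * (x * r) := by
    have h1 := hmono x ((m + 1) ^ K) hm3.le
    rw [hmK] at b2'
    have h2 : S ((m + 1) ^ K) ≤ (c + η) * (u * r) := by linarith [b2'.2]
    refine h1.trans (h2.trans ?_)
    refine mul_le_mul_of_nonneg_left ?_ (by linarith)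
    exact mul_le_mul_of_nonneg_right hux (by linarith)
  have hlow : (c - ε' / 2) * x ≤ S x := by
    rcases le_or_gt (c - ε' / 2) 0 with hneg | hpos
    · have : (c - ε' / 2) * x ≤ 0 := mul_nonpos_of_nonpos_of_nonneg hneg hx0.le
      linarith [hS0 x]
    · have h1 := hmono (m ^ K) x hm2
      have h2 : (c - η) * u ≤ S (m ^ K) := by linarith [b1'.1]
      refine le_trans ?_ (h2.trans h1)
      have h3 : (c - ε' / 2) * x ≤ (c - ε' / 2) * (u * r) := mul_le_mul_of_nonneg_left hxu hpos.le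
      refine h3.trans ?_
      have h4 : (c - ε' / 2) * r ≤ c - η := by
        have : (c - ε' / 2) * r ≤ (c - ε' / 2) * (1 + ε' / 8) :=
          mul_le_mul_of_nonneg_left hrm.le hpos.le
        nlinarith
      calc (c - ε' / 2) * (u * r) = ((c - ε' / 2) * r) * u := by ring
        _ ≤ (c - η) * u := mul_le_mul_of_nonneg_right h4 hu0.le
  have hup2 : S x ≤ (c + ε' / 2) * x := by
    refine hup.trans ?_
    have h4 : (c + η) * r ≤ c + ε' / 2 := by
      have h5 : (c + η) * r ≤ (c + η) * (1 + ε' / 8) :=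
        mul_le_mul_of_nonneg_left hrm.le (by linarith)
      have h6 : (c + η) * (ε' / 8) ≤ 2 * (ε' / 8) := by
        refine mul_le_mul_of_nonneg_right ?_ (by positivity)
        linarith
      nlinarith
    calc (c + η) * (x * r) = ((c + η) * r) * x := by ring
      _ ≤ (c + ε' / 2) * x := mul_le_mul_of_nonneg_right h4 hx0.le
  rw [Real.dist_eq]
  have e2 : (∑ n ∈ Finset.Icc 1 x, a n) / (x : ℝ) - c = (S x - c * x) / x := by
    field_simp
    rfl
  rw [e2, abs_div, abs_of_pos hx0, div_lt_iff₀ hx0, abs_lt]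
  constructor
  · nlinarith
  · nlinarith

/-- the Poisson weights -/
lemma poisson_tail {z : ℝ} (hz0 : 0 ≤ z) (hz1 : z ≤ 1) (k : ℕ) :
    0 ≤ (2 : ℝ) ^ (z - 1) - ∑ j ∈ Finset.range (k + 1), (Real.log 2) ^ j / (2 * (j.factorial : ℝ)) * z ^ j
    ∧ (2 : ℝ) ^ (z - 1) - ∑ j ∈ Finset.range (k + 1), (Real.log 2) ^ j / (2 * (j.factorial : ℝ)) * z ^ j
      ≤ z ^ (k + 1) := by
  set l := Real.log 2 with hl
  have hl0 : 0 ≤ l := Real.log_nonneg (by norm_num)
  have hexpl : Real.exp l = 2 := Real.exp_log (by norm_num)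
  have e1 : (2 : ℝ) ^ (z - 1) = Real.exp (z * l) / 2 := by
    rw [Real.rpow_sub (by norm_num), Real.rpow_one, Real.rpow_def_of_pos (by norm_num), mul_comm]
  have hs1 : HasSum (fun j : ℕ => (z * l) ^ j / (j.factorial : ℝ)) (Real.exp (z * l)) := by
    have := NormedSpace.expSeries_div_hasSum_exp (𝔸 := ℝ) (z * l)
    rwa [← Real.exp_eq_exp_ℝ] at this
  have hs2 : HasSum (fun j : ℕ => l ^ j / (j.factorial : ℝ)) (Real.exp l) := by
    have := NormedSpace.expSeries_div_hasSum_exp (𝔸 := ℝ) l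
    rwa [← Real.exp_eq_exp_ℝ] at this
  have t1 := (hasSum_nat_add_iff' (k + 1)).mpr hs1
  have t2 := (hasSum_nat_add_iff' (k + 1)).mpr hs2
  have e2 : (2 : ℝ) ^ (z - 1) - ∑ j ∈ Finset.range (k + 1), l ^ j / (2 * (j.factorial : ℝ)) * z ^ j
      = (Real.exp (z * l) - ∑ j ∈ Finset.range (k + 1), (z * l) ^ j / (j.factorial : ℝ)) / 2 := by
    rw [e1, sub_div, Finset.sum_div]
    congr 1
    refine Finset.sum_congr rfl (fun j _ => ?_)
    rw [mul_pow]
    field_simp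
  rw [e2]
  have h0 : 0 ≤ Real.exp (z * l) - ∑ j ∈ Finset.range (k + 1), (z * l) ^ j / (j.factorial : ℝ) :=
    t1.nonneg (fun j => by positivity)
  have h1 : Real.exp (z * l) - ∑ j ∈ Finset.range (k + 1), (z * l) ^ j / (j.factorial : ℝ)
      ≤ z ^ (k + 1) * (Real.exp l - ∑ j ∈ Finset.range (k + 1), l ^ j / (j.factorial : ℝ)) := by
    refine hasSum_le (fun j => ?_) t1 (t2.mul_left (z ^ (k + 1)))
    rw [mul_pow, ← mul_div_assoc]
    refine div_le_div_of_nonneg_right ?_ (by positivity)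
    refine mul_le_mul_of_nonneg_right ?_ (by positivity)
    exact pow_le_pow_of_le_one hz0 hz1 (by omega)
  have h2 : Real.exp l - ∑ j ∈ Finset.range (k + 1), l ^ j / (j.factorial : ℝ) ≤ 2 := by
    have : 0 ≤ ∑ j ∈ Finset.range (k + 1), l ^ j / (j.factorial : ℝ) :=
      Finset.sum_nonneg (fun j _ => by positivity)
    linarith
  have hzk : 0 ≤ z ^ (k + 1) := by positivity
  constructor
  · linarith
  · nlinarith

/-- splitting the generating sum -/
lemma gen_split (f : ℕ → ℕ) (x k : ℕ) {z : ℝ} (hz0 : 0 ≤ z) (hz1 : z ≤ 1) :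
    0 ≤ ∑ n ∈ Finset.Icc 1 x, z ^ (f n) - ∑ j ∈ Finset.range (k + 1),
      (((Finset.Icc 1 x).filter (fun n => f n = j)).card : ℝ) * z ^ j ∧
    ∑ n ∈ Finset.Icc 1 x, z ^ (f n) - ∑ j ∈ Finset.range (k + 1),
      (((Finset.Icc 1 x).filter (fun n => f n = j)).card : ℝ) * z ^ j ≤ x * z ^ (k + 1) := by
  have e1 : ∑ j ∈ Finset.range (k + 1), (((Finset.Icc 1 x).filter (fun n => f n = j)).card : ℝ) * z ^ j
      = ∑ n ∈ (Finset.Icc 1 x).filter (fun n => f n < k + 1), z ^ (f n) := by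
    have hmaps : ∀ n ∈ (Finset.Icc 1 x).filter (fun n => f n < k + 1), f n ∈ Finset.range (k + 1) :=
      fun n hn => Finset.mem_range.mpr (Finset.mem_filter.mp hn).2
    have hfib := Finset.sum_fiberwise_of_maps_to hmaps (fun n => z ^ (f n))
    rw [← hfib]
    refine Finset.sum_congr rfl (fun j hj => ?_)
    rw [Finset.mem_range] at hj
    rw [Finset.filter_filter]
    have e2 : (Finset.Icc 1 x).filter (fun n => f n < k + 1 ∧ f n = j)
        = (Finset.Icc 1 x).filter (fun n => f n = j) := by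
      ext n; simp only [Finset.mem_filter]
      constructor
      · rintro ⟨h1, _, h2⟩; exact ⟨h1, h2⟩
      · rintro ⟨h1, h2⟩; exact ⟨h1, by omega, h2⟩
    rw [e2, Finset.sum_congr rfl (g := fun _ => z ^ j) (fun n hn => by
      rw [(Finset.mem_filter.mp hn).2]), Finset.sum_const, nsmul_eq_mul]
  have e3 : ∑ n ∈ Finset.Icc 1 x, z ^ (f n)
      - ∑ n ∈ (Finset.Icc 1 x).filter (fun n => f n < k + 1), z ^ (f n)
      = ∑ n ∈ (Finset.Icc 1 x).filter (fun n => ¬ f n < k + 1), z ^ (f n) := by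
    rw [← Finset.sum_filter_add_sum_filter_not (Finset.Icc 1 x) (fun n => f n < k + 1)]
    ring
  rw [e1, e3]
  constructor
  · exact Finset.sum_nonneg (fun n _ => pow_nonneg hz0 _)
  · have h1 : ∀ n ∈ (Finset.Icc 1 x).filter (fun n => ¬ f n < k + 1), z ^ (f n) ≤ z ^ (k + 1) := by
      intro n hn
      rw [Finset.mem_filter] at hn
      exact pow_le_pow_of_le_one hz0 hz1 (by omega)
    refine (Finset.sum_le_sum h1).trans ?_
    rw [Finset.sum_const, nsmul_eq_mul]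
    refine mul_le_mul_of_nonneg_right ?_ (pow_nonneg hz0 _)
    have := Finset.card_filter_le (Finset.Icc 1 x) (fun n => ¬ f n < k + 1)
    rw [Nat.card_Icc, Nat.add_sub_cancel] at this
    exact_mod_cast this

/-- the continuity theorem -/
theorem continuity {f : ℕ → ℕ}
    (h : ∀ z : ℚ, 0 < z → z ≤ 1 → Tendsto (fun x : ℕ => (∑ n ∈ Finset.Icc 1 x, (z : ℝ) ^ (f n)) / (x : ℝ))
      atTop (𝓝 ((2 : ℝ) ^ ((z : ℝ) - 1)))) (k : ℕ) :
    Tendsto (fun x : ℕ => (((Finset.Icc 1 x).filter (fun n => f n = k)).card : ℝ) / (x : ℝ)) atTop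
      (𝓝 ((Real.log 2) ^ k / (2 * (k.factorial : ℝ)))) := by
  induction k using Nat.strong_induction_on with
  | _ k ih =>
    rw [Metric.tendsto_atTop]
    intro ε hε
    obtain ⟨z, hz0, hz1⟩ : ∃ z : ℚ, 0 < z ∧ (z : ℝ) < min (ε / 4) 1 := by
      obtain ⟨z, hz0, hz1⟩ := exists_rat_btwn (show (0 : ℝ) < min (ε / 4) 1 from
        lt_min (by linarith) one_pos)
      exact ⟨z, by exact_mod_cast hz0, hz1⟩
    have hzr0 : (0 : ℝ) < z := by exact_mod_cast hz0
    have hzr1 : (z : ℝ) ≤ 1 := (hz1.trans_le (min_le_right _ _)).le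
    have hzε : (z : ℝ) < ε / 4 := hz1.trans_le (min_le_left _ _)
    have hzq1 : z ≤ 1 := by exact_mod_cast hzr1
    set c : ℕ → ℝ := fun j => (Real.log 2) ^ j / (2 * (j.factorial : ℝ)) with hc
    set N : ℕ → ℕ → ℝ := fun j x => (((Finset.Icc 1 x).filter (fun n => f n = j)).card : ℝ) with hN
    -- the partial sums converge
    have hlim : Tendsto (fun x : ℕ => (∑ n ∈ Finset.Icc 1 x, (z : ℝ) ^ (f n)) / (x : ℝ)
        - ∑ j ∈ Finset.range k, N j x / x * (z : ℝ) ^ j) atTop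
        (𝓝 ((2 : ℝ) ^ ((z : ℝ) - 1) - ∑ j ∈ Finset.range k, c j * (z : ℝ) ^ j)) := by
      refine (h z hz0 hzq1).sub (tendsto_finsetSum _ (fun j hj => ?_))
      exact (ih j (Finset.mem_range.mp hj)).mul_const _
    have hzk : 0 < (z : ℝ) ^ k * (ε / 4) := by positivity
    obtain ⟨X, hX⟩ := (Metric.tendsto_atTop.mp hlim) _ hzk
    refine ⟨max X 1, fun x hx => ?_⟩
    have hxX : X ≤ x := (le_max_left _ _).trans hx
    have hx1 : 1 ≤ x := (le_max_right _ _).trans hx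
    have hx0 : (0 : ℝ) < x := by exact_mod_cast hx1
    have h1 := hX x hxX
    rw [Real.dist_eq] at h1 ⊢
    obtain ⟨p1, p2⟩ := poisson_tail hzr0.le hzr1 k
    obtain ⟨g1, g2⟩ := gen_split f x k hzr0.le hzr1
    rw [Finset.sum_range_succ] at p1 p2 g1 g2
    have g1' : 0 ≤ (∑ n ∈ Finset.Icc 1 x, (z : ℝ) ^ (f n)) / x
        - ∑ j ∈ Finset.range k, N j x / x * (z : ℝ) ^ j - N k x / x * (z : ℝ) ^ k := by
      have e : (∑ n ∈ Finset.Icc 1 x, (z : ℝ) ^ (f n)) / x
        - ∑ j ∈ Finset.range k, N j x / x * (z : ℝ) ^ j - N k x / x * (z : ℝ) ^ k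
        = (∑ n ∈ Finset.Icc 1 x, (z : ℝ) ^ (f n)
          - (∑ j ∈ Finset.range k, N j x * (z : ℝ) ^ j + N k x * (z : ℝ) ^ k)) / x := by
        have e0 : ∑ j ∈ Finset.range k, N j x / x * (z : ℝ) ^ j
            = (∑ j ∈ Finset.range k, N j x * (z : ℝ) ^ j) / x := by
          rw [Finset.sum_div]
          exact Finset.sum_congr rfl (fun j _ => by ring)
        rw [e0, sub_div, add_div]
        ring
      rw [e]
      exact div_nonneg g1 hx0.le
    have g2' : (∑ n ∈ Finset.Icc 1 x, (z : ℝ) ^ (f n)) / x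
        - ∑ j ∈ Finset.range k, N j x / x * (z : ℝ) ^ j - N k x / x * (z : ℝ) ^ k
        ≤ (z : ℝ) ^ (k + 1) := by
      have e : (∑ n ∈ Finset.Icc 1 x, (z : ℝ) ^ (f n)) / x
        - ∑ j ∈ Finset.range k, N j x / x * (z : ℝ) ^ j - N k x / x * (z : ℝ) ^ k
        = (∑ n ∈ Finset.Icc 1 x, (z : ℝ) ^ (f n)
          - (∑ j ∈ Finset.range k, N j x * (z : ℝ) ^ j + N k x * (z : ℝ) ^ k)) / x := by
        have e0 : ∑ j ∈ Finset.range k, N j x / x * (z : ℝ) ^ j
            = (∑ j ∈ Finset.range k, N j x * (z : ℝ) ^ j) / x := by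
          rw [Finset.sum_div]
          exact Finset.sum_congr rfl (fun j _ => by ring)
        rw [e0, sub_div, add_div]
        ring
      rw [e, div_le_iff₀ hx0]
      linarith
    have hzk0 : (0 : ℝ) < (z : ℝ) ^ k := by positivity
    rw [pow_succ] at p2 g2'
    set G := (∑ n ∈ Finset.Icc 1 x, (z : ℝ) ^ (f n)) / x
        - ∑ j ∈ Finset.range k, N j x / x * (z : ℝ) ^ j
    set P := (2 : ℝ) ^ ((z : ℝ) - 1) - ∑ j ∈ Finset.range k, c j * (z : ℝ) ^ j with hP
    have p1' : 0 ≤ P - c k * (z : ℝ) ^ k := by rw [hP]; linarith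
    have p2' : P - c k * (z : ℝ) ^ k ≤ (z : ℝ) ^ k * z := by rw [hP]; linarith
    rw [abs_lt] at h1
    show |N k x / x - c k| < ε
    rw [abs_lt]
    have hz4 : (z : ℝ) ^ k * z ≤ (z : ℝ) ^ k * (ε / 4) := mul_le_mul_of_nonneg_left hzε.le hzk0.le
    constructor
    · by_contra hcon
      push Not at hcon
      have : (N k x / x - c k) * (z : ℝ) ^ k ≤ -ε * (z : ℝ) ^ k :=
        mul_le_mul_of_nonneg_right hcon hzk0.le
      nlinarith
    · by_contra hcon
      push Not at hcon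
      have : ε * (z : ℝ) ^ k ≤ (N k x / x - c k) * (z : ℝ) ^ k :=
        mul_le_mul_of_nonneg_right hcon hzk0.le
      nlinarith

end Pool.Agent.helper306_cramer
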