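import Pool.Agent.helper306_cramer.Deter2

/-!
# From independent events to the finite model
-/

namespace Pool.Agent.helper306_cramer

open Finset Filter Topology MeasureTheory ProbabilityTheory

variable {Ω : Type*} [MeasurableSpace Ω]

/-- the random set -/
def Rs (E : ℕ → Set Ω) (ω : Ω) : Set ℕ := {m | ω ∈ E m}

/-- the part of the random set in the finite set `J` -/
noncomputable def Rf (J : Finset ℕ) (R : Set ℕ) : Finset ℕ := by
  classical
  exact J.filter (fun m => m ∈ R)

lemma mem_Rf {J : Finset ℕ} {R : Set ℕ} {m : ℕ} : m ∈ Rf J R ↔ m ∈ J ∧ m ∈ R := by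
  classical
  unfold Rf; rw [Finset.mem_filter]

lemma Rf_sub (J : Finset ℕ) (R : Set ℕ) : Rf J R ⊆ J := by
  intro m hm; exact (mem_Rf.mp hm).1

omit [MeasurableSpace Ω] in
lemma setOf_Rf_eq (E : ℕ → Set Ω) {J A : Finset ℕ} (hA : A ⊆ J) :
    {ω | Rf J (Rs E ω) = A} = ⋂ m ∈ J, (if m ∈ A then E m else (E m)ᶜ) := by
  classical
  ext ω
  simp only [Set.mem_iInter]
  constructor
  · intro h m hm
    have h' : Rf J (Rs E ω) = A := h
    by_cases hmA : m ∈ A
    · rw [if_pos hmA]
      rw [← h', mem_Rf] at hmA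
      exact hmA.2
    · rw [if_neg hmA]
      intro hE
      apply hmA
      rw [← h', mem_Rf]
      exact ⟨hm, hE⟩
  · intro h
    show Rf J (Rs E ω) = A
    ext m
    rw [mem_Rf]
    constructor
    · rintro ⟨h1, h2⟩
      by_contra hmA
      have := h m h1
      rw [if_neg hmA] at this
      exact this h2
    · intro hmA
      have := h m (hA hmA)
      rw [if_pos hmA] at this
      exact ⟨hA hmA, this⟩

variable {μ : Measure Ω} [IsProbabilityMeasure μ]

lemma measure_Rf_eq {E : ℕ → Set Ω} (hm : ∀ m, MeasurableSet (E m)) (hi : iIndepSet E μ)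
    {p : ℕ → ℝ} (hp0 : ∀ m, 0 ≤ p m) (hp1 : ∀ m, p m ≤ 1)
    {J : Finset ℕ} (hp : ∀ m ∈ J, μ (E m) = ENNReal.ofReal (p m)) {A : Finset ℕ} (hA : A ⊆ J) :
    μ {ω | Rf J (Rs E ω) = A} = ENNReal.ofReal (wt p J A) := by
  classical
  rw [setOf_Rf_eq E hA]
  have h1 := (iIndepSet_iff_iIndep _ _).1 hi
  rw [h1.meas_biInter (S := J) (s := fun m => if m ∈ A then E m else (E m)ᶜ)]
  · unfold wt
    rw [ENNReal.ofReal_prod_of_nonneg]
    · refine Finset.prod_congr rfl (fun m hmJ => ?_)
      split_ifs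
      · exact hp m hmJ
      · rw [measure_compl (hm m) (measure_ne_top _ _), measure_univ, hp m hmJ,
          ← ENNReal.ofReal_one, ← ENNReal.ofReal_sub _ (hp0 m)]
    · intro m _
      split_ifs
      · exact hp0 m
      · linarith [hp1 m]
  · intro m _
    split_ifs
    · exact MeasurableSpace.measurableSet_generateFrom (Set.mem_singleton _)
    · exact (MeasurableSpace.measurableSet_generateFrom (Set.mem_singleton _)).compl

lemma measurableSet_Rf_eq {E : ℕ → Set Ω} (hm : ∀ m, MeasurableSet (E m)) {J A : Finset ℕ}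
    (hA : A ⊆ J) : MeasurableSet {ω | Rf J (Rs E ω) = A} := by
  rw [setOf_Rf_eq E hA]
  refine Finset.measurableSet_biInter _ (fun m _ => ?_)
  split_ifs
  · exact hm m
  · exact (hm m).compl

/-- probability of an event that depends on finitely many coordinates -/
theorem measure_Rf {E : ℕ → Set Ω} (hm : ∀ m, MeasurableSet (E m)) (hi : iIndepSet E μ)
    {p : ℕ → ℝ} (hp0 : ∀ m, 0 ≤ p m) (hp1 : ∀ m, p m ≤ 1)
    {J : Finset ℕ} (hp : ∀ m ∈ J, μ (E m) = ENNReal.ofReal (p m)) (P : Finset ℕ → Prop)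
    [DecidablePred P] :
    μ {ω | P (Rf J (Rs E ω))} = ENNReal.ofReal (Ex p J (fun A => if P A then 1 else 0)) := by
  classical
  have h1 : {ω | P (Rf J (Rs E ω))} = ⋃ A ∈ J.powerset.filter P, {ω | Rf J (Rs E ω) = A} := by
    ext ω
    simp only [Set.mem_iUnion, Finset.mem_filter, Finset.mem_powerset]
    constructor
    · intro h
      exact ⟨_, ⟨Rf_sub _ _, h⟩, rfl⟩
    · rintro ⟨A, ⟨_, hA⟩, hAe⟩
      have hAe' : Rf J (Rs E ω) = A := hAe
      show P (Rf J (Rs E ω))
      rw [hAe']; exact hA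
  rw [h1, measure_biUnion_finset]
  · have h2 : ∀ A ∈ J.powerset.filter P, μ {ω | Rf J (Rs E ω) = A} = ENNReal.ofReal (wt p J A) := by
      intro A hA
      rw [Finset.mem_filter, Finset.mem_powerset] at hA
      exact measure_Rf_eq hm hi hp0 hp1 hp hA.1
    rw [Finset.sum_congr rfl h2, ← ENNReal.ofReal_sum_of_nonneg (fun A _ => wt_nonneg hp0 hp1 J A)]
    congr 1
    unfold Ex
    rw [Finset.sum_filter]
    refine Finset.sum_congr rfl (fun A _ => ?_)
    by_cases hPA : P A
    · simp [hPA]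
    · simp [hPA]
  · intro A _ A' _ hne
    rw [Function.onFun, Set.disjoint_left]
    intro ω h2 h3
    have h2' : Rf J (Rs E ω) = A := h2
    have h3' : Rf J (Rs E ω) = A' := h3
    exact hne (h2'.symm.trans h3')
  · intro A hA
    rw [Finset.mem_filter, Finset.mem_powerset] at hA
    exact measurableSet_Rf_eq hm hA.1

/-- Markov's inequality in the finite model -/
lemma Ex_indicator_le {p : ℕ → ℝ} (hp0 : ∀ m, 0 ≤ p m) (hp1 : ∀ m, p m ≤ 1) {J : Finset ℕ}
    {Φ : Finset ℕ → ℝ} (hΦ : ∀ A ⊆ J, 0 ≤ Φ A) {t : ℝ} (ht : 0 < t) (P : Finset ℕ → Prop)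
    [DecidablePred P] (hP : ∀ A ⊆ J, P A → t ≤ Φ A) :
    Ex p J (fun A => if P A then 1 else 0) ≤ Ex p J Φ / t := by
  rw [le_div_iff₀ ht, mul_comm, ← Ex_mul_left]
  refine Ex_mono hp0 hp1 (fun A hA => ?_)
  split_ifs with h
  · rw [mul_one]; exact hP A hA h
  · rw [mul_zero]; exact hΦ A hA

/-- the number of elements in dyadic intervals -/
theorem ae_RB {d : ℕ → ℝ} (hd : Dens d) {E : ℕ → Set Ω} (hm : ∀ m, MeasurableSet (E m))
    (hi : iIndepSet E μ) (hp : ∀ m, 1 ≤ m → μ (E m) = ENNReal.ofReal (pd d m)) :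
    ∀ᵐ ω ∂μ, ∀ᶠ j : ℕ in atTop, ((RB (Rs E ω) j).card : ℝ) ≤ 8 * 2 ^ j / j := by
  classical
  obtain ⟨N0, hN0⟩ := hd.upper
  set N := max N0 4 with hN
  set s : ℕ → Set Ω := fun j => if N ≤ j then {ω | ¬ ((RB (Rs E ω) j).card : ℝ) ≤ 8 * 2 ^ j / j}
    else ∅ with hs
  have hbound : ∀ j, μ (s j) ≤ ENNReal.ofReal (Real.exp (-1) ^ j) := by
    intro j
    by_cases hj : N ≤ j
    · have e1 : s j = {ω | ¬ ((Rf (Finset.Ico (2 ^ j) (2 ^ (j + 1))) (Rs E ω)).card : ℝ)
          ≤ 8 * 2 ^ j / j} := by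
        rw [hs]; simp only [if_pos hj]
        rfl
      have hj4 : 4 ≤ j := (le_max_right _ _).trans hj
      have hj0 : (0 : ℝ) < j := by exact_mod_cast (by omega : 0 < j)
      have hJ1 : ∀ m ∈ Finset.Ico (2 ^ j) (2 ^ (j + 1)), 1 ≤ m := by
        intro m hm'
        rw [Finset.mem_Ico] at hm'
        have : 0 < 2 ^ j := by positivity
        omega
      rw [e1, measure_Rf hm hi (fun m => hd.nonneg _) (fun m => hd.le_one _)
        (fun m hm' => hp m (hJ1 m hm')) (fun A => ¬ ((A.card : ℝ) ≤ 8 * 2 ^ j / j))]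
      refine ENNReal.ofReal_le_ofReal ?_
      set t : ℝ := 2 ^ j / j with ht
      have ht1 : (j : ℝ) ≤ t := by
        rw [ht, le_div_iff₀ hj0]
        have h : ∀ j : ℕ, 4 ≤ j → j * j ≤ 2 ^ j := by
          intro j hj
          induction j, hj using Nat.le_induction with
          | base => norm_num
          | succ n hn ih =>
            have : (n + 1) * (n + 1) ≤ 2 * (n * n) := by nlinarith
            calc (n + 1) * (n + 1) ≤ 2 * (n * n) := this
              _ ≤ 2 * 2 ^ n := Nat.mul_le_mul_left _ ih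
              _ = 2 ^ (n + 1) := by ring
        exact_mod_cast h j hj4
      have hlog2 : 0.69 < Real.log 2 := by have := Real.log_two_gt_d9; linarith
      have hmk := Ex_indicator_le (p := pd d) (fun m => hd.nonneg _) (fun m => hd.le_one _)
        (J := Finset.Ico (2 ^ j) (2 ^ (j + 1))) (Φ := fun A => (2 : ℝ) ^ A.card)
        (fun A _ => by positivity) (t := Real.exp (8 * t * Real.log 2)) (Real.exp_pos _)
        (fun A => ¬ ((A.card : ℝ) ≤ 8 * 2 ^ j / j)) (fun A _ hA => by
          push Not at hA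
          have e2 : (8 : ℝ) * 2 ^ j / j = 8 * t := by rw [ht]; ring
          rw [e2] at hA
          have e3 : (2 : ℝ) ^ A.card = Real.exp (A.card * Real.log 2) := by
            rw [mul_comm, Real.exp_mul, Real.exp_log (by norm_num), Real.rpow_natCast]
          rw [e3]
          refine Real.exp_le_exp.mpr ?_
          exact mul_le_mul_of_nonneg_right hA.le (by linarith))
      refine hmk.trans ?_
      rw [Ex_pow_card]
      have h2 : ∏ m ∈ Finset.Ico (2 ^ j) (2 ^ (j + 1)), (1 + (2 - 1) * pd d m)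
          ≤ Real.exp (2 * t) := by
        have h3 : ∀ m ∈ Finset.Ico (2 ^ j) (2 ^ (j + 1)), (1 + (2 - 1) * pd d m)
            ≤ Real.exp (2 / j) := by
          intro m hm'
          rw [Finset.mem_Ico] at hm'
          have e4 : pd d m = d j := by
            unfold pd; rw [Nat.log_eq_of_pow_le_of_lt_pow hm'.1 hm'.2]
          rw [e4]
          have h5 := hN0 j ((le_max_left _ _).trans hj)
          have h6 := Real.add_one_le_exp (2 / (j : ℝ))
          linarith
        refine (Finset.prod_le_prod (fun m _ => ?_) h3).trans ?_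
        · have : 0 ≤ pd d m := hd.nonneg _
          linarith
        · rw [Finset.prod_const, Nat.card_Ico, ← Real.exp_nat_mul]
          refine Real.exp_le_exp.mpr (le_of_eq ?_)
          have : 2 ^ (j + 1) - 2 ^ j = 2 ^ j := by rw [pow_succ]; omega
          rw [this, ht]
          push_cast; ring
      calc (∏ m ∈ Finset.Ico (2 ^ j) (2 ^ (j + 1)), (1 + (2 - 1) * pd d m))
            / Real.exp (8 * t * Real.log 2)
          ≤ Real.exp (2 * t) / Real.exp (8 * t * Real.log 2) :=
            div_le_div_of_nonneg_right h2 (Real.exp_pos _).le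
        _ = Real.exp (2 * t - 8 * t * Real.log 2) := by rw [← Real.exp_sub]
        _ ≤ Real.exp (-(j : ℝ)) := by
            refine Real.exp_le_exp.mpr ?_
            have : 0 ≤ t := hj0.le.trans ht1
            nlinarith
        _ = Real.exp (-1) ^ j := by rw [← Real.exp_nat_mul]; congr 1; ring
    · have : s j = ∅ := by rw [hs]; simp only [if_neg hj]
      rw [this, measure_empty]; exact bot_le
  have hsum : ∑' j, μ (s j) ≠ ⊤ := by
    have hge : Summable (fun j : ℕ => Real.exp (-1) ^ j) :=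
      summable_geometric_of_lt_one (Real.exp_pos _).le (by
        rw [Real.exp_lt_one_iff]; norm_num)
    have h1 : ∑' j, μ (s j) ≤ ∑' j : ℕ, ENNReal.ofReal (Real.exp (-1) ^ j) :=
      ENNReal.tsum_le_tsum hbound
    have h2 : ∑' j : ℕ, ENNReal.ofReal (Real.exp (-1) ^ j)
        = ENNReal.ofReal (∑' j : ℕ, Real.exp (-1) ^ j) :=
      (ENNReal.ofReal_tsum_of_nonneg (fun j => by positivity) hge).symm
    rw [h2] at h1
    exact ne_top_of_le_ne_top ENNReal.ofReal_ne_top h1
  filter_upwards [ae_eventually_notMem hsum] with ω hω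
  filter_upwards [hω, eventually_ge_atTop N] with j hj1 hj2
  rw [hs] at hj1
  simp only [if_pos hj2] at hj1
  by_contra hcon
  exact hj1 hcon

end Pool.Agent.helper306_cramer
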