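import Pool.Agent.helper306_cramer.Almost
import Pool.Agent.helper306_cramer.Interp

/-!
# The almost sure Poisson law
-/

namespace Pool.Agent.helper306_cramer

open Finset Filter Topology MeasureTheory ProbabilityTheory

/-- The number of ways to write `n` as a sum of consecutive elements of the set `R` of positive
integers: the number of pairs `(a, b)` of elements of `R` with `1 ≤ a ≤ b` such that the elements of
`R` in `[a, b]` have sum `n`. -/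
noncomputable def reps (R : Set ℕ) (n : ℕ) : ℕ :=
  Set.ncard {ab : ℕ × ℕ | 1 ≤ ab.1 ∧ ab.1 ≤ ab.2 ∧ ab.1 ∈ R ∧ ab.2 ∈ R ∧
    ∑ m ∈ Finset.Icc ab.1 ab.2, R.indicator id m = n}

lemma sum_indicator_eq {R : Set ℕ} {x a b : ℕ} (ha : 1 ≤ a) (hb : b ≤ x) :
    ∑ m ∈ Finset.Icc a b, R.indicator id m = ∑ m ∈ sg (RA R x) a b, m := by
  classical
  have : sg (RA R x) a b = (Finset.Icc a b).filter (fun m => m ∈ R) := by
    ext m
    rw [mem_sg, mem_RA, Finset.mem_filter, Finset.mem_Icc]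
    constructor
    · rintro ⟨⟨_, h1⟩, h2, h3⟩; exact ⟨⟨h2, h3⟩, h1⟩
    · rintro ⟨⟨h2, h3⟩, h1⟩; exact ⟨⟨⟨by omega, by omega⟩, h1⟩, h2, h3⟩
  rw [this, Finset.sum_filter]
  refine Finset.sum_congr rfl (fun m _ => ?_)
  rw [Set.indicator_apply]
  rfl

lemma reps_eq (R : Set ℕ) {n : ℕ} (_hn : 1 ≤ n) : reps R n = cnt (RA R n) n := by
  classical
  unfold reps
  rw [← card_Wsum, ← Set.ncard_coe_finset]
  congr 1
  ext ⟨a, b⟩
  rw [Finset.mem_coe, mem_Wsum, mem_RA, mem_RA]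
  simp only [Set.mem_ofPred_eq]
  constructor
  · rintro ⟨h1, h2, h3, h4, h5⟩
    have hbn : b ≤ n := by
      have h6 : R.indicator id b ≤ ∑ m ∈ Finset.Icc a b, R.indicator id m :=
        Finset.single_le_sum (f := fun m => R.indicator id m) (fun m _ => Nat.zero_le _)
          (Finset.mem_Icc.mpr ⟨h2, le_rfl⟩)
      rw [h5, Set.indicator_of_mem h4] at h6
      exact h6
    refine ⟨⟨⟨h1, by omega⟩, h3⟩, ⟨⟨by omega, hbn⟩, h4⟩, h2, ?_⟩
    rw [← sum_indicator_eq h1 hbn]; exact h5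
  · rintro ⟨⟨⟨h1, h2⟩, h3⟩, ⟨⟨h4, h5⟩, h6⟩, h7, h8⟩
    refine ⟨h1, h7, h3, h6, ?_⟩
    rw [sum_indicator_eq h1 h5]; exact h8

/-- the almost sure Poisson law -/
theorem poisson_law {Ω : Type*} [MeasurableSpace Ω] (μ : Measure Ω) [IsProbabilityMeasure μ]
    (d : ℕ → ℝ) (hd : Dens d) (P : Ω → Set ℕ) (hm : ∀ m, MeasurableSet {ω | m ∈ P ω})
    (hi : iIndepSet (fun m => {ω | m ∈ P ω}) μ)
    (hp : ∀ m, 1 ≤ m → μ {ω | m ∈ P ω} = ENNReal.ofReal (d (Nat.log 2 m))) :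
    ∀ᵐ ω ∂μ, ∀ k : ℕ, Tendsto (fun x : ℕ =>
      (((Finset.Icc 1 x).filter (fun n => reps (P ω) n = k)).card : ℝ) / (x : ℝ)) atTop
      (𝓝 ((Real.log 2) ^ k / (2 * (k.factorial : ℝ)))) := by
  have h1 : ∀ᵐ ω ∂μ, ∀ z : ℚ, 0 ≤ z → z ≤ 1 → ∀ q : ℕ, 8 ≤ q → ∀ᶠ i : ℕ in atTop,
      |Sg (P ω) ((i + 1) ^ (3 * q)) (z : ℝ) - (((i + 1) ^ (3 * q) : ℕ) : ℝ) * (2 : ℝ) ^ ((z : ℝ) - 1)|
        ≤ (((i + 1) ^ (3 * q) : ℕ) : ℝ) * (108 / q) := by
    rw [ae_all_iff]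
    intro z
    by_cases hz : 0 ≤ z ∧ z ≤ 1
    · have h2 : ∀ᵐ ω ∂μ, ∀ q : ℕ, 8 ≤ q → ∀ᶠ i : ℕ in atTop,
          |Sg (P ω) ((i + 1) ^ (3 * q)) (z : ℝ)
            - (((i + 1) ^ (3 * q) : ℕ) : ℝ) * (2 : ℝ) ^ ((z : ℝ) - 1)|
          ≤ (((i + 1) ^ (3 * q) : ℕ) : ℝ) * (108 / q) := by
        rw [ae_all_iff]
        intro q
        by_cases hq : 8 ≤ q
        · have h3 := ae_sparse (μ := μ) hd (E := fun m => {ω | m ∈ P ω}) hm hi hp hq
            (z := (z : ℝ)) (by exact_mod_cast hz.1) (by exact_mod_cast hz.2)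
          filter_upwards [h3] with ω hω _
          exact hω
        · exact Eventually.of_forall (fun ω h => absurd h hq)
      filter_upwards [h2] with ω hω _ _
      exact hω
    · exact Eventually.of_forall (fun ω h0 h1' => absurd ⟨h0, h1'⟩ hz)
  filter_upwards [h1] with ω hω k
  have h2 : ∀ z : ℚ, 0 < z → z ≤ 1 →
      Tendsto (fun x : ℕ => (∑ n ∈ Finset.Icc 1 x, (z : ℝ) ^ (cnt (RA (P ω) n) n)) / (x : ℝ))
        atTop (𝓝 ((2 : ℝ) ^ ((z : ℝ) - 1))) := by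
    intro z hz0 hz1
    have hzr0 : (0 : ℝ) ≤ z := by exact_mod_cast hz0.le
    have hzr1 : (z : ℝ) ≤ 1 := by exact_mod_cast hz1
    refine interp (fun n => pow_nonneg hzr0 _) (by positivity) ?_ (fun q hq => hω z hz0.le hz1 q hq)
    exact Real.rpow_le_one_of_one_le_of_nonpos (by norm_num) (by linarith)
  have h3 := continuity (f := fun n => cnt (RA (P ω) n) n) h2 k
  refine h3.congr (fun x => ?_)
  congr 3
  ext n
  simp only [Finset.mem_filter, Finset.mem_Icc]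
  constructor
  · rintro ⟨h4, h5⟩; exact ⟨h4, by rw [reps_eq _ h4.1]; exact h5⟩
  · rintro ⟨h4, h5⟩; exact ⟨h4, by rw [← reps_eq _ h4.1]; exact h5⟩

end Pool.Agent.helper306_cramer
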