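import Mathlib

/-!
# Finite Bernoulli models

`Ex p J Φ` is the expectation of `Φ A`, where `A` is the random subset of the finite set `J` in which
each `m ∈ J` lies with probability `p m`, independently.
-/

namespace Pool.Agent.helper306_cramer

open Finset

/-- the weight (probability) of the subset `A` of `J` -/
noncomputable def wt (p : ℕ → ℝ) (J A : Finset ℕ) : ℝ := ∏ m ∈ J, if m ∈ A then p m else 1 - p m

/-- the expectation of `Φ` over the random subset of `J` -/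
noncomputable def Ex (p : ℕ → ℝ) (J : Finset ℕ) (Φ : Finset ℕ → ℝ) : ℝ :=
  ∑ A ∈ J.powerset, wt p J A * Φ A

lemma wt_nonneg {p : ℕ → ℝ} (h0 : ∀ m, 0 ≤ p m) (h1 : ∀ m, p m ≤ 1) (J A : Finset ℕ) :
    0 ≤ wt p J A := by
  refine Finset.prod_nonneg (fun m _ => ?_)
  split_ifs
  · exact h0 m
  · linarith [h1 m]

lemma wt_insert_notMem {p : ℕ → ℝ} {J A : Finset ℕ} {a : ℕ} (ha : a ∉ J) (hA : A ⊆ J) :
    wt p (insert a J) A = (1 - p a) * wt p J A := by
  have h : a ∉ A := fun h => ha (hA h)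
  unfold wt
  rw [Finset.prod_insert ha, if_neg h]

lemma wt_insert_mem {p : ℕ → ℝ} {J A : Finset ℕ} {a : ℕ} (ha : a ∉ J) :
    wt p (insert a J) (insert a A) = p a * wt p J A := by
  unfold wt
  rw [Finset.prod_insert ha, if_pos (Finset.mem_insert_self _ _)]
  congr 1
  refine Finset.prod_congr rfl (fun m hm => ?_)
  have : m ≠ a := fun h => ha (h ▸ hm)
  by_cases h : m ∈ A
  · rw [if_pos (Finset.mem_insert_of_mem h), if_pos h]
  · rw [if_neg h, if_neg]
    intro h'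
    rcases Finset.mem_insert.mp h' with h' | h'
    · exact this h'
    · exact h h'

lemma Ex_empty (p : ℕ → ℝ) (Φ : Finset ℕ → ℝ) : Ex p ∅ Φ = Φ ∅ := by
  simp [Ex, wt]

lemma Ex_insert (p : ℕ → ℝ) {J : Finset ℕ} {a : ℕ} (ha : a ∉ J) (Φ : Finset ℕ → ℝ) :
    Ex p (insert a J) Φ = (1 - p a) * Ex p J Φ + p a * Ex p J (fun A => Φ (insert a A)) := by
  unfold Ex
  rw [Finset.sum_powerset_insert ha, Finset.mul_sum, Finset.mul_sum]
  congr 1
  · refine Finset.sum_congr rfl (fun A hA => ?_)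
    rw [wt_insert_notMem ha (Finset.mem_powerset.mp hA)]; ring
  · refine Finset.sum_congr rfl (fun A hA => ?_)
    rw [wt_insert_mem ha]; ring

lemma Ex_congr {p : ℕ → ℝ} {J : Finset ℕ} {Φ Ψ : Finset ℕ → ℝ} (h : ∀ A ⊆ J, Φ A = Ψ A) :
    Ex p J Φ = Ex p J Ψ :=
  Finset.sum_congr rfl (fun A hA => by rw [h A (Finset.mem_powerset.mp hA)])

lemma Ex_mono {p : ℕ → ℝ} (h0 : ∀ m, 0 ≤ p m) (h1 : ∀ m, p m ≤ 1) {J : Finset ℕ}
    {Φ Ψ : Finset ℕ → ℝ} (h : ∀ A ⊆ J, Φ A ≤ Ψ A) : Ex p J Φ ≤ Ex p J Ψ :=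
  Finset.sum_le_sum (fun A hA => mul_le_mul_of_nonneg_left (h A (Finset.mem_powerset.mp hA))
    (wt_nonneg h0 h1 J A))

lemma Ex_const (p : ℕ → ℝ) (J : Finset ℕ) (c : ℝ) : Ex p J (fun _ => c) = c := by
  induction J using Finset.induction_on with
  | empty => rw [Ex_empty]
  | insert a J ha ih => rw [Ex_insert p ha, ih]; ring

lemma Ex_add (p : ℕ → ℝ) (J : Finset ℕ) (Φ Ψ : Finset ℕ → ℝ) :
    Ex p J (fun A => Φ A + Ψ A) = Ex p J Φ + Ex p J Ψ := by
  unfold Ex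
  rw [← Finset.sum_add_distrib]
  exact Finset.sum_congr rfl (fun A _ => by ring)

lemma Ex_sub (p : ℕ → ℝ) (J : Finset ℕ) (Φ Ψ : Finset ℕ → ℝ) :
    Ex p J (fun A => Φ A - Ψ A) = Ex p J Φ - Ex p J Ψ := by
  unfold Ex
  rw [← Finset.sum_sub_distrib]
  exact Finset.sum_congr rfl (fun A _ => by ring)

lemma Ex_mul_left (p : ℕ → ℝ) (J : Finset ℕ) (c : ℝ) (Φ : Finset ℕ → ℝ) :
    Ex p J (fun A => c * Φ A) = c * Ex p J Φ := by
  unfold Ex
  rw [Finset.mul_sum]
  exact Finset.sum_congr rfl (fun A _ => by ring)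

lemma Ex_sum {ι : Type*} (p : ℕ → ℝ) (J : Finset ℕ) (s : Finset ι) (Φ : ι → Finset ℕ → ℝ) :
    Ex p J (fun A => ∑ i ∈ s, Φ i A) = ∑ i ∈ s, Ex p J (Φ i) := by
  unfold Ex
  rw [Finset.sum_comm]
  exact Finset.sum_congr rfl (fun A _ => by rw [Finset.mul_sum])

lemma Ex_nonneg {p : ℕ → ℝ} (h0 : ∀ m, 0 ≤ p m) (h1 : ∀ m, p m ≤ 1) {J : Finset ℕ}
    {Φ : Finset ℕ → ℝ} (h : ∀ A ⊆ J, 0 ≤ Φ A) : 0 ≤ Ex p J Φ := by
  have := Ex_mono h0 h1 (Φ := fun _ => 0) (Ψ := Φ) (J := J) h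
  rwa [Ex_const] at this

lemma Ex_le_const {p : ℕ → ℝ} (h0 : ∀ m, 0 ≤ p m) (h1 : ∀ m, p m ≤ 1) {J : Finset ℕ}
    {Φ : Finset ℕ → ℝ} {c : ℝ} (h : ∀ A ⊆ J, Φ A ≤ c) : Ex p J Φ ≤ c := by
  have := Ex_mono h0 h1 (Φ := Φ) (Ψ := fun _ => c) (J := J) h
  rwa [Ex_const] at this

lemma abs_Ex_le {p : ℕ → ℝ} (h0 : ∀ m, 0 ≤ p m) (h1 : ∀ m, p m ≤ 1) {J : Finset ℕ}
    {Φ : Finset ℕ → ℝ} {c : ℝ} (h : ∀ A ⊆ J, |Φ A| ≤ c) : |Ex p J Φ| ≤ c := by
  rw [abs_le]
  constructor
  · have := Ex_mono h0 h1 (Φ := fun _ => -c) (Ψ := Φ) (J := J) (fun A hA => (abs_le.mp (h A hA)).1)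
    rwa [Ex_const] at this
  · exact Ex_le_const h0 h1 (fun A hA => (abs_le.mp (h A hA)).2)

/-- independence of disjoint sets of coordinates -/
lemma Ex_mul_of_disjoint (p : ℕ → ℝ) {J₁ J₂ : Finset ℕ} (hd : Disjoint J₁ J₂)
    (Φ Ψ : Finset ℕ → ℝ) :
    Ex p (J₁ ∪ J₂) (fun A => Φ (A ∩ J₁) * Ψ (A ∩ J₂)) = Ex p J₁ Φ * Ex p J₂ Ψ := by
  induction J₂ using Finset.induction_on generalizing Ψ with
  | empty =>
    rw [Finset.union_empty, Ex_empty]
    rw [mul_comm, ← Ex_mul_left]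
    refine Ex_congr (fun A hA => ?_)
    rw [Finset.inter_empty, Finset.inter_eq_left.mpr hA, mul_comm]
  | insert a J₂ ha ih =>
    have hd' : Disjoint J₁ J₂ := Finset.disjoint_of_subset_right (Finset.subset_insert _ _) hd
    have ha1 : a ∉ J₁ := Finset.disjoint_right.mp hd (Finset.mem_insert_self _ _)
    have ha' : a ∉ J₁ ∪ J₂ := by
      rw [Finset.mem_union]; push Not; exact ⟨ha1, ha⟩
    rw [Finset.union_insert, Ex_insert p ha', Ex_insert p ha]
    have e1 : Ex p (J₁ ∪ J₂) (fun A => Φ (A ∩ J₁) * Ψ (A ∩ insert a J₂))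
        = Ex p J₁ Φ * Ex p J₂ Ψ := by
      rw [← ih hd' Ψ]
      refine Ex_congr (fun A hA => ?_)
      have : a ∉ A := fun h => ha' (hA h)
      rw [Finset.inter_insert_of_notMem this]
    have e2 : Ex p (J₁ ∪ J₂) (fun A => Φ (insert a A ∩ J₁) * Ψ (insert a A ∩ insert a J₂))
        = Ex p J₁ Φ * Ex p J₂ (fun A => Ψ (insert a A)) := by
      rw [← ih hd' (fun A => Ψ (insert a A))]
      refine Ex_congr (fun A hA => ?_)
      rw [Finset.insert_inter_of_notMem ha1, ← Finset.insert_inter_distrib]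
    rw [e1, e2]; ring

/-- marginals -/
lemma Ex_inter (p : ℕ → ℝ) {J₁ J : Finset ℕ} (h : J₁ ⊆ J) (Φ : Finset ℕ → ℝ) :
    Ex p J (fun A => Φ (A ∩ J₁)) = Ex p J₁ Φ := by
  have hd : Disjoint J₁ (J \ J₁) := Finset.disjoint_sdiff
  have := Ex_mul_of_disjoint p hd Φ (fun _ => 1)
  rw [Ex_const, mul_one, Finset.union_sdiff_of_subset h] at this
  rw [← this]
  exact Ex_congr (fun A _ => by rw [mul_one])

/-- independence of two disjoint sets of coordinates inside a larger set -/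
lemma Ex_mul_inter (p : ℕ → ℝ) {J₁ J₂ J : Finset ℕ} (hd : Disjoint J₁ J₂) (h1 : J₁ ⊆ J)
    (h2 : J₂ ⊆ J) (Φ Ψ : Finset ℕ → ℝ) :
    Ex p J (fun A => Φ (A ∩ J₁) * Ψ (A ∩ J₂)) = Ex p J₁ Φ * Ex p J₂ Ψ := by
  rw [← Ex_mul_of_disjoint p hd Φ Ψ]
  rw [← Ex_inter p (Finset.union_subset h1 h2)
    (fun A => Φ (A ∩ J₁) * Ψ (A ∩ J₂))]
  refine Ex_congr (fun A _ => ?_)
  rw [Finset.inter_assoc, Finset.inter_assoc, Finset.union_inter_cancel_left,
    Finset.union_inter_cancel_right]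

/-- independence of a family of pairwise disjoint sets of coordinates -/
lemma Ex_prod {ι : Type*} [DecidableEq ι] (p : ℕ → ℝ) (s : Finset ι) (I : ι → Finset ℕ)
    (hd : (s : Set ι).PairwiseDisjoint I) {J : Finset ℕ} (hJ : ∀ i ∈ s, I i ⊆ J)
    (Φ : ι → Finset ℕ → ℝ) :
    Ex p J (fun A => ∏ i ∈ s, Φ i (A ∩ I i)) = ∏ i ∈ s, Ex p (I i) (Φ i) := by
  induction s using Finset.induction_on with
  | empty => simp only [Finset.prod_empty]; exact Ex_const p J 1
  | insert a s ha ih =>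
    rw [Finset.prod_insert ha]
    have hd' : (s : Set ι).PairwiseDisjoint I :=
      hd.subset (by simp)
    have ih' := ih hd' (fun i hi => hJ i (Finset.mem_insert_of_mem hi))
    set U := s.biUnion I with hU
    have hUJ : U ⊆ J := by
      rw [hU, Finset.biUnion_subset]
      exact fun i hi => hJ i (Finset.mem_insert_of_mem hi)
    have hdU : Disjoint (I a) U := by
      rw [hU, Finset.disjoint_biUnion_right]
      intro i hi
      exact hd (by simp) (by simp [hi]) (fun h => ha (h ▸ hi))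
    have key : ∀ A : Finset ℕ, ∏ i ∈ s, Φ i (A ∩ I i) = ∏ i ∈ s, Φ i (A ∩ U ∩ I i) := by
      intro A
      refine Finset.prod_congr rfl (fun i hi => ?_)
      rw [Finset.inter_assoc, Finset.inter_eq_right.mpr (Finset.subset_biUnion_of_mem I hi)]
    calc Ex p J (fun A => ∏ i ∈ insert a s, Φ i (A ∩ I i))
        = Ex p J (fun A => Φ a (A ∩ I a) * (fun B => ∏ i ∈ s, Φ i (B ∩ I i)) (A ∩ U)) := by
          refine Ex_congr (fun A _ => ?_)
          rw [Finset.prod_insert ha, key A]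
      _ = Ex p (I a) (Φ a) * Ex p U (fun B => ∏ i ∈ s, Φ i (B ∩ I i)) :=
          Ex_mul_inter p hdU (hJ a (Finset.mem_insert_self _ _)) hUJ (Φ a)
            (fun B => ∏ i ∈ s, Φ i (B ∩ I i))
      _ = Ex p (I a) (Φ a) * ∏ i ∈ s, Ex p (I i) (Φ i) := by
          congr 1
          rw [← ih']
          rw [← Ex_inter p hUJ (fun B => ∏ i ∈ s, Φ i (B ∩ I i))]
          refine Ex_congr (fun A _ => ?_)
          exact (key A).symm

/-- the weight of a set is the expectation of its indicator -/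
lemma Ex_indicator (p : ℕ → ℝ) {J T : Finset ℕ} (hT : T ⊆ J) :
    Ex p J (fun A => if A = T then 1 else 0) = wt p J T := by
  unfold Ex
  rw [Finset.sum_eq_single T]
  · simp
  · intro A _ hA; simp [hA]
  · intro h; exact absurd (Finset.mem_powerset.mpr hT) h

/-- the weight of a set in a region of constant density -/
lemma wt_const {p : ℕ → ℝ} {J T : Finset ℕ} (hT : T ⊆ J) {c : ℝ} (hc : ∀ m ∈ J, p m = c) :
    wt p J T = c ^ T.card * (1 - c) ^ (J.card - T.card) := by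
  unfold wt
  rw [Finset.prod_ite]
  have e1 : (J.filter (fun m => m ∈ T)) = T := by
    ext m; simp only [Finset.mem_filter]; exact ⟨fun h => h.2, fun h => ⟨hT h, h⟩⟩
  have e2 : (J.filter (fun m => m ∉ T)) = J \ T := by
    ext m; simp [Finset.mem_sdiff]
  rw [e1, e2]
  have e3 : ∏ m ∈ T, p m = c ^ T.card := by
    rw [Finset.prod_congr rfl (fun m hm => hc m (hT hm)), Finset.prod_const]
  have e4 : ∏ m ∈ J \ T, (1 - p m) = (1 - c) ^ (J.card - T.card) := by
    rw [Finset.prod_congr rfl (g := fun _ => 1 - c)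
      (fun m hm => by rw [hc m (Finset.mem_sdiff.mp hm).1]), Finset.prod_const,
      Finset.card_sdiff_of_subset hT]
  rw [e3, e4]

/-- exponential moments of the cardinality -/
lemma Ex_pow_card (p : ℕ → ℝ) (J : Finset ℕ) (c : ℝ) :
    Ex p J (fun A => c ^ A.card) = ∏ m ∈ J, (1 + (c - 1) * p m) := by
  induction J using Finset.induction_on with
  | empty => rw [Ex_empty]; simp
  | insert a J ha ih =>
    rw [Ex_insert p ha, Finset.prod_insert ha, ← ih]
    have : Ex p J (fun A => c ^ (insert a A).card) = c * Ex p J (fun A => c ^ A.card) := by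
      rw [← Ex_mul_left]
      refine Ex_congr (fun A hA => ?_)
      rw [Finset.card_insert_of_notMem (fun h => ha (hA h))]; ring
    rw [this]; ring

/-- the expected cardinality -/
lemma Ex_card (p : ℕ → ℝ) (J : Finset ℕ) :
    Ex p J (fun A => (A.card : ℝ)) = ∑ m ∈ J, p m := by
  induction J using Finset.induction_on with
  | empty => rw [Ex_empty]; simp
  | insert a J ha ih =>
    rw [Ex_insert p ha, Finset.sum_insert ha, ← ih]
    have : Ex p J (fun A => ((insert a A).card : ℝ)) = 1 + Ex p J (fun A => (A.card : ℝ)) := by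
      have h2 := Ex_add p J (fun _ => 1) (fun A => (A.card : ℝ))
      rw [Ex_const] at h2
      rw [← h2]
      refine Ex_congr (fun A hA => ?_)
      rw [Finset.card_insert_of_notMem (fun h => ha (hA h))]; push_cast; ring
    rw [this]; ring

end Pool.Agent.helper306_cramer
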