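import Pool.Agent.helper306_cramer.Blocks

/-!
# The sums over all the blocks
-/

namespace Pool.Agent.helper306_cramer

open Finset

/-- the density function which is constant on dyadic intervals -/
noncomputable def pd (d : ℕ → ℝ) (m : ℕ) : ℝ := d (Nat.log 2 m)

lemma pd_of_mem {d : ℕ → ℝ} {e J L : ℕ} (he : e ≤ J) {s : ℕ × ℕ} (hs : s ∈ SS e J L) :
    ∀ m ∈ Finset.Ico (yb e s) (yb e s + Lb e s), pd d m = d s.1 := by
  intro m hm
  rw [mem_SS] at hs
  unfold pd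
  rw [log_of_mem (by omega) hs.2 hm]

lemma two_pow_sum_le {n : ℕ} (hn : 1 ≤ n) (J L : ℕ) :
    ∑ j ∈ (Finset.Icc J L).filter (fun j => 2 ^ j ≤ n), (2 : ℝ) ^ (j + 1) ≤ 4 * n := by
  have hn0 : n ≠ 0 := by omega
  have h1 : (Finset.Icc J L).filter (fun j => 2 ^ j ≤ n) ⊆ Finset.range (Nat.log 2 n + 1) := by
    intro j hj
    rw [Finset.mem_filter] at hj
    rw [Finset.mem_range]
    have := Nat.le_log_of_pow_le (b := 2) (by norm_num) hj.2
    omega
  have h2 : ∑ j ∈ (Finset.Icc J L).filter (fun j => 2 ^ j ≤ n), (2 : ℝ) ^ (j + 1)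
      ≤ ∑ j ∈ Finset.range (Nat.log 2 n + 1), (2 : ℝ) ^ (j + 1) :=
    Finset.sum_le_sum_of_subset_of_nonneg h1 (fun _ _ _ => by positivity)
  have h3 : ∀ N : ℕ, ∑ j ∈ Finset.range N, (2 : ℝ) ^ (j + 1) = 2 * (2 ^ N - 1) := by
    intro N
    induction N with
    | zero => simp
    | succ N ih => rw [Finset.sum_range_succ, ih]; ring
  rw [h3] at h2
  have h4 : (2 : ℝ) ^ (Nat.log 2 n) ≤ n := by exact_mod_cast Nat.pow_log_le_self 2 hn0
  rw [pow_succ] at h2
  linarith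

section
variable {d : ℕ → ℝ} {rho : ℝ} {e J L : ℕ}

lemma lam_le (hd0 : ∀ j, 0 ≤ d j) (hd1 : ∀ j, d j ≤ 1) (hrho : ∀ j, J ≤ j → d j ≤ rho)
    (h32 : 32 * rho ≤ 1) (he : e ≤ J) {s : ℕ × ℕ} (hs : s ∈ SS e J L) (n : ℕ) :
    Ex (pd d) (Ib e s) (fun A => (cnt A n : ℝ))
      ≤ ∑ l ∈ Finset.Icc 1 n, if n / l ∈ Ib e s then
          d s.1 * (1 / (l : ℝ) + (1 / 2 : ℝ) ^ l) else 0 := by
  have hs' := mem_SS.mp hs
  have h1 := hrho s.1 hs'.1.1
  exact Ex_cnt_le (fun m => hd0 _) (fun m => hd1 _) (yb_pos e s) (pd_of_mem he hs) (hd0 _)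
    (by linarith) n

lemma lam_max (hd0 : ∀ j, 0 ≤ d j) (hd1 : ∀ j, d j ≤ 1) (hrho : ∀ j, J ≤ j → d j ≤ rho)
    (h32 : 32 * rho ≤ 1) (he : e ≤ J) {s : ℕ × ℕ} (hs : s ∈ SS e J L) (n : ℕ) :
    Ex (pd d) (Ib e s) (fun A => (cnt A n : ℝ)) ≤ 4 * rho := by
  have hs' := mem_SS.mp hs
  have hr0 : 0 ≤ rho := (hd0 J).trans (hrho J le_rfl)
  refine (lam_le hd0 hd1 hrho h32 he hs n).trans ?_
  have h1 : ∑ l ∈ Finset.Icc 1 n, (if n / l ∈ Ib e s then
          d s.1 * (1 / (l : ℝ) + (1 / 2 : ℝ) ^ l) else 0)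
      ≤ ∑ l ∈ (Finset.Icc 1 n).filter (fun l => Nat.log 2 (n / l) = s.1 ∧ 1 ≤ n / l),
          rho * (1 / (l : ℝ) + (1 / 2 : ℝ) ^ l) := by
    rw [← Finset.sum_filter]
    refine le_trans (Finset.sum_le_sum_of_subset_of_nonneg
      (t := (Finset.Icc 1 n).filter (fun l => Nat.log 2 (n / l) = s.1 ∧ 1 ≤ n / l)) ?_ ?_) ?_
    · intro l hl
      rw [Finset.mem_filter] at hl ⊢
      refine ⟨hl.1, log_of_mem (by omega) hs'.2 hl.2, ?_⟩
      have := hl.2
      unfold Ib at this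
      rw [Finset.mem_Ico] at this
      have := yb_pos e s
      omega
    · intro l _ _
      exact mul_nonneg (hd0 _) (by positivity)
    · refine Finset.sum_le_sum (fun l _ => ?_)
      exact mul_le_mul_of_nonneg_right (hrho s.1 hs'.1.1) (by positivity)
  refine h1.trans ?_
  rw [← Finset.mul_sum, Finset.sum_add_distrib]
  have h2 : ∑ l ∈ (Finset.Icc 1 n).filter (fun l => Nat.log 2 (n / l) = s.1 ∧ 1 ≤ n / l),
      1 / (l : ℝ) ≤ Real.log 2 + 2 := by
    rcases Nat.lt_or_ge n (2 ^ s.1) with h | h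
    · rw [Hj_zero h]; have := Real.log_nonneg (x := 2) (by norm_num); linarith
    · refine (Hj_le h).trans (add_le_add le_rfl ?_)
      have hn0 : (0 : ℝ) < n := by
        have : 0 < 2 ^ s.1 := by positivity
        have : 0 < n := by omega
        exact_mod_cast this
      rw [div_le_iff₀ hn0, pow_succ]
      have : ((2 : ℝ) ^ s.1) ≤ n := by exact_mod_cast h
      linarith
  have h3 : ∑ l ∈ (Finset.Icc 1 n).filter (fun l => Nat.log 2 (n / l) = s.1 ∧ 1 ≤ n / l),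
      (1 / 2 : ℝ) ^ l ≤ 1 := sum_half_pow_le _ (fun l hl => by
        rw [Finset.mem_filter, Finset.mem_Icc] at hl; exact hl.1.1)
  have h4 : Real.log 2 ≤ 1 := by
    have := Real.log_two_lt_d9; linarith
  nlinarith

/-- upper bound for the mean number of windows -/
theorem La_le (hd0 : ∀ j, 0 ≤ d j) (hd1 : ∀ j, d j ≤ 1) (hrho : ∀ j, J ≤ j → d j ≤ rho)
    (h32 : 32 * rho ≤ 1) (he : e ≤ J) {n : ℕ} (hn : 1 ≤ n) :
    La (pd d) (SS e J L) (Ib e) n ≤ Real.log 2 * ∑ j ∈ Finset.Icc J L, d j + 5 * rho := by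
  classical
  have hr0 : 0 ≤ rho := (hd0 J).trans (hrho J le_rfl)
  have hn0 : (0 : ℝ) < n := by exact_mod_cast hn
  unfold La
  have h1 : ∑ s ∈ SS e J L, Ex (pd d) (Ib e s) (fun A => (cnt A n : ℝ))
      ≤ ∑ s ∈ SS e J L, ∑ l ∈ Finset.Icc 1 n, if n / l ∈ Ib e s then
          d s.1 * (1 / (l : ℝ) + (1 / 2 : ℝ) ^ l) else 0 :=
    Finset.sum_le_sum (fun s hs => lam_le hd0 hd1 hrho h32 he hs n)
  refine h1.trans ?_
  rw [Finset.sum_comm]
  have h2 : ∀ l ∈ Finset.Icc 1 n, ∑ s ∈ SS e J L, (if n / l ∈ Ib e s then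
          d s.1 * (1 / (l : ℝ) + (1 / 2 : ℝ) ^ l) else 0)
      ≤ (∑ j ∈ Finset.Icc J L, if Nat.log 2 (n / l) = j ∧ 1 ≤ n / l then d j * (1 / (l : ℝ)) else 0)
        + rho * (1 / 2 : ℝ) ^ l := by
    intro l hl
    by_cases hex : ∃ s ∈ SS e J L, n / l ∈ Ib e s
    · obtain ⟨s, hs, hmem⟩ := hex
      have hs' := mem_SS.mp hs
      have hlog := log_of_mem (by omega) hs'.2 hmem
      have hge : 1 ≤ n / l := by
        have := hmem
        unfold Ib at this
        rw [Finset.mem_Ico] at this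
        have := yb_pos e s
        omega
      rw [Finset.sum_eq_single s]
      · rw [if_pos hmem]
        have h3 : ∑ j ∈ Finset.Icc J L, (if Nat.log 2 (n / l) = j ∧ 1 ≤ n / l then
            d j * (1 / (l : ℝ)) else 0) = d s.1 * (1 / (l : ℝ)) := by
          rw [Finset.sum_eq_single s.1]
          · rw [if_pos ⟨hlog, hge⟩]
          · intro j _ hj
            rw [if_neg]; rintro ⟨h, _⟩; exact hj (h.symm.trans hlog)
          · intro h; exact absurd (Finset.mem_Icc.mpr hs'.1) h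
        rw [h3, mul_add]
        refine add_le_add le_rfl (mul_le_mul_of_nonneg_right (hrho _ hs'.1.1) (by positivity))
      · intro s'' hs'' hne
        rw [if_neg]
        intro hm
        exact hne (block_unique he hs'' hs hm hmem)
      · intro h; exact absurd hs h
    · rw [Finset.sum_eq_zero]
      · refine add_nonneg (Finset.sum_nonneg (fun j _ => ?_)) (by positivity)
        split_ifs
        · exact mul_nonneg (hd0 j) (by positivity)
        · exact le_rfl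
      · intro s hs
        rw [if_neg (fun h => hex ⟨s, hs, h⟩)]
  refine (Finset.sum_le_sum h2).trans ?_
  rw [Finset.sum_add_distrib, ← Finset.mul_sum, Finset.sum_comm]
  have h3 : ∑ l ∈ Finset.Icc 1 n, (1 / 2 : ℝ) ^ l ≤ 1 :=
    sum_half_pow_le _ (fun l hl => (Finset.mem_Icc.mp hl).1)
  have h4 : ∀ j ∈ Finset.Icc J L, ∑ l ∈ Finset.Icc 1 n,
      (if Nat.log 2 (n / l) = j ∧ 1 ≤ n / l then d j * (1 / (l : ℝ)) else 0)
      ≤ Real.log 2 * d j + (if 2 ^ j ≤ n then rho * (2 ^ (j + 1) / n) else 0) := by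
    intro j hj
    rw [← Finset.sum_filter, ← Finset.mul_sum]
    by_cases h : 2 ^ j ≤ n
    · rw [if_pos h]
      have h5 := Hj_le h
      have h6 := hrho j (Finset.mem_Icc.mp hj).1
      have h7 : (0 : ℝ) ≤ 2 ^ (j + 1) / n := by positivity
      have h8 := hd0 j
      calc d j * _ ≤ d j * (Real.log 2 + 2 ^ (j + 1) / n) := mul_le_mul_of_nonneg_left h5 h8
        _ = Real.log 2 * d j + d j * (2 ^ (j + 1) / n) := by ring
        _ ≤ Real.log 2 * d j + rho * (2 ^ (j + 1) / n) :=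
          add_le_add le_rfl (mul_le_mul_of_nonneg_right h6 h7)
    · rw [if_neg h, Hj_zero (by omega), mul_zero, add_zero]
      exact mul_nonneg (Real.log_nonneg (by norm_num)) (hd0 j)
  have h5 := Finset.sum_le_sum h4
  rw [Finset.sum_add_distrib, ← Finset.mul_sum, ← Finset.sum_filter, ← Finset.mul_sum,
    ← Finset.sum_div] at h5
  have h6 := two_pow_sum_le hn J L
  have h7 : rho * ((∑ j ∈ (Finset.Icc J L).filter (fun j => 2 ^ j ≤ n), (2 : ℝ) ^ (j + 1)) / n)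
      ≤ rho * 4 := by
    refine mul_le_mul_of_nonneg_left ?_ hr0
    rw [div_le_iff₀ hn0]; exact h6
  nlinarith

lemma hM_ge (M : ℕ) (hM : 1 ≤ M) :
    Real.log 2 - 1 / M ≤ ∑ i ∈ Finset.range M, 1 / ((M : ℝ) + i + 1) := by
  have hM0 : (0 : ℝ) < M := by exact_mod_cast hM
  have h1 : ∀ k : ℕ, Real.log ((M + k + 1) / (M + 1)) ≤
      ∑ i ∈ Finset.range k, 1 / ((M : ℝ) + i + 1) := by
    intro k
    induction k with
    | zero => simp
    | succ k ih =>
      rw [Finset.sum_range_succ]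
      have hpos : (0 : ℝ) < M + k + 1 := by positivity
      have e : (((M : ℝ) + ((k + 1 : ℕ) : ℝ) + 1) / (M + 1))
          = ((M + k + 1) / (M + 1)) * (1 + 1 / (M + k + 1)) := by
        push_cast; field_simp; ring
      rw [e, Real.log_mul (by positivity) (by positivity)]
      have h2 : Real.log (1 + 1 / ((M : ℝ) + k + 1)) ≤ 1 / ((M : ℝ) + k + 1) := by
        have := Real.log_le_sub_one_of_pos (x := 1 + 1 / ((M : ℝ) + k + 1)) (by positivity)
        linarith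
      linarith
  refine le_trans ?_ (h1 M)
  have e : (((M : ℝ) + M + 1) / (M + 1)) = 2 * ((2 * M + 1) / (2 * M + 2)) := by
    field_simp; ring
  rw [e, Real.log_mul (by norm_num) (by positivity)]
  have h3 := Real.one_sub_inv_le_log_of_pos (x := (2 * (M : ℝ) + 1) / (2 * M + 2)) (by positivity)
  have h4 : (1 : ℝ) - ((2 * (M : ℝ) + 1) / (2 * M + 2))⁻¹ = -(1 / (2 * M + 1)) := by
    field_simp; ring
  rw [h4] at h3
  have h5 : 1 / (2 * (M : ℝ) + 1) ≤ 1 / M := by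
    apply one_div_le_one_div_of_le hM0; linarith
  linarith

/-- lower bound for the total mean number of windows -/
theorem sum_La_ge (hd0 : ∀ j, 0 ≤ d j) (hd1 : ∀ j, d j ≤ 1) (hrho : ∀ j, J ≤ j → d j ≤ rho)
    (he : e ≤ J) {x : ℕ} (hx : 2 ^ L ≤ x) :
    (x : ℝ) * (Real.log 2 - 1 / 2 ^ e) * ∑ j ∈ Finset.Icc J L, d j - 2 * rho * x
      - (L + 1) * 2 ^ e * ((x : ℝ) / 2 ^ J) ^ 2
    ≤ ∑ n ∈ Finset.Icc 1 x, La (pd d) (SS e J L) (Ib e) n := by
  classical
  have hr0 : 0 ≤ rho := (hd0 J).trans (hrho J le_rfl)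
  have hx0 : (0 : ℝ) ≤ x := Nat.cast_nonneg x
  unfold La
  rw [Finset.sum_comm]
  have h1 : ∀ s ∈ SS e J L, d s.1 * (x / ((2 : ℝ) ^ e + s.2 + 1) - 2 ^ (s.1 - e))
        - ((x : ℝ) / 2 ^ J) ^ 2
      ≤ ∑ n ∈ Finset.Icc 1 x, Ex (pd d) (Ib e s) (fun A => (cnt A n : ℝ)) := by
    intro s hs
    have hs' := mem_SS.mp hs
    rw [← Ex_sum]
    set K := x / (yb e s + Lb e s) with hK
    have h2 : Ex (pd d) (Ib e s) (fun A => (K : ℝ) * (A.card : ℝ) - (K : ℝ) * K)
        ≤ Ex (pd d) (Ib e s) (fun A => ∑ n ∈ Finset.Icc 1 x, (cnt A n : ℝ)) := by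
      refine Ex_mono (fun m => hd0 _) (fun m => hd1 _) (fun A hA => ?_)
      have h3 := le_sum_cnt (x := x) (yb_pos e s) (A := A) hA
      rw [← hK] at h3
      have h4 : (K : ℝ) * A.card ≤ ∑ n ∈ Finset.Icc 1 x, (cnt A n : ℝ) + K * K := by
        exact_mod_cast h3
      linarith
    rw [Ex_sub, Ex_mul_left, Ex_card, Ex_const] at h2
    have h3 : ∑ m ∈ Ib e s, pd d m = 2 ^ (s.1 - e) * d s.1 := by
      have : ∀ m ∈ Ib e s, pd d m = d s.1 := pd_of_mem he hs
      rw [Finset.sum_congr rfl this, Finset.sum_const]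
      unfold Ib
      rw [Nat.card_Ico, Nat.add_sub_cancel_left, nsmul_eq_mul]
      unfold Lb
      push_cast
      rfl
    rw [h3] at h2
    refine le_trans ?_ h2
    have hden : ((yb e s + Lb e s : ℕ) : ℝ) = 2 ^ (s.1 - e) * (2 ^ e + s.2 + 1) := by
      unfold yb Lb; push_cast; ring
    have hpos : (0 : ℝ) < 2 ^ (s.1 - e) := by positivity
    have hKge : (x : ℝ) / (2 ^ (s.1 - e) * (2 ^ e + s.2 + 1)) - 1 ≤ K := by
      have := Nat.lt_floor_add_one ((x : ℝ) / ((yb e s + Lb e s : ℕ) : ℝ))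
      rw [Nat.floor_div_eq_div] at this
      rw [hden] at this
      rw [hK]
      linarith
    have hKle : (K : ℝ) ≤ x / 2 ^ J := by
      have h5 : K ≤ x / 2 ^ J := by
        rw [hK]
        refine Nat.div_le_div_left ?_ (by positivity)
        have := yb_ge (e := e) (s := s) (by omega)
        have : 2 ^ J ≤ 2 ^ s.1 := Nat.pow_le_pow_right (by norm_num) hs'.1.1
        omega
      calc (K : ℝ) ≤ ((x / 2 ^ J : ℕ) : ℝ) := by exact_mod_cast h5
        _ ≤ (x : ℝ) / ((2 ^ J : ℕ) : ℝ) := Nat.cast_div_le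
        _ = x / 2 ^ J := by push_cast; rfl
    have hK0 : (0 : ℝ) ≤ K := Nat.cast_nonneg _
    have h6 : (K : ℝ) * K ≤ ((x : ℝ) / 2 ^ J) ^ 2 := by nlinarith
    have h7 : d s.1 * (x / ((2 : ℝ) ^ e + s.2 + 1) - 2 ^ (s.1 - e))
        ≤ K * (2 ^ (s.1 - e) * d s.1) := by
      have h8 : (x / ((2 : ℝ) ^ e + s.2 + 1) - 2 ^ (s.1 - e))
          = ((x : ℝ) / (2 ^ (s.1 - e) * (2 ^ e + s.2 + 1)) - 1) * 2 ^ (s.1 - e) := by
        field_simp
      rw [h8]
      have h9 : 0 ≤ (2 : ℝ) ^ (s.1 - e) * d s.1 := mul_nonneg hpos.le (hd0 _)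
      nlinarith
    linarith
  refine le_trans ?_ (Finset.sum_le_sum h1)
  rw [Finset.sum_sub_distrib, Finset.sum_const, nsmul_eq_mul]
  have hcard : (((SS e J L).card : ℕ) : ℝ) ≤ (L + 1) * 2 ^ e := by
    unfold SS
    rw [Finset.card_product, Nat.card_Icc, Finset.card_range]
    push_cast
    refine mul_le_mul_of_nonneg_right ?_ (by positivity)
    have : L + 1 - J ≤ L + 1 := Nat.sub_le _ _
    exact_mod_cast this
  have hA : ((SS e J L).card : ℝ) * ((x : ℝ) / 2 ^ J) ^ 2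
      ≤ (L + 1) * 2 ^ e * ((x : ℝ) / 2 ^ J) ^ 2 :=
    mul_le_mul_of_nonneg_right hcard (sq_nonneg _)
  have hB : (x : ℝ) * (Real.log 2 - 1 / 2 ^ e) * ∑ j ∈ Finset.Icc J L, d j - 2 * rho * x
      ≤ ∑ s ∈ SS e J L, d s.1 * (x / ((2 : ℝ) ^ e + s.2 + 1) - 2 ^ (s.1 - e)) := by
    unfold SS
    rw [Finset.sum_product]
    have h3 : ∀ j ∈ Finset.Icc J L, (x : ℝ) * (Real.log 2 - 1 / 2 ^ e) * d j - rho * 2 ^ j
        ≤ ∑ i ∈ Finset.range (2 ^ e), d j * (x / ((2 : ℝ) ^ e + i + 1) - 2 ^ (j - e)) := by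
      intro j hj
      rw [Finset.mem_Icc] at hj
      rw [← Finset.mul_sum, Finset.sum_sub_distrib, Finset.sum_const, Finset.card_range,
        nsmul_eq_mul]
      have h4 := hM_ge (2 ^ e) Nat.one_le_two_pow
      push_cast at h4
      have h5 : ∑ i ∈ Finset.range (2 ^ e), (x : ℝ) / ((2 : ℝ) ^ e + i + 1)
          = x * ∑ i ∈ Finset.range (2 ^ e), 1 / ((2 : ℝ) ^ e + i + 1) := by
        rw [Finset.mul_sum]
        exact Finset.sum_congr rfl (fun i _ => by ring)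
      have h6 : ((2 ^ e : ℕ) : ℝ) * 2 ^ (j - e) = 2 ^ j := by
        push_cast
        rw [← pow_add]; congr 1; omega
      rw [h5, h6, mul_sub]
      have h7 : d j * 2 ^ j ≤ rho * 2 ^ j :=
        mul_le_mul_of_nonneg_right (hrho j hj.1) (by positivity)
      have h8 : d j * (x * (Real.log 2 - 1 / 2 ^ e))
          ≤ d j * (x * ∑ i ∈ Finset.range (2 ^ e), 1 / ((2 : ℝ) ^ e + i + 1)) :=
        mul_le_mul_of_nonneg_left (mul_le_mul_of_nonneg_left h4 hx0) (hd0 j)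
      linarith
    refine le_trans ?_ (Finset.sum_le_sum h3)
    rw [Finset.sum_sub_distrib, ← Finset.mul_sum, ← Finset.mul_sum]
    have h9 : ∑ j ∈ Finset.Icc J L, (2 : ℝ) ^ j ≤ 2 * x := by
      have h10 : ∑ j ∈ Finset.Icc J L, (2 : ℝ) ^ j ≤ ∑ j ∈ Finset.range (L + 1), (2 : ℝ) ^ j := by
        refine Finset.sum_le_sum_of_subset_of_nonneg (fun j hj => ?_) (fun _ _ _ => by positivity)
        rw [Finset.mem_Icc] at hj
        rw [Finset.mem_range]; omega
      have h11 : ∀ N : ℕ, ∑ j ∈ Finset.range N, (2 : ℝ) ^ j = 2 ^ N - 1 := by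
        intro N
        induction N with
        | zero => simp
        | succ N ih => rw [Finset.sum_range_succ, ih]; ring
      rw [h11, pow_succ] at h10
      have h12 : (2 : ℝ) ^ L ≤ x := by exact_mod_cast hx
      linarith
    nlinarith
  linarith

end

end Pool.Agent.helper306_cramer
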